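import Pool.Agent.Q74.KP.End

/-! # Project KP: the scaling limit of the levels of `k` trajectories -/

set_option autoImplicit false

namespace Pool.Agent.Q74.KP

open Finset
open Pool.Agent.Q158.Pair (T av step q od nb q_zero_right q_nonneg q_le_one q_succ per_sum cop2)
open Pool.Agent.Q74.AR (oc ps sr sg qq qq_lev qq_succ qq_nonneg qq_le_one lim lim_scale qq_main Phi bE bE_add
  bE_mul bE_const bE_sq bE_mono oc_per sum_oc)

variable {k : ℕ}

/-! ### killed and free averages -/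

theorem act_nonneg (t : ℕ) {F : (Fin k → ℤ) → ℝ} (h : ∀ a, 0 ≤ F a) : ∀ a, 0 ≤ act k (PP k ^ t) F a := by
  induction t with
  | zero => intro a; rw [pow_zero, act_one]; exact h a
  | succ n ih =>
    intro a
    rw [pow_succ', act_mul, act_PP]
    exact div_nonneg (sum_nonneg fun A _ => ih _) (by positivity)

theorem NG_close (g h : (Fin k → ℤ) → ℝ) (t : ℕ) : ∀ a,
    |NG g t a - NG h t a| ≤ act k (PP k ^ t) (fun z => |g z - h z|) a := by
  induction t with
  | zero =>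
    intro a
    rw [pow_zero, act_one]
    by_cases ha : Function.Injective a
    · rw [NG_zero ha, NG_zero ha]
    · rw [NG_not ha, NG_not ha, sub_zero, abs_zero]
      exact abs_nonneg _
  | succ n ih =>
    intro a
    by_cases ha : Function.Injective a
    · rw [NG_succ ha, NG_succ ha, pow_succ', act_mul, act_PP, ← sub_div, abs_div,
        abs_of_pos (by positivity : (0 : ℝ) < 2 ^ k), ← sum_sub_distrib]
      apply div_le_div_of_nonneg_right _ (by positivity)
      exact (abs_sum_le_sum_abs _ _).trans (sum_le_sum fun A _ => ih _)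
    · rw [NG_not ha, NG_not ha, sub_zero, abs_zero]
      exact act_nonneg _ (fun z => abs_nonneg _) a

theorem NG_const (c : ℝ) (t : ℕ) : ∀ a : Fin k → ℤ, NG (fun _ => c) t a = c * NG (fun _ => 1) t a := by
  induction t with
  | zero =>
    intro a
    by_cases ha : Function.Injective a
    · rw [NG_zero ha, NG_zero ha, mul_one]
    · rw [NG_not ha, NG_not ha, mul_zero]
  | succ n ih =>
    intro a
    by_cases ha : Function.Injective a
    · rw [NG_succ ha, NG_succ ha]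
      simp only [ih (sh a _)]
      rw [← mul_sum, mul_div_assoc]
    · rw [NG_not ha, NG_not ha, mul_zero]

theorem act_coord (i : Fin k) (t : ℕ) (ψ : ℤ → ℝ) (a : Fin k → ℤ) :
    act k (PP k ^ t) (fun z => ψ (z i)) a = bE t (fun m => ψ (a i + m)) := by
  have e : PP k ^ t = Po i ^ t * (∏ l ∈ univ.erase i, Po l) ^ t := by
    unfold PP
    rw [← mul_pow, mul_prod_erase _ _ (mem_univ i)]
  have h1 : act k (∏ l ∈ univ.erase i, Po l) (fun z => ψ (z i)) = fun z => ψ (z i) := by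
    apply act_prodP_id
    intro l hl b
    rw [mem_erase] at hl
    simp [hl.1.symm]
  have h2 : ∀ t : ℕ, act k ((∏ l ∈ univ.erase i, Po l) ^ t) (fun z => ψ (z i)) = fun z => ψ (z i) := by
    intro t
    induction t with
    | zero => rw [pow_zero, act_one]
    | succ n ih => rw [pow_succ, act_mul, h1, ih]
  rw [e, act_mul, h2, act_Ppow]
  congr 1
  funext m
  simp

theorem bE_dist (r r' : ℕ) (h : |(r : ℝ) / 2 - r'| ≤ 1 / 2) : bE r (fun m => |(m : ℝ) - r'|) ≤ √((r : ℝ) + 1) := by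
  have hr : (0 : ℝ) < (r : ℝ) + 1 := by positivity
  set θ := √((r : ℝ) + 1) with hθ
  have hθ0 : 0 < θ := Real.sqrt_pos.2 hr
  have hθ2 : θ ^ 2 = r + 1 := Real.sq_sqrt hr.le
  have h1 : bE r (fun m => |(m : ℝ) - r'|) ≤ bE r (fun m => θ / 2 + 1 / (2 * θ) * ((m : ℝ) - r') ^ 2) := by
    apply bE_mono
    intro m
    set x := (m : ℝ) - r'
    have h5 : θ / 2 + 1 / (2 * θ) * x ^ 2 - |x| = (θ - |x|) ^ 2 / (2 * θ) := by
      have hx : |x| ^ 2 = x ^ 2 := sq_abs x
      field_simp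
      rw [← hx]
      ring
    have h6 : 0 ≤ (θ - |x|) ^ 2 / (2 * θ) := by positivity
    linarith
  refine h1.trans ?_
  rw [bE_add r (fun _ => θ / 2), bE_const, bE_mul, bE_sq]
  have h2 : ((r : ℝ) / 2 - r') ^ 2 ≤ 1 / 4 := by
    rw [← sq_abs]
    nlinarith [abs_nonneg ((r : ℝ) / 2 - r')]
  have h3 : 1 / (2 * θ) * ((r : ℝ) / 4 + ((r : ℝ) / 2 - r') ^ 2) ≤ 1 / (2 * θ) * (θ ^ 2 / 4) := by
    apply mul_le_mul_of_nonneg_left _ (by positivity)
    linarith
  have h4 : 1 / (2 * θ) * (θ ^ 2 / 4) = θ / 8 := by field_simp; ring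
  linarith

theorem act_dist (r r' : ℕ) (h : |(r : ℝ) / 2 - r'| ≤ 1 / 2) (a : Fin k → ℤ) :
    act k (PP k ^ r) (fun z => ∑ i, |(z i : ℝ) - (a i + r' : ℤ)|) a ≤ k * √((r : ℝ) + 1) := by
  have e : (fun z : Fin k → ℤ => ∑ i, |(z i : ℝ) - (a i + r' : ℤ)|) =
      ∑ i, (fun z : Fin k → ℤ => (fun y : ℤ => |(y : ℝ) - (a i + r' : ℤ)|) (z i)) := by
    funext z
    rw [Finset.sum_apply]
  rw [e, map_sum, Finset.sum_apply]
  refine (sum_le_card_nsmul _ _ (√((r : ℝ) + 1)) ?_).trans (by rw [card_univ, Fintype.card_fin, nsmul_eq_mul])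
  intro i _
  rw [act_coord i r (fun y : ℤ => |(y : ℝ) - (a i + r' : ℤ)|)]
  refine le_trans (le_of_eq ?_) (bE_dist r r' h)
  congr 1
  funext m
  push_cast
  congr 1
  ring

/-! ### increments of the levels -/

theorem oc_add (S r : ℕ) : ∀ x : ℤ, oc (S + r) x = oc S x + oc r (T^[S] x) := by
  induction S with
  | zero => intro x; simp [oc]
  | succ n ih =>
    intro x
    rw [show n + 1 + r = (n + r) + 1 by ring]
    rw [Pool.Agent.Q74.AR.oc_succ, Pool.Agent.Q74.AR.oc_succ, ih, Function.iterate_succ_apply]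
    ring

theorem EE_inc (S r : ℕ) (ψ : ℕ → ℝ) : EE (S + r) (fun x => ψ (oc r (T^[S] x))) = bE r ψ := by
  have hp : Pe (S + r) (fun x => ψ (oc r (T^[S] x))) := by
    intro x j
    obtain ⟨c, hc⟩ := T_shift S x
    have e1 : x + 2 ^ (S + r) * j = x + 2 ^ S * (2 ^ r * j) := by ring
    simp only
    rw [e1, hc]
    have e2 : (3 : ℤ) ^ c * (2 ^ r * j) = 2 ^ r * (3 ^ c * j) := by ring
    rw [e2, oc_per]
  have h := EE_cond (N := S + r) (s := S) (by omega) (Pe_const S 1) hp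
  simp only [one_mul] at h
  rw [h, Nat.add_sub_cancel_left]
  have h2 : ∀ x : ℤ, (∑ l ∈ range (2 ^ r), ψ (oc r (T^[S] (x + 2 ^ S * (l : ℤ))))) / 2 ^ r = bE r ψ := by
    intro x
    obtain ⟨c, hc⟩ := T_shift S x
    have e : ∀ l : ℕ, ψ (oc r (T^[S] (x + 2 ^ S * (l : ℤ)))) = (fun y => ψ (oc r y)) (3 ^ c * l + T^[S] x) := by
      intro l
      rw [hc]
      simp only
      rw [add_comm]
    simp only [e]
    have h3 := per_sum (2 ^ r) (by positivity) (fun y => ψ (oc r y)) (fun x j => by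
      have e : ((2 ^ r : ℕ) : ℤ) = 2 ^ r := by push_cast; rfl
      simp only [e, oc_per]) (3 ^ c) (cop2 r _ (three_odd c)) (T^[S] x)
    rw [h3, sum_oc]
    field_simp
  simp only [h2]
  rw [EE_const]

theorem Lv_inc (a : Fin k → ℕ) (b : Fin k → ℤ) (S r : ℕ) (n : ℤ) (i : Fin k) :
    Lv a b (S + r) n i = Lv a b S n i + oc r (T^[S] (yy a b i n)) := by
  unfold Lv
  rw [oc_add]
  push_cast
  ring

theorem EE_dist (a : Fin k → ℕ) (b : Fin k → ℤ) (S r r' : ℕ) (h : |(r : ℝ) / 2 - r'| ≤ 1 / 2) :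
    EE (S + r) (fun n => ∑ i, |(Lv a b (S + r) n i : ℝ) - (Lv a b S n i + r' : ℤ)|) ≤ k * √((r : ℝ) + 1) := by
  rw [EE_sum]
  refine (sum_le_card_nsmul _ _ (√((r : ℝ) + 1)) ?_).trans (by rw [card_univ, Fintype.card_fin, nsmul_eq_mul])
  intro i _
  refine le_trans (le_of_eq ?_) (bE_dist r r' h)
  rw [← EE_inc S r]
  have hp : Pe (S + r) (fun x => |((oc r (T^[S] x) : ℕ) : ℝ) - r'|) := by
    intro x j
    obtain ⟨c, hc⟩ := T_shift S x
    have e1 : x + 2 ^ (S + r) * j = x + 2 ^ S * (2 ^ r * j) := by ring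
    simp only
    rw [e1, hc]
    have e2 : (3 : ℤ) ^ c * (2 ^ r * j) = 2 ^ r * (3 ^ c * j) := by ring
    rw [e2, oc_per]
  rw [← EE_yy hp a b i]
  congr 1
  funext n
  rw [Lv_inc]
  push_cast
  congr 1
  ring

end Pool.Agent.Q74.KP
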