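import Pool.Agent.Q74.KP.Lim2
import Pool.Agent.Q74.AR.Td

/-! # Project KP: explicit formulas for three and four walkers -/

set_option autoImplicit false

namespace Pool.Agent.Q74.KP

open Finset
open Pool.Agent.Q158.Pair (q q_zero_right q_nonneg q_le_one q_succ)
open Pool.Agent.Q74.AR (lim lim_erf Phi lim_nonneg lim_le_one)

variable {k : ℕ}

/-- two walkers at the distance `d` do not meet -/
noncomputable def pf (t : ℕ) (d : ℤ) : ℝ := q (2 * t) (2 * d.toNat)

theorem pf_zero (t : ℕ) : pf t 0 = 0 := by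
  unfold pf
  rw [Int.toNat_zero, mul_zero, q_zero_right]

theorem pf_pos {d : ℤ} (hd : 0 < d) : pf 0 d = 1 := by
  unfold pf
  have : d.toNat ≠ 0 := by omega
  simp [q, this]

theorem pf_succ (t : ℕ) {d : ℤ} (hd : 0 < d) : pf (t + 1) d = (pf t (d + 1) + 2 * pf t d + pf t (d - 1)) / 4 := by
  obtain ⟨e, rfl⟩ : ∃ e : ℕ, d = (e : ℤ) + 1 := ⟨(d - 1).toNat, by omega⟩
  unfold pf
  have e1 : ((e : ℤ) + 1 + 1).toNat = e + 1 + 1 := by omega
  have e2 : ((e : ℤ) + 1).toNat = e + 1 := by omega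
  have e3 : ((e : ℤ) + 1 - 1).toNat = e := by omega
  rw [e1, e2, e3, q_double t (e + 1) (by omega), Nat.add_sub_cancel]

theorem NG_unique (H : ℕ → (Fin k → ℤ) → ℝ)
    (h0 : ∀ t a, Monotone a → ¬ Function.Injective a → H t a = 0)
    (h1 : ∀ a, StrictMono a → H 0 a = 1)
    (h2 : ∀ t a, StrictMono a → H (t + 1) a = (∑ A : Finset (Fin k), H t (sh a A)) / 2 ^ k)
    (t : ℕ) : ∀ a, Monotone a → NG (fun _ => 1) t a = H t a := by
  induction t with
  | zero =>
    intro a ha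
    by_cases h : Function.Injective a
    · rw [NG_zero h, h1 a (ha.strictMono_of_injective h)]
    · rw [NG_not h, h0 0 a ha h]
  | succ n ih =>
    intro a ha
    by_cases h : Function.Injective a
    · rw [NG_succ h, h2 n a (ha.strictMono_of_injective h)]
      congr 1
      apply sum_congr rfl
      intro A _
      exact ih _ (sh_mono (ha.strictMono_of_injective h) A)
    · rw [NG_not h, h0 (n + 1) a ha h]

theorem NG_three (t : ℕ) (a : Fin 3 → ℤ) (ha : Monotone a) : NG (fun _ => 1) t a =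
    pf t (a 1 - a 0) + pf t (a 2 - a 1) - pf t (a 2 - a 0) := by
  refine NG_unique (fun t a => pf t (a 1 - a 0) + pf t (a 2 - a 1) - pf t (a 2 - a 0)) ?_ ?_ ?_ t a ha
  · intro t a ha hi
    rw [Function.not_injective_iff] at hi
    obtain ⟨i, j, hij, hne⟩ := hi
    have h01 : a 0 ≤ a 1 := ha (by decide)
    have h12 : a 1 ≤ a 2 := ha (by decide)
    have h : a 0 = a 1 ∨ a 1 = a 2 := by
      fin_cases i <;> fin_cases j <;> simp at hij hne <;> omega
    rcases h with h | h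
    · simp only [h, sub_self, pf_zero]; ring
    · simp only [h, sub_self, pf_zero]; ring
  · intro a ha
    have h01 : a 0 < a 1 := ha (by decide)
    have h12 : a 1 < a 2 := ha (by decide)
    rw [pf_pos (by omega), pf_pos (by omega), pf_pos (by omega)]
    norm_num
  · intro t a ha
    have h01 : a 0 < a 1 := ha (by decide)
    have h12 : a 1 < a 2 := ha (by decide)
    rw [sum_sub_distrib, sum_add_distrib, sub_div, add_div, avg_pair (by decide) (pf t) a,
      avg_pair (by decide) (pf t) a, avg_pair (by decide) (pf t) a, pf_succ t (by omega), pf_succ t (by omega),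
      pf_succ t (by omega)]

theorem avg_four (i j l m : Fin 4) (h : [i, j, l, m].Nodup) (g f : ℤ → ℝ) (a : Fin 4 → ℤ) :
    (∑ A : Finset (Fin 4), g (sh a A j - sh a A i) * f (sh a A m - sh a A l)) / 2 ^ 4 =
      ((g (a j - a i + 1) + 2 * g (a j - a i) + g (a j - a i - 1)) / 4) *
      ((f (a m - a l + 1) + 2 * f (a m - a l) + f (a m - a l - 1)) / 4) := by
  rw [← act_PP (fun z => g (z j - z i) * f (z m - z l))]
  simp only [List.nodup_cons, List.mem_cons, List.not_mem_nil, or_false, not_or, List.nodup_nil, and_true,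
    not_false_eq_true] at h
  obtain ⟨⟨hij, hil, him⟩, ⟨hjl, hjm⟩, hlm⟩ := h
  have e : PP 4 = Po i * (Po j * (Po l * (Po m * ∏ x ∈ (((univ.erase i).erase j).erase l).erase m, Po x))) := by
    unfold PP
    rw [mul_prod_erase _ _ (by simp [Ne.symm hlm, Ne.symm hjm, Ne.symm him]),
      mul_prod_erase _ _ (by simp [Ne.symm hjl, Ne.symm hil]),
      mul_prod_erase _ _ (by simp [Ne.symm hij]), mul_prod_erase _ _ (mem_univ i)]
  rw [e, act_mul, act_mul, act_mul, act_mul, act_prodP_id]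
  · simp only [act_P, Pi.add_apply, Pi.single_eq_same, Pi.single_eq_of_ne hij, Pi.single_eq_of_ne (Ne.symm hij),
      Pi.single_eq_of_ne hil, Pi.single_eq_of_ne (Ne.symm hil), Pi.single_eq_of_ne him,
      Pi.single_eq_of_ne (Ne.symm him), Pi.single_eq_of_ne hjl, Pi.single_eq_of_ne (Ne.symm hjl),
      Pi.single_eq_of_ne hjm, Pi.single_eq_of_ne (Ne.symm hjm), Pi.single_eq_of_ne hlm,
      Pi.single_eq_of_ne (Ne.symm hlm), add_zero]
    have e1 : a j + 1 - a i = a j - a i + 1 := by ring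
    have e2 : a j - (a i + 1) = a j - a i - 1 := by ring
    have e3 : a j + 1 - (a i + 1) = a j - a i := by ring
    have e4 : a m + 1 - a l = a m - a l + 1 := by ring
    have e5 : a m - (a l + 1) = a m - a l - 1 := by ring
    have e6 : a m + 1 - (a l + 1) = a m - a l := by ring
    rw [e1, e2, e3, e4, e5, e6]
    ring
  · intro x hx b
    simp only [mem_erase] at hx
    simp [hx.1.symm, hx.2.1.symm, hx.2.2.1.symm, hx.2.2.2.1.symm]

theorem NG_four (t : ℕ) (a : Fin 4 → ℤ) (ha : Monotone a) : NG (fun _ => 1) t a =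
    pf t (a 1 - a 0) * pf t (a 3 - a 2) - pf t (a 2 - a 0) * pf t (a 3 - a 1) +
      pf t (a 3 - a 0) * pf t (a 2 - a 1) := by
  refine NG_unique (fun t a => pf t (a 1 - a 0) * pf t (a 3 - a 2) - pf t (a 2 - a 0) * pf t (a 3 - a 1) +
      pf t (a 3 - a 0) * pf t (a 2 - a 1)) ?_ ?_ ?_ t a ha
  · intro t a ha hi
    rw [Function.not_injective_iff] at hi
    obtain ⟨i, j, hij, hne⟩ := hi
    have h01 : a 0 ≤ a 1 := ha (by decide)
    have h12 : a 1 ≤ a 2 := ha (by decide)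
    have h23 : a 2 ≤ a 3 := ha (by decide)
    have h : a 0 = a 1 ∨ a 1 = a 2 ∨ a 2 = a 3 := by
      fin_cases i <;> fin_cases j <;> simp at hij hne <;> omega
    rcases h with h | h | h
    · simp only [h, sub_self, pf_zero]; ring
    · simp only [h, sub_self, pf_zero]; ring
    · simp only [h, sub_self, pf_zero]; ring
  · intro a ha
    have h01 : a 0 < a 1 := ha (by decide)
    have h12 : a 1 < a 2 := ha (by decide)
    have h23 : a 2 < a 3 := ha (by decide)
    rw [pf_pos (by omega), pf_pos (by omega), pf_pos (by omega), pf_pos (by omega), pf_pos (by omega),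
      pf_pos (by omega)]
    norm_num
  · intro t a ha
    have h01 : a 0 < a 1 := ha (by decide)
    have h12 : a 1 < a 2 := ha (by decide)
    have h23 : a 2 < a 3 := ha (by decide)
    rw [sum_add_distrib, sum_sub_distrib, add_div, sub_div, avg_four 0 1 2 3 (by decide) (pf t) (pf t) a,
      avg_four 0 2 1 3 (by decide) (pf t) (pf t) a, avg_four 0 3 1 2 (by decide) (pf t) (pf t) a,
      pf_succ t (by omega), pf_succ t (by omega), pf_succ t (by omega), pf_succ t (by omega),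
      pf_succ t (by omega), pf_succ t (by omega)]

/-- the error function -/
noncomputable def Erf (x : ℝ) : ℝ := 2 / √Real.pi * ∫ y in (0 : ℝ)..x, Real.exp (-y ^ 2)

theorem pf_lim {ε : ℝ} (hε : 0 < ε) : ∃ t₀ : ℕ, ∀ t : ℕ, t₀ ≤ t → ∀ d : ℤ, 0 ≤ d →
    |pf t d - Erf (d / √t)| ≤ ε ∧ |pf t d| ≤ 1 ∧ |Erf (d / √t)| ≤ 1 := by
  obtain ⟨v₀, hv₀⟩ := Pool.Agent.Q296.AR.q_job ε hε
  refine ⟨v₀, fun t ht d hd => ?_⟩
  obtain ⟨e, rfl⟩ : ∃ e : ℕ, d = (e : ℤ) := ⟨d.toNat, by omega⟩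
  have h1 := hv₀ (2 * t) (by omega) (2 * e)
  have e1 : (((2 * e : ℕ) : ℝ) / √((2 * t : ℕ) : ℝ)) = e / √((t : ℝ) / 2) := by
    have e1 : ((2 * t : ℕ) : ℝ) = 2 ^ 2 * (t / 2) := by push_cast; ring
    rw [e1, Real.sqrt_mul (by norm_num), Real.sqrt_sq (by norm_num)]
    push_cast
    rcases eq_or_ne (√((t : ℝ) / 2)) 0 with h0 | h0
    · rw [h0]; simp
    · field_simp
  rw [e1] at h1
  have e2 : 2 * Phi (e / √((t : ℝ) / 2)) - 1 = Erf ((e : ℤ) / √t) := by
    have := lim_erf t e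
    unfold lim at this
    rw [this]
    rfl
  have h2 : Erf ((e : ℤ) / √t) = lim t e := by rw [← e2]; rfl
  have e3 : pf t e = q (2 * t) (2 * e) := by unfold pf; rw [Int.toNat_natCast]
  rw [e2] at h1
  rw [e3]
  refine ⟨h1, ?_, ?_⟩
  · rw [abs_of_nonneg (q_nonneg _ _)]
    exact q_le_one _ _
  · rw [h2, abs_of_nonneg (lim_nonneg _ _)]
    exact lim_le_one _ _

theorem mul_close {x y X Y ε : ℝ} (h1 : |x - X| ≤ ε) (h2 : |y - Y| ≤ ε) (hx : |x| ≤ 1) (hY : |Y| ≤ 1) :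
    |x * y - X * Y| ≤ 2 * ε := by
  have e : x * y - X * Y = x * (y - Y) + (x - X) * Y := by ring
  rw [e]
  refine (abs_add_le _ _).trans ?_
  rw [abs_mul, abs_mul]
  have i1 := abs_nonneg (y - Y)
  have i2 := abs_nonneg (x - X)
  nlinarith [abs_nonneg x, abs_nonneg Y]

theorem explicit {ε : ℝ} (hε : 0 < ε) : ∃ t₀ : ℕ, ∀ t : ℕ, t₀ ≤ t →
    (∀ a : Fin 3 → ℤ, Monotone a → |NG (fun _ => 1) t a - (Erf ((a 1 - a 0 : ℤ) / √t) +
      Erf ((a 2 - a 1 : ℤ) / √t) - Erf ((a 2 - a 0 : ℤ) / √t))| ≤ ε) ∧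
    (∀ a : Fin 4 → ℤ, Monotone a → |NG (fun _ => 1) t a -
      (Erf ((a 1 - a 0 : ℤ) / √t) * Erf ((a 3 - a 2 : ℤ) / √t) -
      Erf ((a 2 - a 0 : ℤ) / √t) * Erf ((a 3 - a 1 : ℤ) / √t) +
      Erf ((a 3 - a 0 : ℤ) / √t) * Erf ((a 2 - a 1 : ℤ) / √t))| ≤ ε) := by
  obtain ⟨t₀, ht₀⟩ := pf_lim (by positivity : 0 < ε / 6)
  refine ⟨t₀, fun t ht => ⟨fun a ha => ?_, fun a ha => ?_⟩⟩
  · have h01 : a 0 ≤ a 1 := ha (by decide)
    have h12 : a 1 ≤ a 2 := ha (by decide)
    rw [NG_three t a ha]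
    have i1 := abs_le.1 (ht₀ t ht (a 1 - a 0) (by omega)).1
    have i2 := abs_le.1 (ht₀ t ht (a 2 - a 1) (by omega)).1
    have i3 := abs_le.1 (ht₀ t ht (a 2 - a 0) (by omega)).1
    rw [abs_le]
    constructor <;> linarith [i1.1, i1.2, i2.1, i2.2, i3.1, i3.2]
  · have h01 : a 0 ≤ a 1 := ha (by decide)
    have h12 : a 1 ≤ a 2 := ha (by decide)
    have h23 : a 2 ≤ a 3 := ha (by decide)
    rw [NG_four t a ha]
    obtain ⟨i1, j1, l1⟩ := ht₀ t ht (a 1 - a 0) (by omega)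
    obtain ⟨i2, j2, l2⟩ := ht₀ t ht (a 3 - a 2) (by omega)
    obtain ⟨i3, j3, l3⟩ := ht₀ t ht (a 2 - a 0) (by omega)
    obtain ⟨i4, j4, l4⟩ := ht₀ t ht (a 3 - a 1) (by omega)
    obtain ⟨i5, j5, l5⟩ := ht₀ t ht (a 3 - a 0) (by omega)
    obtain ⟨i6, j6, l6⟩ := ht₀ t ht (a 2 - a 1) (by omega)
    have m1 := abs_le.1 (mul_close i1 i2 j1 l2)
    have m2 := abs_le.1 (mul_close i3 i4 j3 l4)
    have m3 := abs_le.1 (mul_close i5 i6 j5 l6)
    rw [abs_le]
    constructor <;> linarith [m1.1, m1.2, m2.1, m2.2, m3.1, m3.2]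

end Pool.Agent.Q74.KP
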