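import Pool.Agent.Q74.KP.Fin

/-! # Project KP: the limit theorem for `k` trajectories, in intervals -/

set_option autoImplicit false

namespace Pool.Agent.Q74.KP

open Finset
open Pool.Agent.Q158.Pair (T nc nc_per nc_nonneg sum_nc Co Co_meet surv)
open Pool.Agent.Q74.AR (oc ps qq count_per_u be surv_main qq_main Td exists_inv ocd)

variable {k : ℕ}

theorem Vd_perm (d : ℤ) (a : Fin k → ℕ) (b : Fin k → ℤ) (π : Equiv.Perm (Fin k)) (t : ℕ) (X : ℤ) :
    Vd d (a ∘ π) (b ∘ π) t X = Vd d a b t X ∘ π := rfl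

theorem Dn_perm (d : ℤ) (a : Fin k → ℕ) (b : Fin k → ℤ) (π : Equiv.Perm (Fin k)) (t : ℕ) (X : ℤ) :
    Dn d (a ∘ π) (b ∘ π) t X = Dn d a b t X := by
  unfold Dn
  rw [Vd_perm]
  congr 1
  apply propext
  exact Equiv.injective_comp π (Vd d a b t X)

theorem unsorted (k : ℕ) {Λ ε : ℝ} (hΛ : 0 ≤ Λ) (hε : 0 < ε) :
    ∃ ρ : ℝ, 0 < ρ ∧ ∃ t₀ K : ℕ, ∀ t : ℕ, t₀ ≤ t → ∀ (a : Fin k → ℕ) (b : Fin k → ℤ),
      (∀ i j : Fin k, ((a j : ℝ) - a i) * Real.log t ≤ ρ * t) →
      (∀ i j : Fin k, a i ≤ a j → |(b j : ℝ) - 3 ^ (a j - a i) * b i| ≤ 3 ^ (a j - a i) * Real.exp (ρ * t)) →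
      ∀ d : ℤ, d % 2 = 1 → ∀ (u s : ℤ), u % 2 = 1 → ∀ (M : ℤ) (L : ℕ), K * 2 ^ t ≤ L →
      ∀ g : (Fin k → ℤ) → ℝ, (∀ z, |g z| ≤ 1) →
      (∀ z w : Fin k → ℤ, |g z - g w| ≤ Λ / √t * ∑ i, |(z i : ℝ) - w i|) →
      |∑ x ∈ Ico M (M + L), Dn d a b t (u * x + s) * g (fun i => (a i : ℤ) + ocd d t (Yd d a b i (u * x + s))) -
        NG g t (fun i => (a i : ℤ)) * L| ≤ ε * L := by
  obtain ⟨ρ, hρ, t₀, K, h⟩ := sorted k hΛ hε
  refine ⟨ρ, hρ, t₀, K, fun t ht a b hsp hb d hd u s hu M L hL g hg1 hgL => ?_⟩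
  set π := Tuple.sort a with hπ
  have hmono : Monotone (a ∘ π) := Tuple.monotone_sort a
  have h1 := h t ht (a ∘ π) (b ∘ π) hmono (fun i j hij => by
      have h2 : (a ∘ π) i ≤ (a ∘ π) j := hmono hij.le
      rw [Nat.cast_sub h2]
      exact hsp (π i) (π j)) (fun i j hij => by
      have h2 : (a ∘ π) i ≤ (a ∘ π) j := hmono hij.le
      have h3 := hb (π i) (π j) h2
      push_cast
      exact h3) d hd u s hu M L hL (fun z => g (z ∘ π.symm)) (fun z => hg1 _) (fun z w => by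
      refine (hgL (z ∘ π.symm) (w ∘ π.symm)).trans (le_of_eq ?_)
      congr 1
      exact Equiv.sum_comp π.symm (fun i => |(z i : ℝ) - w i|))
  have h4 : ∀ z : Fin k → ℤ, (z ∘ π) ∘ π.symm = z := by
    intro z
    funext i
    simp
  have h6 : ∀ X : ℤ, (fun i => ((a ∘ π) i : ℤ) + ocd d t (Yd d (a ∘ π) (b ∘ π) i X)) =
      (fun i => (a i : ℤ) + ocd d t (Yd d a b i X)) ∘ π := fun X => rfl
  simp only [Dn_perm, h6, h4] at h1
  have h5 : (fun i => (((a ∘ π) i : ℕ) : ℤ)) = (fun i => (a i : ℤ)) ∘ π := rfl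
  rw [h5, NG_perm] at h1
  simp only [h4] at h1
  exact h1

/-- no crossing -/
theorem no_cross {ε : ℝ} (hε : 0 < ε) :
    ∃ ρ : ℝ, 0 < ρ ∧ ∃ t₀ K : ℕ, ∀ t : ℕ, t₀ ≤ t → ∀ (a : Fin 3 → ℕ) (b : Fin 3 → ℤ), Monotone a →
      (∀ i j : Fin 3, i < j → |((b j - 3 ^ (a j - a i) * b i : ℤ) : ℝ)| ≤ 3 ^ (a j - a i) * Real.exp (ρ * t)) →
      ∀ d : ℤ, d % 2 = 1 → ∀ (u s : ℤ), u % 2 = 1 → ∀ (M : ℤ) (L : ℕ), K * 2 ^ t ≤ L →
      ((({x : ℤ | M ≤ x ∧ x < M + L ∧ Vd d a b t (u * x + s) 0 = Vd d a b t (u * x + s) 2 ∧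
        Vd d a b t (u * x + s) 1 ≠ Vd d a b t (u * x + s) 0}.ncard : ℕ) : ℝ)) ≤ ε * L := by
  obtain ⟨ρ, hρ, t₀, K, hexc⟩ := exc_small 3 hε
  refine ⟨ρ, hρ, t₀, K, fun t ht a b ha hb d hd u s hu M L hL => ?_⟩
  have h0 := hexc t ht a b hb L hL
  obtain ⟨w, κ, hw2, hw⟩ := exists_inv hd t
  classical
  rw [Pool.Agent.Q158.Pair.ncard_eq (fun x : ℤ => Vd d a b t (u * x + s) 0 = Vd d a b t (u * x + s) 2 ∧
        Vd d a b t (u * x + s) 1 ≠ Vd d a b t (u * x + s) 0)]
  have hpt : ∀ X : ℤ, (if Vd d a b t X 0 = Vd d a b t X 2 ∧ Vd d a b t X 1 ≠ Vd d a b t X 0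
      then (1 : ℝ) else 0) ≤ ∑ p ∈ (univ : Finset (Fin 3 × Fin 3)).filter (fun p => p.1 < p.2),
      ((nc t (zz a b p.1 p.2) (yy a b p.1 (w * X)) - lv t (zz a b p.1 p.2) (yy a b p.1 (w * X))) +
        ai d w a b t p X) := by
    intro X
    set n := w * X with hn
    have hnn : ∀ p ∈ (univ : Finset (Fin 3 × Fin 3)).filter (fun p => p.1 < p.2),
        0 ≤ (nc t (zz a b p.1 p.2) (yy a b p.1 n) - lv t (zz a b p.1 p.2) (yy a b p.1 n)) +
          ai d w a b t p X := by
      intro p _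
      have h1 := lv_le_nc t (zz a b p.1 p.2) (yy a b p.1 n)
      have h2 := ai_nonneg d w a b t p X
      linarith
    split_ifs with hc
    swap
    · exact sum_nonneg hnn
    obtain ⟨hc1, hc2⟩ := hc
    have key : ∀ i j : Fin 3, i < j → Vd d a b t X i ≠ Vd d a b t X j →
        lv t (zz a b i j) (yy a b i n) = 0 → (1 : ℝ) ≤
        ∑ p ∈ (univ : Finset (Fin 3 × Fin 3)).filter (fun p => p.1 < p.2),
      ((nc t (zz a b p.1 p.2) (yy a b p.1 n) - lv t (zz a b p.1 p.2) (yy a b p.1 n)) + ai d w a b t p X) := by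
      intro i j hij hne h0
      refine le_trans ?_ (single_le_sum hnn (show (i, j) ∈ _ by simp [hij]))
      simp only
      rw [h0, sub_zero]
      have h4 : nc t (zz a b i j) (yy a b i n) = 1 := by
        unfold nc
        rw [if_neg]
        intro h5
        exact hne (V_Co hd hw b (ha hij.le) h5)
      rw [h4]
      have := ai_nonneg d w a b t (i, j) X
      linarith
    by_cases h01 : lv t (zz a b 0 1) (yy a b 0 n) = 0
    · exact key 0 1 (by decide) (Ne.symm hc2) h01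
    by_cases h12 : lv t (zz a b 1 2) (yy a b 1 n) = 0
    · exact key 1 2 (by decide) (by rw [← hc1]; exact hc2) h12
    by_cases h02 : lv t (zz a b 0 2) (yy a b 0 n) = 0
    · -- impossible: the levels are increasing
      exfalso
      have g01 : ∀ r ≤ t, (ps r (zz a b 0 1) (yy a b 0 n)).1 ≠ 0 := by
        by_contra h
        unfold lv at h01
        rw [if_neg h] at h01
        exact h01 rfl
      have g12 : ∀ r ≤ t, (ps r (zz a b 1 2) (yy a b 1 n)).1 ≠ 0 := by
        by_contra h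
        unfold lv at h12
        rw [if_neg h] at h12
        exact h12 rfl
      have hinc : ∀ r ≤ t, Lv a b r n 0 < Lv a b r n 1 ∧ Lv a b r n 1 < Lv a b r n 2 := by
        have n01 : ∀ r ≤ t, Lv a b r n 0 ≠ Lv a b r n 1 := by
          intro r hr h3
          apply g01 r hr
          have h4 := ps_lev b (ha (by decide : (0 : Fin 3) ≤ 1)) r n
          rw [h3, sub_self, abs_zero] at h4
          exact_mod_cast h4
        have n12 : ∀ r ≤ t, Lv a b r n 1 ≠ Lv a b r n 2 := by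
          intro r hr h3
          apply g12 r hr
          have h4 := ps_lev b (ha (by decide : (1 : Fin 3) ≤ 2)) r n
          rw [h3, sub_self, abs_zero] at h4
          exact_mod_cast h4
        intro r
        induction r with
        | zero =>
          intro hr
          have h1 := n01 0 hr
          have h2 := n12 0 hr
          rw [Lv_zero] at h1 h2 ⊢
          have h3 : a 0 ≤ a 1 := ha (by decide)
          have h4 : a 1 ≤ a 2 := ha (by decide)
          simp only at h1 h2 ⊢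
          constructor <;> omega
        | succ r ih =>
          intro hr
          obtain ⟨i1, i2⟩ := ih (by omega)
          have h1 := n01 (r + 1) hr
          have h2 := n12 (r + 1) hr
          rw [Lv_succ] at h1 h2 ⊢
          simp only [sh] at h1 h2 ⊢
          constructor
          · split_ifs at h1 ⊢ <;> omega
          · split_ifs at h2 ⊢ <;> omega
      have h7 : lv t (zz a b 0 2) (yy a b 0 n) = 1 := by
        unfold lv
        rw [if_pos]
        intro r hr h5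
        have h4 := ps_lev b (ha (by decide : (0 : Fin 3) ≤ 2)) r n
        rw [h5] at h4
        obtain ⟨j1, j2⟩ := hinc r hr
        have h6 : |Lv a b r n 2 - Lv a b r n 0| = 0 := by rw [← h4]; rfl
        rw [abs_eq_zero] at h6
        omega
      rw [h7] at h02
      exact one_ne_zero h02
    · refine le_trans ?_ (single_le_sum hnn (show ((0 : Fin 3), (2 : Fin 3)) ∈ _ by simp))
      simp only
      have h1 : ai d w a b t (0, 2) X = 1 := by
        unfold ai
        rw [if_pos]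
        refine ⟨?_, hc1⟩
        intro h2
        rw [Co_ps] at h2
        apply h02
        unfold lv
        rw [if_neg]
        intro h3
        apply h3 t le_rfl
        rw [h2]
      rw [h1]
      have := lv_le_nc t (zz a b 0 2) (yy a b 0 n)
      linarith
  have h1 : (((Ico M (M + L)).filter (fun x : ℤ => Vd d a b t (u * x + s) 0 = Vd d a b t (u * x + s) 2 ∧
        Vd d a b t (u * x + s) 1 ≠ Vd d a b t (u * x + s) 0)).card : ℝ) ≤
      ∑ x ∈ Ico M (M + L), ∑ p ∈ (univ : Finset (Fin 3 × Fin 3)).filter (fun p => p.1 < p.2),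
      ((nc t (zz a b p.1 p.2) (yy a b p.1 (w * (u * x + s))) -
        lv t (zz a b p.1 p.2) (yy a b p.1 (w * (u * x + s)))) + ai d w a b t p (u * x + s)) := by
    rw [card_filter]
    push_cast
    exact sum_le_sum fun x _ => hpt (u * x + s)
  have h2 := pair_count hd hw2 hw b ha u s hu M L
  have h3 : (0 : ℝ) ≤ 2 * 2 ^ t := by positivity
  linarith

end Pool.Agent.Q74.KP
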