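import Pool.Agent.Q74.KP.Lim2

/-! # Project KP: free walkers up to a time `m` and no meetings after it -/

set_option autoImplicit false

namespace Pool.Agent.Q74.KP

open Finset
open Pool.Agent.Q158.Pair (q q_zero_right q_nonneg q_le_one q_succ q_succ_le)
open Pool.Agent.Q74.AR (lim lim_scale lim_nonneg lim_le_one Phi Phi_lip Phi_mono Phi_top Phi_zero bE bE_mono bE_add bE_mul
  bE_const bE_sq bE_zero bE_succ)

variable {k : ℕ}

/-- two walkers at the distance `d` do not meet within `r` steps -/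
noncomputable def pq (r : ℕ) (d : ℤ) : ℝ := q (2 * r) (2 * d.natAbs)

theorem pq_zero (r : ℕ) : pq r 0 = 0 := by
  unfold pq
  rw [Int.natAbs_zero, mul_zero, q_zero_right]

theorem pq_nonneg (r : ℕ) (d : ℤ) : 0 ≤ pq r d := q_nonneg _ _
theorem pq_le_one (r : ℕ) (d : ℤ) : pq r d ≤ 1 := q_le_one _ _

theorem pq_neg (r : ℕ) (d : ℤ) : pq r (-d) = pq r d := by unfold pq; rw [Int.natAbs_neg]

theorem pq_init {d : ℤ} (hd : d ≠ 0) : pq 0 d = 1 := by
  unfold pq
  have : d.natAbs ≠ 0 := by omega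
  simp [q, this]

theorem pq_succ (r : ℕ) {d : ℤ} (hd : d ≠ 0) : pq (r + 1) d = (pq r (d + 1) + 2 * pq r d + pq r (d - 1)) / 4 := by
  have key : ∀ e : ℕ, pq (r + 1) ((e : ℤ) + 1) = (pq r ((e : ℤ) + 1 + 1) + 2 * pq r ((e : ℤ) + 1) + pq r ((e : ℤ) + 1 - 1)) / 4 := by
    intro e
    unfold pq
    have e1 : ((e : ℤ) + 1 + 1).natAbs = e + 1 + 1 := by omega
    have e2 : ((e : ℤ) + 1).natAbs = e + 1 := by omega
    have e3 : ((e : ℤ) + 1 - 1).natAbs = e := by omega
    rw [e1, e2, e3, q_double r (e + 1) (by omega), Nat.add_sub_cancel]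
  rcases lt_or_gt_of_ne hd with h | h
  · obtain ⟨e, rfl⟩ : ∃ e : ℕ, d = -((e : ℤ) + 1) := ⟨(-d - 1).toNat, by omega⟩
    have h1 := key e
    have e1 : -((e : ℤ) + 1) + 1 = -((e : ℤ) + 1 - 1) := by ring
    have e2 : -((e : ℤ) + 1) - 1 = -((e : ℤ) + 1 + 1) := by ring
    rw [e1, e2, pq_neg, pq_neg, pq_neg, pq_neg, h1]
    ring
  · obtain ⟨e, rfl⟩ : ∃ e : ℕ, d = (e : ℤ) + 1 := ⟨(d - 1).toNat, by omega⟩
    exact key e

theorem pq_avg {i j : Fin k} (hij : i ≠ j) (r : ℕ) {a : Fin k → ℤ} (h : a i ≠ a j) :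
    (∑ A : Finset (Fin k), pq r (sh a A j - sh a A i)) / 2 ^ k = pq (r + 1) (a j - a i) := by
  rw [avg_pair hij (pq r) a, pq_succ r (by omega)]

theorem NG_add (g : (Fin k → ℤ) → ℝ) (r j : ℕ) : ∀ a, NG (NG g r) j a = NG g (j + r) a := by
  induction j with
  | zero =>
    intro a
    rw [Nat.zero_add]
    by_cases h : Function.Injective a
    · rw [NG_zero h]
    · rw [NG_not h, NG_not h]
  | succ n ih =>
    intro a
    rw [show n + 1 + r = (n + r) + 1 by ring]
    by_cases h : Function.Injective a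
    · rw [NG_succ h, NG_succ h]
      simp only [ih]
    · rw [NG_not h, NG_not h]

/-- no meeting of all walkers, no meeting of two of them -/
theorem NG_le_pq {i j : Fin k} (hij : i ≠ j) (r : ℕ) : ∀ a : Fin k → ℤ, NG (fun _ => 1) r a ≤ pq r (a j - a i) := by
  induction r with
  | zero =>
    intro a
    by_cases h : Function.Injective a
    · rw [NG_zero h, pq_init]
      intro h2
      exact hij (h (by omega)).symm
    · rw [NG_not h]; exact pq_nonneg _ _
  | succ n ih =>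
    intro a
    by_cases h : Function.Injective a
    · rw [NG_succ h, ← pq_avg hij n (fun h2 => hij (h h2))]
      apply div_le_div_of_nonneg_right _ (by positivity)
      exact sum_le_sum fun A _ => ih _
    · rw [NG_not h]; exact pq_nonneg _ _

/-- killed and free pairs -/
theorem pq_le_act {i j : Fin k} (hij : i ≠ j) (r m : ℕ) : ∀ a : Fin k → ℤ,
    pq (m + r) (a j - a i) ≤ act k (PP k ^ m) (fun z => pq r (z j - z i)) a := by
  induction m with
  | zero => intro a; rw [pow_zero, act_one, Nat.zero_add]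
  | succ n ih =>
    intro a
    rw [pow_succ', act_mul, act_PP, show n + 1 + r = (n + r) + 1 by ring]
    by_cases h : a i = a j
    · rw [h, sub_self, pq_zero]
      exact div_nonneg (sum_nonneg fun A _ => act_nonneg n (fun z => pq_nonneg _ _) _) (by positivity)
    · rw [← pq_avg hij (n + r) h]
      apply div_le_div_of_nonneg_right _ (by positivity)
      exact sum_le_sum fun A _ => ih _

theorem exists_pair {a : Fin k → ℤ} (ha : ¬ Function.Injective a) : ∃ i j : Fin k, i < j ∧ a i = a j := by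
  rw [Function.not_injective_iff] at ha
  obtain ⟨i, j, hij, hne⟩ := ha
  rcases lt_or_gt_of_ne hne with h | h
  · exact ⟨i, j, h, hij⟩
  · exact ⟨j, i, h, hij.symm⟩

/-- a meeting before the time `m` and none after it -/
theorem free_killed (r m : ℕ) : ∀ a : Fin k → ℤ,
    act k (PP k ^ m) (NG (fun _ => 1) r) a - NG (fun _ => 1) (m + r) a ≤
      ∑ p ∈ (univ : Finset (Fin k × Fin k)).filter (fun p => p.1 < p.2),
        (act k (PP k ^ m) (fun z => pq r (z p.2 - z p.1)) a - pq (m + r) (a p.2 - a p.1)) := by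
  have hnn : ∀ (m : ℕ) (a : Fin k → ℤ), ∀ p ∈ (univ : Finset (Fin k × Fin k)).filter (fun p => p.1 < p.2),
      0 ≤ act k (PP k ^ m) (fun z => pq r (z p.2 - z p.1)) a - pq (m + r) (a p.2 - a p.1) := by
    intro m a p hp
    rw [mem_filter] at hp
    have := pq_le_act hp.2.ne r m a
    linarith
  induction m with
  | zero =>
    intro a
    rw [pow_zero, act_one, Nat.zero_add, sub_self]
    have := sum_nonneg (hnn 0 a)
    rw [pow_zero, Nat.zero_add] at this
    exact this
  | succ n ih =>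
    intro a
    by_cases h : Function.Injective a
    · have e1 : act k (PP k ^ (n + 1)) (NG (fun _ => 1) r) a - NG (fun _ => 1) (n + 1 + r) a =
          (∑ A : Finset (Fin k), (act k (PP k ^ n) (NG (fun _ => 1) r) (sh a A) -
            NG (fun _ => 1) (n + r) (sh a A))) / 2 ^ k := by
        rw [pow_succ', act_mul, act_PP, show n + 1 + r = (n + r) + 1 by ring, NG_succ h, sum_sub_distrib, sub_div]
      rw [e1]
      have e2 : ∑ p ∈ (univ : Finset (Fin k × Fin k)).filter (fun p => p.1 < p.2),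
          (act k (PP k ^ (n + 1)) (fun z => pq r (z p.2 - z p.1)) a - pq (n + 1 + r) (a p.2 - a p.1)) =
          (∑ A : Finset (Fin k), ∑ p ∈ (univ : Finset (Fin k × Fin k)).filter (fun p => p.1 < p.2),
          (act k (PP k ^ n) (fun z => pq r (z p.2 - z p.1)) (sh a A) -
            pq (n + r) (sh a A p.2 - sh a A p.1))) / 2 ^ k := by
        rw [sum_comm, sum_div]
        apply sum_congr rfl
        intro p hp
        rw [mem_filter] at hp
        rw [pow_succ', act_mul, act_PP, show n + 1 + r = (n + r) + 1 by ring,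
          ← pq_avg hp.2.ne (n + r) (fun h2 => hp.2.ne (h h2)), sum_sub_distrib, sub_div]
      rw [e2]
      apply div_le_div_of_nonneg_right _ (by positivity)
      exact sum_le_sum fun A _ => ih _
    · obtain ⟨i, j, hij, heq⟩ := exists_pair h
      rw [NG_not h, sub_zero]
      refine le_trans ?_ (single_le_sum (hnn (n + 1) a) (show (i, j) ∈ _ by simp [hij]))
      simp only
      rw [heq, sub_self, pq_zero, sub_zero]
      exact act_mono (n + 1) (fun z => NG_le_pq hij.ne r z) a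

/-- the probability of a meeting -/
theorem NG_ge (r : ℕ) : ∀ a : Fin k → ℤ, 1 - NG (fun _ => 1) r a ≤
    ∑ p ∈ (univ : Finset (Fin k × Fin k)).filter (fun p => p.1 < p.2), (1 - pq r (a p.2 - a p.1)) := by
  have hnn : ∀ (r : ℕ) (a : Fin k → ℤ), ∀ p ∈ (univ : Finset (Fin k × Fin k)).filter (fun p => p.1 < p.2),
      0 ≤ 1 - pq r (a p.2 - a p.1) := by
    intro r a p _
    have := pq_le_one r (a p.2 - a p.1)
    linarith
  have hni : ∀ (r : ℕ) (a : Fin k → ℤ), ¬ Function.Injective a → (1 : ℝ) ≤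
      ∑ p ∈ (univ : Finset (Fin k × Fin k)).filter (fun p => p.1 < p.2), (1 - pq r (a p.2 - a p.1)) := by
    intro r a ha
    obtain ⟨i, j, hij, heq⟩ := exists_pair ha
    have h1 := single_le_sum (hnn r a) (show (i, j) ∈ _ by simp [hij])
    simp only at h1
    rw [heq, sub_self, pq_zero] at h1
    linarith
  induction r with
  | zero =>
    intro a
    by_cases h : Function.Injective a
    · rw [NG_zero h, sub_self]
      exact sum_nonneg (hnn 0 a)
    · rw [NG_not h, sub_zero]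
      exact hni 0 a h
  | succ n ih =>
    intro a
    by_cases h : Function.Injective a
    · rw [NG_succ h]
      have h1 : 1 - (∑ A : Finset (Fin k), NG (fun _ => 1) n (sh a A)) / 2 ^ k =
          (∑ A : Finset (Fin k), (1 - NG (fun _ => 1) n (sh a A))) / 2 ^ k := by
        rw [sum_sub_distrib, sum_const, nsmul_eq_mul, card_sets]
        field_simp
      rw [h1]
      have h2 : (∑ A : Finset (Fin k), (1 - NG (fun _ => 1) n (sh a A))) / 2 ^ k ≤
          (∑ A : Finset (Fin k), ∑ p ∈ (univ : Finset (Fin k × Fin k)).filter (fun p => p.1 < p.2),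
            (1 - pq n (sh a A p.2 - sh a A p.1))) / 2 ^ k := by
        apply div_le_div_of_nonneg_right _ (by positivity)
        exact sum_le_sum fun A _ => ih _
      refine h2.trans (le_of_eq ?_)
      rw [sum_comm, sum_div]
      apply sum_congr rfl
      intro p hp
      rw [mem_filter] at hp
      rw [← pq_avg hp.2.ne n (fun h2 => hp.2.ne (h h2)), sum_sub_distrib, sum_const, nsmul_eq_mul, card_sets,
        sub_div]
      field_simp
    · rw [NG_not h, sub_zero]
      exact hni (n + 1) a h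

/-! ### two coordinates -/

theorem act_two {i j : Fin k} (hij : i ≠ j) (t : ℕ) (ψ : ℤ → ℝ) (a : Fin k → ℤ) :
    act k (PP k ^ t) (fun z => ψ (z j - z i)) a = bE t (fun x => bE t (fun y => ψ (a j + y - (a i + x)))) := by
  have e : PP k ^ t = Po i ^ t * (Po j ^ t * (∏ l ∈ (univ.erase i).erase j, Po l) ^ t) := by
    unfold PP
    rw [← mul_pow, ← mul_pow, mul_prod_erase _ _ (mem_erase.2 ⟨hij.symm, mem_univ j⟩), mul_prod_erase _ _ (mem_univ i)]
  have h1 : act k (∏ l ∈ (univ.erase i).erase j, Po l) (fun z => ψ (z j - z i)) = fun z => ψ (z j - z i) := by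
    apply act_prodP_id
    intro l hl b
    rw [mem_erase, mem_erase] at hl
    simp [hl.1.symm, hl.2.1.symm]
  have h2 : ∀ t : ℕ, act k ((∏ l ∈ (univ.erase i).erase j, Po l) ^ t) (fun z => ψ (z j - z i)) =
      fun z => ψ (z j - z i) := by
    intro t
    induction t with
    | zero => rw [pow_zero, act_one]
    | succ n ih => rw [pow_succ, act_mul, h1, ih]
  rw [e, act_mul, act_mul, h2, act_Ppow]
  congr 1
  funext x
  rw [act_Ppow]
  congr 1
  funext y
  simp [hij, hij.symm]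

theorem half_near (r : ℕ) : |(r : ℝ) / 2 - (r / 2 : ℕ)| ≤ 1 / 2 := by
  have h1 : 2 * (r / 2) ≤ r := by omega
  have h2 : r ≤ 2 * (r / 2) + 1 := by omega
  have h1' : (2 * (r / 2 : ℕ) : ℝ) ≤ r := by exact_mod_cast h1
  have h2' : (r : ℝ) ≤ 2 * (r / 2 : ℕ) + 1 := by exact_mod_cast h2
  rw [abs_le]
  constructor <;> linarith

theorem bE_diff (t : ℕ) : bE t (fun x => bE t (fun y => |(y : ℝ) - x|)) ≤ 2 * √((t : ℝ) + 1) := by
  have h1 : bE t (fun x => bE t (fun y => |(y : ℝ) - x|)) ≤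
      bE t (fun x => |(x : ℝ) - (t / 2 : ℕ)| + √((t : ℝ) + 1)) := by
    apply bE_mono
    intro x
    have h2 : bE t (fun y => |(y : ℝ) - x|) ≤ bE t (fun y => |(x : ℝ) - (t / 2 : ℕ)| + |(y : ℝ) - (t / 2 : ℕ)|) := by
      apply bE_mono
      intro y
      have := abs_sub_le (y : ℝ) ((t / 2 : ℕ) : ℝ) x
      rw [abs_sub_comm ((t / 2 : ℕ) : ℝ) x] at this
      linarith
    rw [bE_add t (fun _ => |(x : ℝ) - (t / 2 : ℕ)|), bE_const] at h2
    have h3 := bE_dist t (t / 2) (half_near t)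
    linarith
  rw [bE_add t (fun x => |(x : ℝ) - (t / 2 : ℕ)|), bE_const] at h1
  have h3 := bE_dist t (t / 2) (half_near t)
  linarith

theorem lim_lip {r : ℝ} (hr : 0 < r) (m n : ℕ) : lim r m - lim r n ≤ 2 * |(m : ℝ) - n| / √(r / 2) := by
  unfold lim
  have h := Phi_lip (m / √(r / 2)) (n / √(r / 2))
  have hs : 0 < √(r / 2) := Real.sqrt_pos.2 (by linarith)
  rw [← sub_div, abs_div, abs_of_pos hs] at h
  have h2 := le_abs_self (Phi (m / √(r / 2)) - Phi (n / √(r / 2)))
  have h3 : 2 * |(m : ℝ) - n| / √(r / 2) = 2 * (|(m : ℝ) - n| / √(r / 2)) := by ring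
  rw [h3]
  linarith

theorem pq_close {ε : ℝ} (hε : 0 < ε) : ∃ r₀ : ℕ, ∀ r : ℕ, r₀ ≤ r → ∀ d : ℤ, |pq r d - lim r d.natAbs| ≤ ε := by
  obtain ⟨v₀, hv₀⟩ := Pool.Agent.Q296.AR.q_job ε hε
  refine ⟨v₀, fun r hr d => ?_⟩
  have h1 := hv₀ (2 * r) (by omega) (2 * d.natAbs)
  have e : (((2 * d.natAbs : ℕ) : ℝ) / √((2 * r : ℕ) : ℝ)) = d.natAbs / √((r : ℝ) / 2) := by
    have e1 : ((2 * r : ℕ) : ℝ) = 2 ^ 2 * (r / 2) := by push_cast; ring
    rw [e1, Real.sqrt_mul (by norm_num), Real.sqrt_sq (by norm_num)]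
    push_cast
    rcases eq_or_ne (√((r : ℝ) / 2)) 0 with h0 | h0
    · rw [h0]; simp
    · field_simp
  rw [e] at h1
  exact h1

theorem pq_anti {r s : ℕ} (h : r ≤ s) (d : ℤ) : pq s d ≤ pq r d := by
  unfold pq
  have h2 : 2 * r ≤ 2 * s := by omega
  exact antitone_nat_of_succ_le (f := fun n => q n (2 * d.natAbs)) (fun n => q_succ_le n _) h2

/-- the pair: a meeting before `j` and none after it is unlikely -/
theorem pair_cont {ε : ℝ} (hε : 0 < ε) : ∃ κ : ℝ, 0 < κ ∧ ∃ r₀ : ℕ, ∀ j r : ℕ, r₀ ≤ r → (j : ℝ) ≤ κ * r →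
    ∀ (k : ℕ) (i l : Fin k), i ≠ l → ∀ a : Fin k → ℤ,
    act k (PP k ^ j) (fun z => pq r (z l - z i)) a - pq (j + r) (a l - a i) ≤ ε := by
  obtain ⟨r₁, hr₁⟩ := pq_close (show 0 < ε / 8 by positivity)
  obtain ⟨κ₁, hκ₁, hκ₁8, hsc⟩ := lim_scale (show 0 < ε / 8 by positivity)
  obtain ⟨n, hn⟩ := exists_nat_ge (1 / (ε / 24) ^ 2)
  refine ⟨min κ₁ ((ε / 24) ^ 2), by positivity, r₁ + n + 1, fun j r hr hj k i l hil a => ?_⟩
  have hr0 : (0 : ℝ) < r := by
    have : 0 < r := by omega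
    exact_mod_cast this
  have hj1 : (j : ℝ) ≤ κ₁ * r := hj.trans (mul_le_mul_of_nonneg_right (min_le_left _ _) hr0.le)
  have hj2 : (j : ℝ) ≤ (ε / 24) ^ 2 * r := hj.trans (mul_le_mul_of_nonneg_right (min_le_right _ _) hr0.le)
  have hn1 : 1 ≤ (ε / 24) ^ 2 * r := by
    have h1 : 1 / (ε / 24) ^ 2 ≤ (r : ℝ) := hn.trans (by exact_mod_cast (by omega : n ≤ r))
    rw [div_le_iff₀ (by positivity)] at h1
    linarith
  have hsr : 0 < √((r : ℝ) / 2) := Real.sqrt_pos.2 (by linarith)
  rw [act_two hil j (pq r) a]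
  set d := a l - a i with hd
  have h1 : bE j (fun x => bE j (fun y => pq r (a l + y - (a i + x)))) ≤
      bE j (fun x => bE j (fun y => (lim r d.natAbs + ε / 8) + 2 / √((r : ℝ) / 2) * |(y : ℝ) - x|)) := by
    apply bE_mono
    intro x
    apply bE_mono
    intro y
    have h2 := (abs_le.1 (hr₁ r (by omega) (a l + y - (a i + x)))).2
    have h3 := lim_lip hr0 (a l + y - (a i + x)).natAbs d.natAbs
    have h4 : |((a l + y - (a i + x)).natAbs : ℝ) - (d.natAbs : ℝ)| ≤ |(y : ℝ) - x| := by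
      have e1 : ((a l + y - (a i + x)).natAbs : ℝ) = |((a l + y - (a i + x) : ℤ) : ℝ)| := by
        rw [Nat.cast_natAbs, Int.cast_abs]
      have e2 : (d.natAbs : ℝ) = |((d : ℤ) : ℝ)| := by rw [Nat.cast_natAbs, Int.cast_abs]
      rw [e1, e2]
      refine (abs_abs_sub_abs_le_abs_sub _ _).trans (le_of_eq ?_)
      rw [hd]
      push_cast
      congr 1
      ring
    have h5 : 2 * |((a l + y - (a i + x)).natAbs : ℝ) - (d.natAbs : ℝ)| / √((r : ℝ) / 2) ≤
        2 / √((r : ℝ) / 2) * |(y : ℝ) - x| := by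
      rw [mul_div_right_comm]
      exact mul_le_mul_of_nonneg_left h4 (by positivity)
    linarith
  have h2 : bE j (fun x => bE j (fun y => (lim r d.natAbs + ε / 8) + 2 / √((r : ℝ) / 2) * |(y : ℝ) - x|)) =
      (lim r d.natAbs + ε / 8) + 2 / √((r : ℝ) / 2) * bE j (fun x => bE j (fun y => |(y : ℝ) - x|)) := by
    have e1 : ∀ x : ℕ, bE j (fun y => (lim r d.natAbs + ε / 8) + 2 / √((r : ℝ) / 2) * |(y : ℝ) - x|) =
        (lim r d.natAbs + ε / 8) + 2 / √((r : ℝ) / 2) * bE j (fun y => |(y : ℝ) - x|) := by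
      intro x
      rw [bE_add j (fun _ => lim r d.natAbs + ε / 8), bE_const, bE_mul]
    simp only [e1]
    rw [bE_add j (fun _ => lim r d.natAbs + ε / 8), bE_const, bE_mul]
  rw [h2] at h1
  have h3 := bE_diff j
  have h4 : 2 / √((r : ℝ) / 2) * bE j (fun x => bE j (fun y => |(y : ℝ) - x|)) ≤ ε / 2 := by
    have h5 : √((j : ℝ) + 1) ≤ ε / 8 * √((r : ℝ) / 2) := by
      have e1 : ε / 8 * √((r : ℝ) / 2) = √((ε / 8) ^ 2 * (r / 2)) := by
        rw [Real.sqrt_mul (by positivity), Real.sqrt_sq (by positivity)]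
      rw [e1]
      apply Real.sqrt_le_sqrt
      have e2 : (ε / 8) ^ 2 * ((r : ℝ) / 2) = 9 / 2 * ((ε / 24) ^ 2 * r) := by ring
      rw [e2]
      linarith
    calc 2 / √((r : ℝ) / 2) * bE j (fun x => bE j (fun y => |(y : ℝ) - x|)) ≤
        2 / √((r : ℝ) / 2) * (2 * (ε / 8 * √((r : ℝ) / 2))) :=
          mul_le_mul_of_nonneg_left (by linarith) (by positivity)
      _ = ε / 2 := by field_simp; ring
  have h6 := (abs_le.1 (hr₁ (j + r) (by omega) d)).1
  have h7 := (abs_le.1 (hsc ((j : ℝ) + r) ((r : ℝ) / 2) d.natAbs (by positivity) (by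
    rw [abs_le]
    have hj0 : (0 : ℝ) ≤ j := Nat.cast_nonneg _
    constructor <;> nlinarith))).2
  have e4 : (2 * Phi (d.natAbs / √((r : ℝ) / 2)) - 1) = lim r d.natAbs := rfl
  rw [e4] at h7
  push_cast at h6
  linarith

/-- the binomial distribution has small atoms -/
theorem bE_atom (t : ℕ) (v : ℕ) : bE t (fun y => if y = v then 1 else 0) ≤ 2 / √((t : ℝ) + 1) := by
  have h := bE_der_bd t (f := fun m => if m ≤ v then (1 : ℝ) else 0) (K := 1) (fun m => by split_ifs <;> norm_num)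
  rw [mul_one] at h
  have e : bE t (fun m => if m ≤ v then (1 : ℝ) else 0) =
      bE t (fun m => if m + 1 ≤ v then (1 : ℝ) else 0) + bE t (fun y => if y = v then 1 else 0) := by
    rw [← bE_add]
    congr 1
    funext m
    rcases lt_trichotomy m v with h | h | h
    · rw [if_pos h.le, if_pos (by omega), if_neg h.ne]; norm_num
    · rw [if_pos h.le, if_neg (by omega), if_pos h]; norm_num
    · rw [if_neg (by omega), if_neg (by omega), if_neg h.ne']; norm_num
  rw [e, sub_add_cancel_left, abs_neg] at h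
  exact (le_abs_self _).trans h

theorem bE_ball (t R : ℕ) (c : ℤ) : bE t (fun y => if (c + (y : ℤ)).natAbs < R then 1 else 0) ≤
    2 * R * (2 / √((t : ℝ) + 1)) := by
  have h1 : ∀ y : ℕ, (if (c + (y : ℤ)).natAbs < R then (1 : ℝ) else 0) ≤
      ∑ v ∈ range (2 * R), (if y = ((v : ℤ) - R - c).toNat then (1 : ℝ) else 0) := by
    intro y
    split_ifs with h
    · have h2 : ((c + (y : ℤ)) + R).toNat ∈ range (2 * R) := by rw [mem_range]; omega
      refine le_trans ?_ (single_le_sum (fun v _ => by split_ifs <;> norm_num) h2)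
      rw [if_pos (by omega)]
    · exact sum_nonneg fun v _ => by split_ifs <;> norm_num
  refine (bE_mono t _ _ h1).trans ?_
  have h2 : ∀ n : ℕ, bE t (fun y => ∑ v ∈ range n, (if y = ((v : ℤ) - R - c).toNat then (1 : ℝ) else 0)) ≤
      n * (2 / √((t : ℝ) + 1)) := by
    intro n
    induction n with
    | zero => simp [bE_const]
    | succ n ih =>
      simp only [sum_range_succ]
      rw [bE_add t (fun y => ∑ v ∈ range n, (if y = ((v : ℤ) - R - c).toNat then (1 : ℝ) else 0))]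
      have := bE_atom t ((n : ℤ) - R - c).toNat
      push_cast
      linarith
  have h3 := h2 (2 * R)
  push_cast at h3
  exact h3

/-- the pair: after a long free time it does not meet in a short time -/
theorem pair_far {ε : ℝ} (hε : 0 < ε) : ∃ κ : ℝ, 0 < κ ∧ ∃ m₀ : ℕ, ∀ m r : ℕ, m₀ ≤ m → (r : ℝ) ≤ κ * m →
    ∀ (k : ℕ) (i l : Fin k), i ≠ l → ∀ a : Fin k → ℤ,
    act k (PP k ^ m) (fun z => 1 - pq r (z l - z i)) a ≤ ε := by
  obtain ⟨r₁, hr₁⟩ := pq_close (show 0 < ε / 4 by positivity)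
  -- the level beyond which Phi is close to 1
  obtain ⟨A, hA⟩ : ∃ A : ℕ, 1 - ε / 8 ≤ Phi A := by
    have h1 := (Phi_top.eventually (lt_mem_nhds (show 1 - ε / 8 < 1 by linarith)))
    obtain ⟨x, hx⟩ := Filter.eventually_atTop.1 h1
    obtain ⟨A, hA⟩ := exists_nat_ge x
    exact ⟨A, (hx A hA).le⟩
  set κ : ℝ := (ε / (64 * (A + 1))) ^ 2 with hκ
  have hκ0 : 0 < κ := by positivity
  obtain ⟨n, hn⟩ := exists_nat_ge (((r₁ : ℝ) + 2) / κ)
  refine ⟨κ / 2, by positivity, n + 1, fun m r hm hr k i l hil a => ?_⟩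
  have hm0 : (0 : ℝ) < m := by
    have : 0 < m := by omega
    exact_mod_cast this
  have hn1 : (r₁ : ℝ) + 2 ≤ κ * m := by
    have h1 : ((r₁ : ℝ) + 2) / κ ≤ (m : ℝ) := hn.trans (by exact_mod_cast (by omega : n ≤ m))
    rw [div_le_iff₀ hκ0] at h1
    linarith
  -- enlarge `r`
  set R := ⌊κ * m⌋₊ with hR
  have hR1 : (R : ℝ) ≤ κ * m := Nat.floor_le (by positivity)
  have hR2 : κ * m < R + 1 := Nat.lt_floor_add_one _
  have hrR : r ≤ R := by
    have : (r : ℝ) ≤ R := by linarith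
    exact_mod_cast this
  have hr1R : r₁ ≤ R := by
    have : (r₁ : ℝ) ≤ R := by linarith
    exact_mod_cast this
  have hR0 : (0 : ℝ) < R := by linarith [(Nat.cast_nonneg r₁ : (0 : ℝ) ≤ r₁)]
  have hsR : 0 < √((R : ℝ) / 2) := Real.sqrt_pos.2 (by linarith)
  set N := A * (⌊√(R : ℝ)⌋₊ + 1) with hN
  have hNR : (N : ℝ) ≤ A * (√(R : ℝ) + 1) := by
    rw [hN]
    push_cast
    apply mul_le_mul_of_nonneg_left _ (Nat.cast_nonneg _)
    have := Nat.floor_le (Real.sqrt_nonneg (R : ℝ))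
    linarith
  rw [act_two hil m (fun d => 1 - pq r d) a]
  have h1 : bE m (fun x => bE m (fun y => 1 - pq r (a l + y - (a i + x)))) ≤
      bE m (fun _ => ε / 2 + 2 * N * (2 / √((m : ℝ) + 1))) := by
    apply bE_mono
    intro x
    have h2 : bE m (fun y => 1 - pq r (a l + y - (a i + x))) ≤
        bE m (fun y => ε / 2 + (if ((a l - a i - x) + (y : ℤ)).natAbs < N then 1 else 0)) := by
      apply bE_mono
      intro y
      have e1 : a l + y - (a i + x) = (a l - a i - x) + (y : ℤ) := by ring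
      rw [e1]
      set d := (a l - a i - x) + (y : ℤ) with hd
      have h3 := pq_anti hrR d
      have h4 := pq_nonneg r d
      split_ifs with hc
      · linarith
      · push Not at hc
        have h5 := (abs_le.1 (hr₁ R hr1R d)).1
        have h6 : 1 - ε / 4 ≤ lim R d.natAbs := by
          unfold lim
          have h7 : (A : ℝ) ≤ d.natAbs / √((R : ℝ) / 2) := by
            rw [le_div_iff₀ hsR]
            have h8 : √((R : ℝ) / 2) ≤ √(R : ℝ) := Real.sqrt_le_sqrt (by linarith)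
            have h9 : √(R : ℝ) ≤ ⌊√(R : ℝ)⌋₊ + 1 := (Nat.lt_floor_add_one _).le
            have h10 : (A : ℝ) * (⌊√(R : ℝ)⌋₊ + 1) ≤ d.natAbs := by
              have : ((A * (⌊√(R : ℝ)⌋₊ + 1) : ℕ) : ℝ) ≤ d.natAbs := by exact_mod_cast hc
              push_cast at this
              exact this
            have h11 : (A : ℝ) * √((R : ℝ) / 2) ≤ A * (⌊√(R : ℝ)⌋₊ + 1) :=
              mul_le_mul_of_nonneg_left (h8.trans h9) (Nat.cast_nonneg _)
            linarith
          have := Phi_mono h7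
          linarith
        linarith
    rw [bE_add m (fun _ => ε / 2), bE_const] at h2
    have h3 := bE_ball m N (a l - a i - x)
    linarith
  rw [bE_const] at h1
  refine h1.trans ?_
  -- the small ball
  have hsm : 0 < √((m : ℝ) + 1) := Real.sqrt_pos.2 (by positivity)
  have h12 : √(R : ℝ) + 1 ≤ 2 * (ε / (64 * (A + 1))) * √((m : ℝ) + 1) := by
    have e1 : √(R : ℝ) ≤ (ε / (64 * (A + 1))) * √((m : ℝ) + 1) := by
      rw [← Real.sqrt_sq (by positivity : 0 ≤ ε / (64 * ((A : ℝ) + 1))), ← Real.sqrt_mul (by positivity)]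
      apply Real.sqrt_le_sqrt
      rw [← hκ]
      nlinarith
    have e2 : (1 : ℝ) ≤ (ε / (64 * (A + 1))) * √((m : ℝ) + 1) := by
      have e3 : (1 : ℝ) ≤ κ * ((m : ℝ) + 1) := by
        have : (0 : ℝ) ≤ r₁ := Nat.cast_nonneg _
        nlinarith
      have e4 : (1 : ℝ) ≤ √(κ * ((m : ℝ) + 1)) := Real.one_le_sqrt.2 e3
      refine e4.trans (le_of_eq ?_)
      rw [hκ, Real.sqrt_mul (by positivity), Real.sqrt_sq (by positivity)]
    linarith
  have h13 : (N : ℝ) ≤ A * (2 * (ε / (64 * (A + 1))) * √((m : ℝ) + 1)) :=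
    hNR.trans (mul_le_mul_of_nonneg_left h12 (Nat.cast_nonneg _))
  have h14 : 2 * (N : ℝ) * (2 / √((m : ℝ) + 1)) ≤ 2 * (A * (2 * (ε / (64 * (A + 1))) * √((m : ℝ) + 1))) * (2 / √((m : ℝ) + 1)) := by
    apply mul_le_mul_of_nonneg_right _ (by positivity)
    linarith
  have h15 : 2 * (A * (2 * (ε / (64 * (A + 1))) * √((m : ℝ) + 1))) * (2 / √((m : ℝ) + 1)) = ε / 8 * (A / (A + 1)) := by
    field_simp
    ring
  have h16 : (A : ℝ) / (A + 1) ≤ 1 := by
    rw [div_le_one (by positivity)]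
    linarith
  rw [h15] at h14
  have h17 : ε / 8 * ((A : ℝ) / (A + 1)) ≤ ε / 8 * 1 := mul_le_mul_of_nonneg_left h16 (by positivity)
  linarith

end Pool.Agent.Q74.KP
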