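import Pool.Agent.Q74.KP.Core

/-! # Project KP: the levels of `k` trajectories and independent walkers, asymptotically -/

set_option autoImplicit false

namespace Pool.Agent.Q74.KP

open Finset
open Pool.Agent.Q158.Pair (T av)
open Pool.Agent.Q74.AR (oc ps sr sg ac)

variable {k : ℕ}

theorem core (k : ℕ) {K₀ κ ε : ℝ} (hK0 : 0 < K₀) (hκ : 0 < κ) (hε : 0 < ε) :
    ∃ ρ : ℝ, 0 < ρ ∧ ∃ t₀ : ℕ, ∀ t S : ℕ, t₀ ≤ t → (S : ℝ) ≤ (1 - κ) * t →
      ∀ (a : Fin k → ℕ) (b : Fin k → ℤ), Monotone a →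
      (∀ i j : Fin k, i < j → ((a j - a i : ℕ) : ℝ) * Real.log t ≤ ρ * t) →
      ∀ F : (Fin k → ℤ) → ℝ, An F → (∀ z, |F z| ≤ K₀) →
      |EE t (fun n => al a b S n * act k (PP k ^ (t - S)) F (Lv a b S n)) -
        act k (PP k ^ t) F (fun i => (a i : ℤ))| ≤ ε := by
  set A : ℝ := 2 ^ k with hA
  have hA0 : 0 < A := by positivity
  set η : ℝ := ε * κ / (192 * A ^ 2 * K₀) with hη
  have hη0 : 0 < η := by positivity
  obtain ⟨w, C, hw1, hC, hwin⟩ := mean_window hη0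
  have hw0 : (0 : ℝ) < w := by exact_mod_cast hw1
  obtain ⟨ρ, hρ, hρ1, t₁, ht₁, hexK⟩ := exists_K' hC hη0
  set θ : ℝ := κ * ε / (192 * w * 8 ^ k * K₀ * A) with hθ
  have hθ0 : 0 < θ := by positivity
  obtain ⟨n₁, hn₁⟩ := exists_nat_ge (24 / (κ * θ ^ 2))
  obtain ⟨n₂, hn₂⟩ := exists_nat_ge (288 * w * A ^ 2 * K₀ / (κ * ε))
  obtain ⟨n₃, hn₃⟩ := exists_nat_ge ((2 + w) / κ)
  refine ⟨ρ, hρ, t₁ + n₁ + n₂ + n₃ + 1, fun t S ht hS a b ha hsp F hF hFK => ?_⟩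
  have ht0 : (0 : ℝ) < t := by
    have : 0 < t := by omega
    exact_mod_cast this
  have g1 : 24 / (κ * θ ^ 2) ≤ t := hn₁.trans (by exact_mod_cast (by omega : n₁ ≤ t))
  have g2 : 288 * w * A ^ 2 * K₀ / (κ * ε) ≤ t := hn₂.trans (by exact_mod_cast (by omega : n₂ ≤ t))
  have g3 : (2 + w) / κ ≤ t := hn₃.trans (by exact_mod_cast (by omega : n₃ ≤ t))
  rw [div_le_iff₀ (by positivity)] at g1 g2 g3
  obtain ⟨K, hKd⟩ := hexK t (by omega)
  set q := ⌊κ * t / 6⌋₊ with hq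
  have hq1 : (q : ℝ) ≤ κ * t / 6 := Nat.floor_le (by positivity)
  have hq2 : κ * t / 6 < q + 1 := Nat.lt_floor_add_one _
  have hc1 : 3 * q + S + 1 ≤ t := by
    have : (3 * (q : ℝ) + S + 1) ≤ t := by nlinarith
    exact_mod_cast this
  have hc2 : S + w ≤ t := by
    have : ((S : ℝ) + w) ≤ t := by nlinarith
    exact_mod_cast this
  have hSt : (S : ℝ) ≤ t := by exact_mod_cast (by omega : S ≤ t)
  have hΘ : ∀ i j : Fin k, i < j → ac (fun z => |∑ m ∈ range w, av^[m] sr z|) S (zz a b i j) ≤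
      w * (2 * η * t) := by
    intro i j hij
    obtain ⟨h1, h2⟩ := hKd (a j - a i) (hsp i j hij)
    have h3 := hwin S K (zz a b i j) (by show a j - a i + S ≤ 2 ^ K; omega)
    refine h3.trans (mul_le_mul_of_nonneg_left ?_ hw0.le)
    have h4 : η * S ≤ η * t := mul_le_mul_of_nonneg_left hSt hη0.le
    have h5 : C * (1 + K * (((zz a b i j).1 : ℝ) + 2)) ≤ η * t := h2
    linarith
  have h := core_par b ha hF hFK t S q w hc1 hc2 hw1 (by positivity : 0 ≤ 2 * η * t) hΘ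
  refine h.trans ?_
  set c : ℝ := 2 / √((q : ℝ) + 1) with hc
  have hq0 : (0 : ℝ) < (q : ℝ) + 1 := by positivity
  have hc0 : 0 ≤ c := by positivity
  have hcsq : c ^ 2 * t ≤ 24 / κ := by
    rw [hc, div_pow, Real.sq_sqrt hq0.le, div_mul_eq_mul_div, div_le_div_iff₀ hq0 hκ]
    nlinarith
  have hcθ : c ≤ θ := by
    apply le_of_sq_le_sq _ hθ0.le
    have h1 : c ^ 2 * t ≤ θ ^ 2 * t := by
      refine hcsq.trans ?_
      rw [div_le_iff₀ hκ]
      linarith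
    exact le_of_mul_le_mul_right h1 ht0
  have e8 : (8 : ℝ) ^ k = A * A * A := by rw [hA, ← mul_pow, ← mul_pow]; norm_num
  have hA1 : 1 ≤ A := one_le_pow₀ (by norm_num)
  have hw1' : (1 : ℝ) ≤ w := by exact_mod_cast hw1
  -- the three parts
  have p1 : A * ((A * c ^ 2 * K₀) * (2 * η * t)) ≤ ε / 4 := by
    have h1 : A * ((A * c ^ 2 * K₀) * (2 * η * t)) = 2 * A ^ 2 * K₀ * η * (c ^ 2 * t) := by ring
    have h2 : 2 * A ^ 2 * K₀ * η * (c ^ 2 * t) ≤ 2 * A ^ 2 * K₀ * η * (24 / κ) :=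
      mul_le_mul_of_nonneg_left hcsq (by positivity)
    have h3 : 2 * A ^ 2 * K₀ * η * (24 / κ) = ε / 4 := by rw [hη]; field_simp; ring
    linarith
  have p2 : A * (w * (3 * (A * c ^ 2 * K₀))) ≤ ε / 4 := by
    have h1 : A * (w * (3 * (A * c ^ 2 * K₀))) * t = 3 * w * A ^ 2 * K₀ * (c ^ 2 * t) := by ring
    have h2 : 3 * w * A ^ 2 * K₀ * (c ^ 2 * t) ≤ 3 * w * A ^ 2 * K₀ * (24 / κ) :=
      mul_le_mul_of_nonneg_left hcsq (by positivity)
    have h3 : 3 * w * A ^ 2 * K₀ * (24 / κ) ≤ ε / 4 * t := by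
      rw [mul_div_assoc', div_le_iff₀ hκ]
      linarith
    have h4 : A * (w * (3 * (A * c ^ 2 * K₀))) * t ≤ ε / 4 * t := by linarith
    exact le_of_mul_le_mul_right h4 ht0
  have h24 : S * c ^ 3 ≤ 24 / κ * θ := by
    have h1 : S * c ^ 3 ≤ t * c ^ 3 := mul_le_mul_of_nonneg_right hSt (by positivity)
    have h2 : t * c ^ 3 = c ^ 2 * t * c := by ring
    have h3 : c ^ 2 * t * c ≤ 24 / κ * θ := mul_le_mul hcsq hcθ hc0 (by positivity)
    linarith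
  have p3 : A * (w * (S * (8 ^ k * c ^ 3 * K₀))) ≤ ε / 8 := by
    have h1 : A * (w * (S * (8 ^ k * c ^ 3 * K₀))) = A * w * 8 ^ k * K₀ * (S * c ^ 3) := by ring
    have h2 : A * w * 8 ^ k * K₀ * (S * c ^ 3) ≤ A * w * 8 ^ k * K₀ * (24 / κ * θ) :=
      mul_le_mul_of_nonneg_left h24 (by positivity)
    have h3 : A * w * 8 ^ k * K₀ * (24 / κ * θ) = ε / 8 := by rw [hθ]; field_simp; ring
    linarith
  have p4 : A * (S * (A * c ^ 3 * K₀)) ≤ ε / 8 := by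
    have h1 : A * (S * (A * c ^ 3 * K₀)) = A * K₀ * (S * c ^ 3) * A := by ring
    have h2 : A * (w * (S * (8 ^ k * c ^ 3 * K₀))) = A * K₀ * (S * c ^ 3) * (w * 8 ^ k) := by ring
    have h3 : A ≤ w * 8 ^ k := by
      rw [e8]
      have : A * 1 ≤ A * (A * A) := mul_le_mul_of_nonneg_left (by nlinarith) hA0.le
      nlinarith [mul_pos (mul_pos hA0 hA0) hA0]
    have h4 : A * K₀ * (S * c ^ 3) * A ≤ A * K₀ * (S * c ^ 3) * (w * 8 ^ k) :=
      mul_le_mul_of_nonneg_left h3 (by positivity)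
    linarith
  have e : A * (A * c ^ 2 * K₀ * (2 * η * t) + w * (3 * (A * c ^ 2 * K₀) + S * (8 ^ k * c ^ 3 * K₀)) +
      S * (A * c ^ 3 * K₀)) = A * ((A * c ^ 2 * K₀) * (2 * η * t)) + A * (w * (3 * (A * c ^ 2 * K₀))) +
      A * (w * (S * (8 ^ k * c ^ 3 * K₀))) + A * (S * (A * c ^ 3 * K₀)) := by ring
  rw [e]
  linarith

end Pool.Agent.Q74.KP
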