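import Pool.Agent.Q74.AR.Mean
import Pool.Agent.Q74.AR.Bin

/-! # Project KP: averages over the residues modulo `2 ^ N` -/

set_option autoImplicit false

namespace Pool.Agent.Q74.KP

open Finset
open Pool.Agent.Q158.Pair (T step av od nb od_even od_odd nb_even nb_odd sum_two per_sum cop2 T_iter_affine
  sum_block' T_even T_odd)
open Pool.Agent.Q74.AR (ps xs oc sum_shift sum_ps ps_per ac ac_lev ac_succ sr sg ps_pair)

/-- the average over the residues modulo `2 ^ N` -/
noncomputable def EE (N : ℕ) (F : ℤ → ℝ) : ℝ := (∑ i ∈ range (2 ^ N), F i) / 2 ^ N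

/-- functions of the residue modulo `2 ^ s` -/
def Pe (s : ℕ) (F : ℤ → ℝ) : Prop := ∀ x j : ℤ, F (x + 2 ^ s * j) = F x

theorem Pe_le {s N : ℕ} {F : ℤ → ℝ} (h : Pe s F) (hs : s ≤ N) : Pe N F := by
  intro x j
  obtain ⟨d, rfl⟩ := Nat.exists_eq_add_of_le hs
  have : x + 2 ^ (s + d) * j = x + 2 ^ s * (2 ^ d * j) := by ring
  rw [this]
  exact h _ _

theorem Pe_mul {s : ℕ} {F G : ℤ → ℝ} (h1 : Pe s F) (h2 : Pe s G) : Pe s (fun n => F n * G n) := by
  intro x j
  simp only [h1 x j, h2 x j]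

theorem Pe_const (s : ℕ) (c : ℝ) : Pe s (fun _ => c) := fun _ _ => rfl

theorem EE_add (N : ℕ) (F G : ℤ → ℝ) : EE N (fun n => F n + G n) = EE N F + EE N G := by
  unfold EE
  rw [sum_add_distrib, add_div]

theorem EE_sub (N : ℕ) (F G : ℤ → ℝ) : EE N (fun n => F n - G n) = EE N F - EE N G := by
  unfold EE
  rw [sum_sub_distrib, sub_div]

theorem EE_mul (N : ℕ) (c : ℝ) (F : ℤ → ℝ) : EE N (fun n => c * F n) = c * EE N F := by
  unfold EE
  rw [← mul_sum, mul_div_assoc]

theorem EE_const (N : ℕ) (c : ℝ) : EE N (fun _ => c) = c := by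
  unfold EE
  rw [sum_const, card_range, nsmul_eq_mul]
  push_cast
  field_simp

theorem EE_sum {ι : Type*} (N : ℕ) (s : Finset ι) (F : ι → ℤ → ℝ) :
    EE N (fun n => ∑ i ∈ s, F i n) = ∑ i ∈ s, EE N (F i) := by
  unfold EE
  rw [sum_comm, sum_div]

theorem EE_mono (N : ℕ) {F G : ℤ → ℝ} (h : ∀ n, F n ≤ G n) : EE N F ≤ EE N G := by
  unfold EE
  apply div_le_div_of_nonneg_right _ (by positivity)
  exact sum_le_sum fun i _ => h i

theorem EE_abs (N : ℕ) (F : ℤ → ℝ) : |EE N F| ≤ EE N (fun n => |F n|) := by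
  unfold EE
  rw [abs_div, abs_of_pos (by positivity : (0 : ℝ) < 2 ^ N)]
  apply div_le_div_of_nonneg_right _ (by positivity)
  exact abs_sum_le_sum_abs _ _

theorem EE_abs_le (N : ℕ) {F G : ℤ → ℝ} (h : ∀ n, |F n| ≤ G n) : |EE N F| ≤ EE N G :=
  (EE_abs N F).trans (EE_mono N h)

theorem EE_bd (N : ℕ) {F : ℤ → ℝ} {K : ℝ} (h : ∀ n, |F n| ≤ K) : |EE N F| ≤ K := by
  have := EE_abs_le N h
  rwa [EE_const] at this

theorem EE_nonneg (N : ℕ) {F : ℤ → ℝ} (h : ∀ n, 0 ≤ F n) : 0 ≤ EE N F := by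
  have := EE_mono N (F := fun _ => 0) h
  rwa [EE_const] at this

theorem EE_shift {N : ℕ} {F : ℤ → ℝ} (h : Pe N F) (c : ℤ) : EE N (fun n => F (n + c)) = EE N F := by
  unfold EE
  rw [sum_shift N F h c]

theorem EE_aff {N : ℕ} {F : ℤ → ℝ} (h : Pe N F) (u : ℤ) (hu : u % 2 = 1) (c : ℤ) :
    EE N (fun n => F (u * n + c)) = EE N F := by
  unfold EE
  rw [per_sum (2 ^ N) (by positivity) F (fun x j => by
    have e : ((2 ^ N : ℕ) : ℤ) = 2 ^ N := by push_cast; rfl
    rw [e]; exact h x j) u (cop2 N u hu) c]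

theorem EE_flip {N s : ℕ} (hs : s ≤ N) {g h : ℤ → ℝ} (hg : Pe s g) (hh : Pe N h) :
    EE N (fun n => g n * h n) = EE N (fun n => g n * ((h n + h (n + 2 ^ s)) / 2)) := by
  have h1 := EE_shift (Pe_mul (Pe_le hg hs) hh) (2 ^ s)
  have h2 : ∀ n : ℤ, g (n + 2 ^ s) = g n := fun n => by
    have := hg n 1
    rwa [mul_one] at this
  simp only [h2] at h1
  have e : (fun n => g n * ((h n + h (n + 2 ^ s)) / 2)) =
      fun n => (1 / 2) * (g n * h n) + (1 / 2) * (g n * h (n + 2 ^ s)) := by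
    funext n; ring
  rw [e, EE_add N (fun n => (1 / 2) * (g n * h n)), EE_mul, EE_mul, h1]
  ring

/-- conditional expectation -/
theorem EE_cond {N s : ℕ} (hs : s ≤ N) {g h : ℤ → ℝ} (hg : Pe s g) (hh : Pe N h) :
    EE N (fun n => g n * h n) =
      EE N (fun n => g n * ((∑ l ∈ range (2 ^ (N - s)), h (n + 2 ^ s * (l : ℤ))) / 2 ^ (N - s))) := by
  have h1 : ∀ l : ℤ, EE N (fun n => g n * h (n + 2 ^ s * l)) = EE N (fun n => g n * h n) := by
    intro l
    have h2 := EE_shift (Pe_mul (Pe_le hg hs) hh) (2 ^ s * l)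
    have h3 : ∀ n : ℤ, g (n + 2 ^ s * l) = g n := fun n => hg n l
    simp only [h3] at h2
    exact h2
  have e : (fun n => g n * ((∑ l ∈ range (2 ^ (N - s)), h (n + 2 ^ s * (l : ℤ))) / 2 ^ (N - s))) =
      fun n => (1 / 2 ^ (N - s)) * ∑ l ∈ range (2 ^ (N - s)), g n * h (n + 2 ^ s * (l : ℤ)) := by
    funext n
    rw [← mul_sum]
    ring
  rw [e, EE_mul, EE_sum]
  simp only [h1]
  rw [sum_const, card_range, nsmul_eq_mul]
  push_cast
  field_simp

/-! ### the pair -/

theorem ps_add (s r : ℕ) : ∀ (z : ℕ × ℤ) (x : ℤ), ps (s + r) z x = ps r (ps s z x) (xs s z x) := by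
  induction s with
  | zero => intro z x; rw [Nat.zero_add]; rfl
  | succ n ih =>
    intro z x
    rw [show n + 1 + r = (n + r) + 1 by ring]
    show ps (n + r) (step (od x) z) (nb z x) = _
    rw [ih]
    rfl

theorem xs_shift (s : ℕ) : ∀ (z : ℕ × ℤ) (x : ℤ), ∃ c : ℕ, ∀ j : ℤ, xs s z (x + 2 ^ s * j) = xs s z x + 3 ^ c * j := by
  induction s with
  | zero => intro z x; exact ⟨0, fun j => by simp [xs]⟩
  | succ n ih =>
    intro z x
    rcases Int.even_or_odd' x with ⟨m, rfl | rfl⟩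
    · obtain ⟨c, hc⟩ := ih (step false z) m
      refine ⟨c, fun j => ?_⟩
      have : 2 * m + 2 ^ (n + 1) * j = 2 * (m + 2 ^ n * j) := by ring
      simp only [xs]
      rw [this, nb_even, nb_even, od_even, od_even]
      exact hc j
    · by_cases h : z.1 = 0 ∧ z.2 % 2 = 1
      · obtain ⟨c, hc⟩ := ih (step true z) (m + z.2 / 2 + 1)
        refine ⟨c, fun j => ?_⟩
        have : 2 * m + 1 + 2 ^ (n + 1) * j = 2 * (m + 2 ^ n * j) + 1 := by ring
        simp only [xs]
        rw [this, nb_odd, nb_odd, od_odd, od_odd, if_pos h, if_pos h]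
        have : m + 2 ^ n * j + z.2 / 2 + 1 = (m + z.2 / 2 + 1) + 2 ^ n * j := by ring
        rw [this]
        exact hc j
      · obtain ⟨c, hc⟩ := ih (step true z) (3 * m + 2)
        refine ⟨c + 1, fun j => ?_⟩
        have : 2 * m + 1 + 2 ^ (n + 1) * j = 2 * (m + 2 ^ n * j) + 1 := by ring
        simp only [xs]
        rw [this, nb_odd, nb_odd, od_odd, od_odd, if_neg h, if_neg h]
        have : 3 * (m + 2 ^ n * j) + 2 = (3 * m + 2) + 2 ^ n * (3 * j) := by ring
        rw [this, hc]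
        ring

theorem three_odd (c : ℕ) : (3 : ℤ) ^ c % 2 = 1 := by
  induction c with
  | zero => rfl
  | succ n ih => rw [pow_succ]; omega

/-- the average of a function of the state over a residue class -/
theorem ps_cond (f : ℕ × ℤ → ℝ) (s m d : ℕ) (hm : m ≤ d) (z : ℕ × ℤ) (x u : ℤ) (hu : u % 2 = 1) :
    (∑ l ∈ range (2 ^ d), f (ps (s + m) z (x + 2 ^ s * (u * (l : ℤ))))) / 2 ^ d = av^[m] f (ps s z x) := by
  obtain ⟨c, hc⟩ := xs_shift s z x
  have e : ∀ l : ℕ, f (ps (s + m) z (x + 2 ^ s * (u * (l : ℤ)))) =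
      (fun y => f (ps m (ps s z x) y)) ((3 ^ c * u) * l + xs s z x) := by
    intro l
    rw [ps_add, ps_per, hc]
    simp only
    congr 2
    ring
  simp only [e]
  obtain ⟨q, rfl⟩ := Nat.exists_eq_add_of_le hm
  have h1 : 2 ^ (m + q) = 2 ^ q * 2 ^ m := by rw [pow_add, mul_comm]
  rw [h1]
  have hp : ∀ y j : ℤ, (fun y => f (ps m (ps s z x) y)) (y + ((2 ^ m : ℕ) : ℤ) * j) =
      (fun y => f (ps m (ps s z x) y)) y := by
    intro y j
    have e : ((2 ^ m : ℕ) : ℤ) = 2 ^ m := by push_cast; rfl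
    simp only [e, ps_per]
  have hodd : (3 ^ c * u) % 2 = 1 := by
    rw [Int.mul_emod, three_odd, hu]
    rfl
  have hb := sum_block' (2 ^ m) (by positivity) (fun y => f (ps m (ps s z x) y)) hp (3 ^ c * u) (cop2 m _ hodd)
    (2 ^ q) (xs s z x)
  rw [hb, sum_ps]
  rw [pow_add]
  push_cast
  field_simp

/-- the two parities -/
theorem sg_ps (s : ℕ) (z : ℕ × ℤ) (x : ℤ) :
    sg (ps s z x) = if (T^[s] x + T^[s] (3 ^ z.1 * x + z.2)) % 2 = 0 then 1 else -1 := by
  unfold sg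
  have h3 := three_odd (ps s z x).1
  have key : ∀ X : ℤ, (X + (3 ^ (ps s z x).1 * X + (ps s z x).2)) % 2 = (ps s z x).2 % 2 := by
    intro X
    obtain ⟨w, hw⟩ : ∃ w : ℤ, (3 : ℤ) ^ (ps s z x).1 = 2 * w + 1 := ⟨(3 ^ (ps s z x).1) / 2, by omega⟩
    rw [hw]
    have : X + ((2 * w + 1) * X + (ps s z x).2) = (ps s z x).2 + 2 * ((w + 1) * X) := by ring
    rw [this]
    omega
  rcases ps_pair s z x with ⟨h1, h2, _⟩ | ⟨h1, h2, _⟩
  · rw [← h1, ← h2, key]
  · rw [← h1, ← h2, add_comm (3 ^ (ps s z x).1 * xs s z x + (ps s z x).2), key]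

open Classical in
/-- `1` if level `0` is not reached up to the time `s` -/
noncomputable def lv (s : ℕ) (z : ℕ × ℤ) (x : ℤ) : ℝ := if ∀ r ≤ s, (ps r z x).1 ≠ 0 then 1 else 0

theorem lv_lev (s : ℕ) {z : ℕ × ℤ} (h : z.1 = 0) (x : ℤ) : lv s z x = 0 := by
  unfold lv
  rw [if_neg]
  intro h2
  exact h2 0 (Nat.zero_le _) h

theorem lv_zero {z : ℕ × ℤ} (h : z.1 ≠ 0) (x : ℤ) : lv 0 z x = 1 := by
  unfold lv
  rw [if_pos]
  intro r hr
  rw [Nat.le_zero] at hr
  subst hr
  exact h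

theorem lv_succ (s : ℕ) {z : ℕ × ℤ} (h : z.1 ≠ 0) (x : ℤ) :
    lv (s + 1) z x = lv s (step (od x) z) (nb z x) := by
  unfold lv
  congr 1
  apply propext
  constructor
  · intro h2 r hr
    exact h2 (r + 1) (by omega)
  · intro h2 r hr
    rcases r with _ | r
    · exact h
    · exact h2 r (by omega)

theorem lv_per (s : ℕ) (z : ℕ × ℤ) : Pe s (lv s z) := by
  intro x j
  unfold lv
  congr 1
  apply propext
  have key : ∀ r ≤ s, ps r z (x + 2 ^ s * j) = ps r z x := by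
    intro r hr
    obtain ⟨d, rfl⟩ := Nat.exists_eq_add_of_le hr
    have : x + 2 ^ (r + d) * j = x + 2 ^ r * (2 ^ d * j) := by ring
    rw [this, ps_per]
  constructor
  · intro h r hr; rw [← key r hr]; exact h r hr
  · intro h r hr; rw [key r hr]; exact h r hr

theorem lv_nonneg (s : ℕ) (z : ℕ × ℤ) (x : ℤ) : 0 ≤ lv s z x := by unfold lv; split_ifs <;> norm_num
theorem lv_le_one (s : ℕ) (z : ℕ × ℤ) (x : ℤ) : lv s z x ≤ 1 := by unfold lv; split_ifs <;> norm_num

/-- the first step -/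
theorem sum_step (N : ℕ) (f : ℕ × ℤ → ℤ → ℝ) (hf : ∀ z, Pe N (f z)) (z : ℕ × ℤ) :
    ∑ i ∈ range (2 ^ (N + 1)), f (step (od i) z) (nb z i) =
      ∑ i ∈ range (2 ^ N), f (step false z) i + ∑ i ∈ range (2 ^ N), f (step true z) i := by
  rw [show 2 ^ (N + 1) = 2 * 2 ^ N by ring, sum_two (fun x => f (step (od x) z) (nb z x))]
  congr 1
  · apply sum_congr rfl
    intro i _
    simp only [od_even, nb_even]
  · have hper : ∀ x j : ℤ, f (step true z) (x + ((2 ^ N : ℕ) : ℤ) * j) = f (step true z) x := by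
      intro x j
      have e : ((2 ^ N : ℕ) : ℤ) = 2 ^ N := by push_cast; rfl
      rw [e]
      exact hf _ x j
    by_cases h : z.1 = 0 ∧ z.2 % 2 = 1
    · have := per_sum (2 ^ N) (by positivity) (f (step true z)) hper 1 isCoprime_one_left (z.2 / 2 + 1)
      rw [← this]
      apply sum_congr rfl
      intro i _
      have e1 : (1:ℤ) * i + (z.2 / 2 + 1) = i + z.2 / 2 + 1 := by ring
      rw [e1]
      simp only [od_odd, nb_odd, h, and_self, if_true]
    · have := per_sum (2 ^ N) (by positivity) (f (step true z)) hper 3 (cop2 N 3 (by norm_num)) 2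
      rw [← this]
      apply sum_congr rfl
      intro i _
      simp only [od_odd, nb_odd, h, if_false]

theorem Pe_ps (s : ℕ) (z : ℕ × ℤ) (g : ℕ × ℤ → ℝ) : Pe s (fun x => g (ps s z x)) := by
  intro x j
  simp only [ps_per]

theorem Pe_sum {ι : Type*} {s : ℕ} (I : Finset ι) {F : ι → ℤ → ℝ} (h : ∀ i ∈ I, Pe s (F i)) :
    Pe s (fun n => ∑ i ∈ I, F i n) := by
  intro x j
  apply sum_congr rfl
  intro i hi
  exact h i hi x j

/-- the killed sum as an average over paths -/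
theorem ac_path (g : ℕ × ℤ → ℝ) (t : ℕ) : ∀ (N : ℕ) (z : ℕ × ℤ), t ≤ N →
    EE N (fun x => ∑ s ∈ range t, lv s z x * g (ps s z x)) = ac g t z := by
  induction t with
  | zero => intro N z _; simp [ac, EE_const]
  | succ n ih =>
    intro N z hN
    obtain ⟨N, rfl⟩ : ∃ N', N = N' + 1 := ⟨N - 1, by omega⟩
    by_cases hz : z.1 = 0
    · rw [ac_lev _ _ hz]
      simp only [lv_lev _ hz, zero_mul, sum_const_zero]
      rw [EE_const]
    · rw [ac_succ _ _ hz]
      have e : ∀ x : ℤ, ∑ s ∈ range (n + 1), lv s z x * g (ps s z x) =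
          g z + ∑ s ∈ range n, lv s (step (od x) z) (nb z x) * g (ps s (step (od x) z) (nb z x)) := by
        intro x
        rw [sum_range_succ', add_comm]
        congr 1
        · rw [lv_zero hz, one_mul]; rfl
        · apply sum_congr rfl
          intro s _
          rw [lv_succ _ hz]
          rfl
      simp only [e]
      rw [EE_add N.succ (fun _ => g z), EE_const]
      congr 1
      have h1 := sum_step N (fun z x => ∑ s ∈ range n, lv s z x * g (ps s z x)) (fun z' =>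
        Pe_sum _ fun s hs => Pe_mul (Pe_le (lv_per s z') (by have := mem_range.1 hs; omega))
          (Pe_le (Pe_ps s z' g) (by have := mem_range.1 hs; omega))) z
      have i1 := ih N (step false z) (by omega)
      have i2 := ih N (step true z) (by omega)
      unfold EE at i1 i2 ⊢
      rw [h1]
      unfold av
      rw [← i1, ← i2, pow_succ]
      field_simp

end Pool.Agent.Q74.KP
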