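import Pool.Agent.Q74.KP.Pair

/-! # Project KP: the levels of `k` trajectories and independent walkers -/

set_option autoImplicit false

namespace Pool.Agent.Q74.KP

open Finset
open Pool.Agent.Q158.Pair (T av)
open Pool.Agent.Q74.AR (oc ps sr sg ac)

variable {k : ℕ}

theorem Lv_zero (a : Fin k → ℕ) (b : Fin k → ℤ) (n : ℤ) : Lv a b 0 n = fun i => (a i : ℤ) := by
  funext i
  simp [Lv, oc]

theorem tele (a : Fin k → ℕ) (b : Fin k → ℤ) {F : (Fin k → ℤ) → ℝ} (hF : An F) (t S : ℕ) (hS : S ≤ t) :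
    EE t (fun n => al a b S n * act k (PP k ^ (t - S)) F (Lv a b S n)) -
      EE t (fun n => al a b 0 n * act k (PP k ^ t) F (Lv a b 0 n)) =
    ∑ B : Finset (Fin k), ∑ s ∈ range S, EE t (fun n => al a b s n *
      act k (DD B * PP k ^ (t - s - 1)) F (Lv a b s n) * cf B (Od a b s n)) := by
  induction S with
  | zero => simp
  | succ n ih =>
    have h1 := ih (by omega)
    have h2 := step_E a b hF t n (t - n - 1) (by omega)
    have e1 : t - n - 1 + 1 = t - n := by omega
    have e2 : t - (n + 1) = t - n - 1 := by omega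
    rw [e1] at h2
    simp only [sum_range_succ]
    rw [sum_add_distrib, ← h1, ← h2, e2]
    ring

theorem start {a : Fin k → ℕ} (b : Fin k → ℤ) (ha : Monotone a) {U : (Fin k → ℤ) → ℝ} (hU : An U) (t : ℕ) :
    EE t (fun n => al a b 0 n * U (Lv a b 0 n)) = U (fun i => (a i : ℤ)) := by
  have h : ∀ n, al a b 0 n * U (Lv a b 0 n) = U (fun i => (a i : ℤ)) := by
    intro n
    rw [Lv_zero]
    by_cases h : StrictMono a
    · rw [al_pos, one_mul]
      intro r hr
      rw [Nat.le_zero] at hr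
      subst hr
      rw [Lv_zero]
      intro i j hij
      have := h hij
      show (a i : ℤ) < a j
      exact_mod_cast this
    · have h2 : ¬ Function.Injective (fun i => (a i : ℤ)) := by
        intro h3
        apply h
        apply ha.strictMono_of_injective
        intro i j hij
        apply h3
        simp [hij]
      rw [An_zero hU h2, mul_zero]
  simp only [h]
  rw [EE_const]

theorem core_par {a : Fin k → ℕ} (b : Fin k → ℤ) (ha : Monotone a) {F : (Fin k → ℤ) → ℝ} (hF : An F)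
    {K₀ : ℝ} (hK : ∀ z, |F z| ≤ K₀) (t S q w : ℕ) (hq : 3 * q + S + 1 ≤ t) (hw : S + w ≤ t) (hw1 : 1 ≤ w)
    {Θ : ℝ} (hΘ0 : 0 ≤ Θ)
    (hΘ : ∀ i j : Fin k, i < j → ac (fun z => |∑ m ∈ range w, av^[m] sr z|) S (zz a b i j) ≤ w * Θ) :
    |EE t (fun n => al a b S n * act k (PP k ^ (t - S)) F (Lv a b S n)) -
        act k (PP k ^ t) F (fun i => (a i : ℤ))| ≤
      2 ^ k * ((2 ^ k * (2 / √(q + 1)) ^ 2 * K₀) * Θ +
        w * (3 * (2 ^ k * (2 / √(q + 1)) ^ 2 * K₀) + S * (8 ^ k * (2 / √(q + 1)) ^ 3 * K₀)) +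
        S * (2 ^ k * (2 / √(q + 1)) ^ 3 * K₀)) := by
  have hK0 : 0 ≤ K₀ := (abs_nonneg _).trans (hK 0)
  have h0 := tele a b hF t S (by omega)
  rw [start b ha (An_pow hF t) t] at h0
  rw [h0]
  set c : ℝ := 2 / √((q : ℝ) + 1) with hc
  have hc0 : 0 ≤ c := by positivity
  refine (abs_sum_le_sum_abs _ _).trans ?_
  refine (sum_le_card_nsmul _ _ ((2 ^ k * c ^ 2 * K₀) * Θ +
        w * (3 * (2 ^ k * c ^ 2 * K₀) + S * (8 ^ k * c ^ 3 * K₀)) + S * (2 ^ k * c ^ 3 * K₀)) ?_).trans ?_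
  swap
  · rw [nsmul_eq_mul, card_sets]
  intro B _
  have hw0 : (0 : ℝ) < w := by exact_mod_cast hw1
  have hx : 0 ≤ (2 ^ k * c ^ 2 * K₀) * Θ + w * (3 * (2 ^ k * c ^ 2 * K₀) + S * (8 ^ k * c ^ 3 * K₀)) := by
    positivity
  have hy : 0 ≤ S * (2 ^ k * c ^ 3 * K₀) := by positivity
  rcases Nat.lt_or_ge B.card 2 with h1 | h1
  · have h2 : ∀ O, cf B O = 0 := cf_small (by omega)
    simp only [h2, mul_zero, EE_const, sum_const_zero, abs_zero]
    linarith
  · rcases Nat.lt_or_ge B.card 3 with h3 | h3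
    · have h4 : B.card = 2 := by omega
      obtain ⟨i, j, hij, hB⟩ := card_eq_two.1 h4
      obtain ⟨i, j, hlt, hB⟩ : ∃ i j : Fin k, i < j ∧ B = {i, j} := by
        rcases lt_or_gt_of_ne hij with h | h
        · exact ⟨i, j, h, hB⟩
        · exact ⟨j, i, h, by rw [hB, pair_comm]⟩
      subst hB
      have haij : a i ≤ a j := ha hlt.le
      have h5 := pair_sum b hK hlt haij t S q w hq hw
      have h6 : ∀ s, EE t (fun n => al a b s n * act k (DD {i, j} * PP k ^ (t - s - 1)) F (Lv a b s n) *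
          cf {i, j} (Od a b s n)) = (1 / 4) * EE t (fun n => al a b s n *
          act k (DD {i, j} * PP k ^ (t - s - 1)) F (Lv a b s n) * sr (ps s (zz a b i j) (yy a b i n))) := by
        intro s
        rw [← EE_mul]
        congr 1
        funext n
        rw [cf_two hlt.ne, sr_ps b haij]
        ring
      simp only [h6]
      rw [← mul_sum, abs_mul, abs_of_pos (by norm_num : (0 : ℝ) < 1 / 4)]
      set X := |∑ s ∈ range S, EE t (fun n => al a b s n *
          act k (DD {i, j} * PP k ^ (t - s - 1)) F (Lv a b s n) * sr (ps s (zz a b i j) (yy a b i n)))|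
      have hX : 0 ≤ X := abs_nonneg _
      have h7 : (w : ℝ) * X ≤ w * ((2 ^ k * c ^ 2 * K₀) * Θ +
          w * (3 * (2 ^ k * c ^ 2 * K₀) + S * (8 ^ k * c ^ 3 * K₀))) := by
        refine h5.trans ?_
        have := mul_le_mul_of_nonneg_left (hΘ i j hlt) (by positivity : 0 ≤ 2 ^ k * c ^ 2 * K₀)
        linarith
      have h8 := le_of_mul_le_mul_left h7 hw0
      linarith
    · refine le_trans ?_ (by linarith : S * (2 ^ k * c ^ 3 * K₀) ≤ _)
      refine (abs_sum_le_sum_abs _ _).trans ?_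
      refine (sum_le_card_nsmul _ _ (2 ^ k * c ^ 3 * K₀) ?_).trans (by rw [card_range, nsmul_eq_mul])
      intro s hs
      have hs' := mem_range.1 hs
      apply EE_bd
      intro n
      have i1 := Bd_DD' q B 3 (t - s - 1) h3 (by omega) F K₀ hK (Lv a b s n)
      have i2 := al_abs a b s n
      have i3 := cf_abs B (Od a b s n)
      rw [abs_mul, abs_mul]
      have j1 : |al a b s n| * |act k (DD B * PP k ^ (t - s - 1)) F (Lv a b s n)| ≤ 1 * (2 ^ k * c ^ 3 * K₀) :=
        mul_le_mul i2 i1 (abs_nonneg _) (by norm_num)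
      have j2 := mul_le_mul j1 i3 (abs_nonneg _) (by positivity)
      linarith

theorem log_small {η : ℝ} (hη : 0 < η) : ∃ t₀ : ℕ, ∀ t : ℕ, t₀ ≤ t → Real.log t ≤ η * t := by
  obtain ⟨n, hn⟩ := exists_nat_ge ((2 / η) ^ 2)
  refine ⟨n + 1, fun t ht => ?_⟩
  have ht0 : (0 : ℝ) < t := by
    have : 0 < t := by omega
    exact_mod_cast this
  have hs : 0 < √(t : ℝ) := Real.sqrt_pos.2 ht0
  have hs2 : √(t : ℝ) ^ 2 = t := Real.sq_sqrt ht0.le
  have h1 : Real.log t = 2 * Real.log √(t : ℝ) := by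
    rw [Real.log_sqrt ht0.le]; ring
  have h2 : Real.log √(t : ℝ) ≤ √(t : ℝ) - 1 := Real.log_le_sub_one_of_pos hs
  have h3 : 2 / η ≤ √(t : ℝ) := by
    apply Real.le_sqrt_of_sq_le
    refine hn.trans ?_
    have : n ≤ t := by omega
    exact_mod_cast this
  rw [div_le_iff₀ hη] at h3
  rw [h1]
  nlinarith

theorem exists_K' {C η : ℝ} (hC : 0 < C) (hη : 0 < η) : ∃ ρ : ℝ, 0 < ρ ∧ ρ ≤ 1 ∧ ∃ t₀ : ℕ, 3 ≤ t₀ ∧
    ∀ t : ℕ, t₀ ≤ t → ∃ K : ℕ, ∀ d : ℕ, (d : ℝ) * Real.log t ≤ ρ * t →
      d + t ≤ 2 ^ K ∧ C * (1 + K * (d + 2)) ≤ η * t := by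
  obtain ⟨t₁, ht₁⟩ := log_small (η := η / (32 * C)) (by positivity)
  obtain ⟨n, hn⟩ := exists_nat_ge (4 * C / η)
  refine ⟨min 1 (η / (16 * C)), by positivity, min_le_left _ _, max 3 (max t₁ n), le_max_left _ _, fun t ht => ?_⟩
  have ht3 : 3 ≤ t := le_trans (le_max_left _ _) ht
  have ht1 : t₁ ≤ t := le_trans (le_trans (le_max_left _ _) (le_max_right _ _)) ht
  have htn : n ≤ t := le_trans (le_trans (le_max_right _ _) (le_max_right _ _)) ht
  have ht0 : (0 : ℝ) < t := by
    have : 0 < t := by omega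
    exact_mod_cast this
  have hlog1 : 1 ≤ Real.log t := by
    rw [Real.le_log_iff_exp_le ht0]
    have h1 := Real.exp_one_lt_d9
    have h2 : (3 : ℝ) ≤ t := by exact_mod_cast ht3
    linarith
  refine ⟨Nat.log 2 t + 2, fun d hd => ?_⟩
  have hd1 : (d : ℝ) * Real.log t ≤ t := by
    refine hd.trans ?_
    have := min_le_left (1 : ℝ) (η / (16 * C))
    nlinarith
  have hd2 : (d : ℝ) * Real.log t ≤ η / (16 * C) * t :=
    hd.trans (mul_le_mul_of_nonneg_right (min_le_right _ _) ht0.le)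
  have hd0 : (0 : ℝ) ≤ d := Nat.cast_nonneg _
  have hd3 : d ≤ t := by
    have : (d : ℝ) ≤ t := by nlinarith
    exact_mod_cast this
  constructor
  · have := Nat.lt_pow_succ_log_self (b := 2) (by norm_num) t
    have e : 2 ^ (Nat.log 2 t + 2) = 2 * 2 ^ (Nat.log 2 t).succ := by
      rw [Nat.succ_eq_add_one, ← pow_succ']
    rw [e]
    omega
  · have hL : (Nat.log 2 t : ℝ) ≤ 2 * Real.log t := by
      have h1 := Real.natLog_le_logb t 2
      have h2 : Real.logb 2 t ≤ 2 * Real.log t := by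
        rw [Real.logb, div_le_iff₀ (Real.log_pos (by norm_num))]
        have := Real.log_two_gt_d9
        nlinarith
      push_cast at h1
      linarith
    have h3 : ((Nat.log 2 t + 2 : ℕ) : ℝ) ≤ 4 * Real.log t := by
      push_cast
      linarith
    have h4 : ((Nat.log 2 t + 2 : ℕ) : ℝ) * (d + 2) ≤ 4 * Real.log t * (d + 2) :=
      mul_le_mul_of_nonneg_right h3 (by linarith)
    have h5 := ht₁ t ht1
    have h6 : (n : ℝ) ≤ t := by exact_mod_cast htn
    have h7 : 4 * C ≤ η * t := by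
      have := hn.trans h6
      rw [div_le_iff₀ hη] at this
      linarith
    have h8 : C * (4 * (η / (16 * C) * t)) = η * t / 4 := by field_simp; ring
    have h9 : C * (8 * (η / (32 * C) * t)) = η * t / 4 := by field_simp; ring
    have h10 : C * (1 + ((Nat.log 2 t + 2 : ℕ) : ℝ) * (d + 2)) ≤
        C * (1 + 4 * (d * Real.log t) + 8 * Real.log t) := by
      apply mul_le_mul_of_nonneg_left _ hC.le
      nlinarith
    have h11 : C * (1 + 4 * (d * Real.log t) + 8 * Real.log t) ≤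
        C + C * (4 * (η / (16 * C) * t)) + C * (8 * (η / (32 * C) * t)) := by
      have i1 := mul_le_mul_of_nonneg_left hd2 hC.le
      have i2 := mul_le_mul_of_nonneg_left h5 hC.le
      nlinarith
    nlinarith

end Pool.Agent.Q74.KP
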