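import Pool.Agent.Q74.KP.Asy

/-! # Project KP: the end of the time interval -/

set_option autoImplicit false

namespace Pool.Agent.Q74.KP

open Finset
open Pool.Agent.Q158.Pair (T av step q od nb q_zero_right q_nonneg q_le_one q_succ)
open Pool.Agent.Q74.AR (oc ps sr sg qq qq_lev qq_succ qq_nonneg qq_le_one lim lim_scale qq_main Phi)

variable {k : ℕ}

/-! ### the Markov property -/

theorem qq_markov (r : ℕ) (S : ℕ) : ∀ (N : ℕ) (z : ℕ × ℤ), S ≤ N →
    EE N (fun x => lv S z x * qq r (ps S z x)) = qq (S + r) z := by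
  induction S with
  | zero =>
    intro N z _
    rw [Nat.zero_add]
    by_cases hz : z.1 = 0
    · simp only [lv_lev _ hz, zero_mul, EE_const]
      rw [qq_lev _ hz]
    · simp only [lv_zero hz, one_mul, ps, EE_const]
  | succ n ih =>
    intro N z hN
    obtain ⟨N, rfl⟩ : ∃ N', N = N' + 1 := ⟨N - 1, by omega⟩
    by_cases hz : z.1 = 0
    · simp only [lv_lev _ hz, zero_mul, EE_const]
      rw [qq_lev _ hz]
    · rw [show n + 1 + r = (n + r) + 1 by ring, qq_succ _ hz]
      have h1 := sum_step N (fun z x => lv n z x * qq r (ps n z x)) (fun z' =>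
        Pe_mul (Pe_le (lv_per n z') (by omega)) (Pe_le (Pe_ps n z' (qq r)) (by omega))) z
      have i1 := ih N (step false z) (by omega)
      have i2 := ih N (step true z) (by omega)
      have e : (fun x : ℤ => lv (n + 1) z x * qq r (ps (n + 1) z x)) =
          fun x : ℤ => lv n (step (od x) z) (nb z x) * qq r (ps n (step (od x) z) (nb z x)) := by
        funext x
        rw [lv_succ _ hz]
        rfl
      rw [e]
      unfold EE at i1 i2 ⊢
      rw [h1]
      unfold av
      rw [← i1, ← i2, pow_succ]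
      field_simp

theorem lv_mean (S N : ℕ) (hS : S ≤ N) (z : ℕ × ℤ) : EE N (lv S z) = qq S z := by
  have h0 := qq_markov 0 S N z hS
  rw [Nat.add_zero] at h0
  rw [← h0]
  congr 1
  funext x
  by_cases h : lv S z x = 0
  · rw [h, zero_mul]
  · have h1 : (ps S z x).1 ≠ 0 := by
      intro h2
      apply h
      unfold lv
      rw [if_neg]
      intro h3
      exact h3 S le_rfl h2
    simp [qq, h1]

/-! ### pairs -/

theorem act_prodP_id (s : Finset (Fin k)) (G : (Fin k → ℤ) → ℝ) (h : ∀ l ∈ s, ∀ a, G (a + Pi.single l 1) = G a) :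
    act k (∏ l ∈ s, Po l) G = G := by
  classical
  induction s using Finset.induction_on with
  | empty => rw [prod_empty, act_one]
  | insert i s hi ih =>
    rw [prod_insert hi, act_mul, ih (fun l hl => h l (mem_insert_of_mem hl))]
    funext a
    rw [act_P, h i (mem_insert_self i s)]
    ring

/-- the average over one step of a function of the difference of two walkers -/
theorem avg_pair {i j : Fin k} (hij : i ≠ j) (g : ℤ → ℝ) (a : Fin k → ℤ) :
    (∑ A : Finset (Fin k), g (sh a A j - sh a A i)) / 2 ^ k =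
      (g (a j - a i + 1) + 2 * g (a j - a i) + g (a j - a i - 1)) / 4 := by
  rw [← act_PP (fun z => g (z j - z i))]
  have e : PP k = Po i * (Po j * ∏ l ∈ (univ.erase i).erase j, Po l) := by
    unfold PP
    rw [mul_prod_erase _ _ (mem_erase.2 ⟨hij.symm, mem_univ j⟩), mul_prod_erase _ _ (mem_univ i)]
  rw [e, act_mul, act_mul, act_prodP_id]
  · rw [act_P, act_P, act_P]
    simp only [Pi.add_apply, Pi.single_eq_same, Pi.single_eq_of_ne hij, Pi.single_eq_of_ne hij.symm]
    have e1 : a j + 1 - (a i + 0) = a j - a i + 1 := by ring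
    have e2 : a j + 0 - (a i + 1) = a j - a i - 1 := by ring
    have e3 : a j + 0 + 1 - (a i + 1 + 0) = a j - a i := by ring
    rw [e1, e2, e3]
    ring
  · intro l hl b
    rw [mem_erase, mem_erase] at hl
    simp [hl.1.symm, hl.2.1.symm]

/-- the simple random walk in double time -/
theorem q_double (r d : ℕ) (hd : 1 ≤ d) : q (2 * (r + 1)) (2 * d) =
    (q (2 * r) (2 * (d + 1)) + 2 * q (2 * r) (2 * d) + q (2 * r) (2 * (d - 1))) / 4 := by
  obtain ⟨d, rfl⟩ : ∃ d', d = d' + 1 := ⟨d - 1, by omega⟩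
  have e1 : 2 * (r + 1) = (2 * r + 1) + 1 := by ring
  have e2 : 2 * (d + 1) = (2 * d + 1) + 1 := by ring
  have e3 : 2 * (d + 1 + 1) = 2 * d + 1 + 1 + 2 := by ring
  have e4 : d + 1 - 1 = d := by omega
  rw [e4, e3, e1, e2, q_succ, show 2 * d + 1 + 2 = (2 * d + 1 + 1) + 1 by ring, q_succ, q_succ]
  ring_nf

theorem NC_pairs (r : ℕ) : ∀ a : Fin k → ℤ, Monotone a → 1 - NG (fun _ => 1) r a ≤
    ∑ p ∈ (univ : Finset (Fin k × Fin k)).filter (fun p => p.1 < p.2),
      (1 - q (2 * r) (2 * (a p.2 - a p.1).toNat)) := by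
  have hnn : ∀ (r : ℕ) (a : Fin k → ℤ), ∀ p ∈ (univ : Finset (Fin k × Fin k)).filter (fun p => p.1 < p.2),
      0 ≤ 1 - q (2 * r) (2 * (a p.2 - a p.1).toNat) := by
    intro r a p _
    have := q_le_one (2 * r) (2 * (a p.2 - a p.1).toNat)
    linarith
  have hni : ∀ (r : ℕ) (a : Fin k → ℤ), ¬ Function.Injective a → (1 : ℝ) ≤
      ∑ p ∈ (univ : Finset (Fin k × Fin k)).filter (fun p => p.1 < p.2),
        (1 - q (2 * r) (2 * (a p.2 - a p.1).toNat)) := by
    intro r a ha
    rw [Function.not_injective_iff] at ha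
    obtain ⟨i, j, hij, hne⟩ := ha
    obtain ⟨i, j, hij, hlt⟩ : ∃ i j, a i = a j ∧ i < j := by
      rcases lt_or_gt_of_ne hne with h | h
      · exact ⟨i, j, hij, h⟩
      · exact ⟨j, i, hij.symm, h⟩
    have h1 := single_le_sum (hnn r a) (show (i, j) ∈ _ by simp [hlt])
    simp only at h1
    rw [hij, sub_self, Int.toNat_zero, mul_zero, q_zero_right] at h1
    linarith
  induction r with
  | zero =>
    intro a ha
    by_cases h : Function.Injective a
    · rw [NG_zero h, sub_self]
      exact sum_nonneg (hnn 0 a)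
    · rw [NG_not h, sub_zero]
      exact hni 0 a h
  | succ n ih =>
    intro a ha
    by_cases h : Function.Injective a
    · have hs := ha.strictMono_of_injective h
      rw [NG_succ h]
      have h1 : 1 - (∑ A : Finset (Fin k), NG (fun _ => 1) n (sh a A)) / 2 ^ k =
          (∑ A : Finset (Fin k), (1 - NG (fun _ => 1) n (sh a A))) / 2 ^ k := by
        rw [sum_sub_distrib, sum_const, nsmul_eq_mul, card_sets]
        field_simp
      rw [h1]
      have h2 : (∑ A : Finset (Fin k), (1 - NG (fun _ => 1) n (sh a A))) / 2 ^ k ≤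
          (∑ A : Finset (Fin k), ∑ p ∈ (univ : Finset (Fin k × Fin k)).filter (fun p => p.1 < p.2),
            (1 - q (2 * n) (2 * (sh a A p.2 - sh a A p.1).toNat))) / 2 ^ k := by
        apply div_le_div_of_nonneg_right _ (by positivity)
        exact sum_le_sum fun A _ => ih _ (sh_mono hs A)
      refine h2.trans (le_of_eq ?_)
      rw [sum_comm, sum_div]
      apply sum_congr rfl
      intro p hp
      rw [mem_filter] at hp
      have hlt := hs hp.2
      rw [avg_pair hp.2.ne (fun d => 1 - q (2 * n) (2 * d.toNat)) a]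
      obtain ⟨d, hd⟩ : ∃ d : ℕ, a p.2 - a p.1 = (d : ℤ) + 1 := ⟨(a p.2 - a p.1 - 1).toNat, by omega⟩
      rw [hd]
      have e1 : ((d : ℤ) + 1 + 1).toNat = d + 1 + 1 := by omega
      have e2 : ((d : ℤ) + 1).toNat = d + 1 := by omega
      have e3 : ((d : ℤ) + 1 - 1).toNat = d := by omega
      rw [e1, e2, e3, q_double n (d + 1) (by omega), Nat.add_sub_cancel]
      ring
    · rw [NG_not h, sub_zero]
      exact hni (n + 1) a h

/-- the levels are increasing if no pair is at level `0` -/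
theorem al_of_lv {a : Fin k → ℕ} (b : Fin k → ℤ) (ha : Monotone a) (t : ℕ) (n : ℤ)
    (h : ∀ i j : Fin k, i < j → lv t (zz a b i j) (yy a b i n) ≠ 0) : al a b t n = 1 := by
  have h1 : ∀ i j : Fin k, i < j → ∀ r ≤ t, (ps r (zz a b i j) (yy a b i n)).1 ≠ 0 := by
    intro i j hij
    have h2 := h i j hij
    unfold lv at h2
    by_contra h3
    rw [if_neg h3] at h2
    exact h2 rfl
  have h2 : ∀ i j : Fin k, i < j → ∀ r ≤ t, Lv a b r n i ≠ Lv a b r n j := by
    intro i j hij r hr h3
    apply h1 i j hij r hr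
    have h4 := ps_lev b (ha hij.le) r n
    rw [h3, sub_self, abs_zero] at h4
    exact_mod_cast h4
  have h3 : ∀ r ≤ t, StrictMono (Lv a b r n) := by
    intro r
    induction r with
    | zero =>
      intro hr i j hij
      have h4 := h2 i j hij 0 hr
      rw [Lv_zero] at h4 ⊢
      have h5 : a i ≤ a j := ha hij.le
      have h6 : (a i : ℤ) ≠ a j := h4
      show (a i : ℤ) < a j
      omega
    | succ m ih =>
      intro hr i j hij
      have h4 := h2 i j hij (m + 1) hr
      have h5 : Monotone (Lv a b (m + 1) n) := by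
        rw [Lv_succ]
        exact sh_mono (ih (by omega)) _
      exact lt_of_le_of_ne (h5 hij.le) h4
  exact al_pos h3

theorem lv_one {s : ℕ} {z : ℕ × ℤ} {x : ℤ} (h : lv s z x ≠ 0) : lv s z x = 1 := by
  unfold lv at h ⊢
  split_ifs at h ⊢
  · rfl
  · exact absurd rfl h

theorem lv_anti {r s : ℕ} (hrs : r ≤ s) (z : ℕ × ℤ) (x : ℤ) : lv s z x ≤ lv r z x := by
  unfold lv
  by_cases h : ∀ u ≤ s, (ps u z x).1 ≠ 0
  · rw [if_pos h, if_pos (fun u hu => h u (hu.trans hrs))]
  · rw [if_neg h]
    split_ifs <;> norm_num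

/-- the loss between two times -/
theorem al_loss {a : Fin k → ℕ} (b : Fin k → ℤ) (ha : Monotone a) {S t : ℕ} (hSt : S ≤ t) (n : ℤ) :
    al a b S n - al a b t n ≤ ∑ p ∈ (univ : Finset (Fin k × Fin k)).filter (fun p => p.1 < p.2),
      (lv S (zz a b p.1 p.2) (yy a b p.1 n) - lv t (zz a b p.1 p.2) (yy a b p.1 n)) := by
  have hnn : ∀ p ∈ (univ : Finset (Fin k × Fin k)).filter (fun p => p.1 < p.2),
      0 ≤ lv S (zz a b p.1 p.2) (yy a b p.1 n) - lv t (zz a b p.1 p.2) (yy a b p.1 n) := by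
    intro p _
    have := lv_anti hSt (zz a b p.1 p.2) (yy a b p.1 n)
    linarith
  by_cases h : ∀ i j : Fin k, i < j → lv t (zz a b i j) (yy a b i n) ≠ 0
  · rw [al_of_lv b ha t n h]
    have := al_le_one a b S n
    have := sum_nonneg hnn
    linarith
  · push Not at h
    obtain ⟨i, j, hij, h0⟩ := h
    have h1 := single_le_sum hnn (show (i, j) ∈ _ by simp [hij])
    simp only at h1
    rw [h0, sub_zero] at h1
    have h2 := al_le_lv b hij (ha hij.le) S n
    have h3 := al_nonneg a b t n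
    linarith

theorem EE_yy {t : ℕ} {h : ℤ → ℝ} (hh : Pe t h) (a : Fin k → ℕ) (b : Fin k → ℤ) (i : Fin k) :
    EE t (fun n => h (yy a b i n)) = EE t h := EE_aff hh (3 ^ a i) (three_odd _) (b i)

theorem EE_loss {a : Fin k → ℕ} (b : Fin k → ℤ) (ha : Monotone a) {S t : ℕ} (hSt : S ≤ t) :
    EE t (al a b S) - EE t (al a b t) ≤ ∑ p ∈ (univ : Finset (Fin k × Fin k)).filter (fun p => p.1 < p.2),
      (qq S (zz a b p.1 p.2) - qq t (zz a b p.1 p.2)) := by
  rw [← EE_sub]
  refine (EE_mono t (al_loss b ha hSt)).trans (le_of_eq ?_)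
  rw [EE_sum]
  apply sum_congr rfl
  intro p _
  rw [EE_sub, EE_yy (Pe_le (lv_per S _) hSt), EE_yy (lv_per t _), lv_mean S t hSt, lv_mean t t le_rfl]

/-- the walkers do not meet at the end -/
theorem EE_end {a : Fin k → ℕ} (b : Fin k → ℤ) (ha : Monotone a) {S r t : ℕ} (hSt : S + r = t) {ε : ℝ}
    (hε : ∀ z : ℕ × ℤ, qq r z - ε ≤ q (2 * r) (2 * z.1)) :
    EE t (fun n => al a b S n * (1 - NG (fun _ => 1) r (Lv a b S n))) ≤
      ∑ p ∈ (univ : Finset (Fin k × Fin k)).filter (fun p => p.1 < p.2),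
      (qq S (zz a b p.1 p.2) - qq t (zz a b p.1 p.2) + ε) := by
  have h1 : ∀ n, al a b S n * (1 - NG (fun _ => 1) r (Lv a b S n)) ≤
      ∑ p ∈ (univ : Finset (Fin k × Fin k)).filter (fun p => p.1 < p.2),
        (lv S (zz a b p.1 p.2) (yy a b p.1 n) -
          lv S (zz a b p.1 p.2) (yy a b p.1 n) * qq r (ps S (zz a b p.1 p.2) (yy a b p.1 n)) +
          ε * lv S (zz a b p.1 p.2) (yy a b p.1 n)) := by
    intro n
    have hnn : ∀ p ∈ (univ : Finset (Fin k × Fin k)).filter (fun p => p.1 < p.2),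
        0 ≤ lv S (zz a b p.1 p.2) (yy a b p.1 n) *
        (1 - q (2 * r) (2 * (ps S (zz a b p.1 p.2) (yy a b p.1 n)).1)) := by
      intro p _
      have := q_le_one (2 * r) (2 * (ps S (zz a b p.1 p.2) (yy a b p.1 n)).1)
      exact mul_nonneg (lv_nonneg _ _ _) (by linarith)
    have h2 : al a b S n * (1 - NG (fun _ => 1) r (Lv a b S n)) ≤
        ∑ p ∈ (univ : Finset (Fin k × Fin k)).filter (fun p => p.1 < p.2),
        lv S (zz a b p.1 p.2) (yy a b p.1 n) *
        (1 - q (2 * r) (2 * (ps S (zz a b p.1 p.2) (yy a b p.1 n)).1)) := by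
      by_cases h0 : al a b S n = 0
      · rw [h0, zero_mul]
        exact sum_nonneg hnn
      · obtain ⟨h3, h4⟩ := al_one h0
        rw [h3, one_mul]
        have h5 := h4 S le_rfl
        refine (NC_pairs r _ h5.monotone).trans (le_of_eq ?_)
        apply sum_congr rfl
        intro p hp
        rw [mem_filter] at hp
        have h6 := al_le_lv b hp.2 (ha hp.2.le) S n
        rw [h3] at h6
        have h7 := lv_le_one S (zz a b p.1 p.2) (yy a b p.1 n)
        have h8 : lv S (zz a b p.1 p.2) (yy a b p.1 n) = 1 := le_antisymm h7 h6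
        rw [h8, one_mul]
        have h9 := ps_lev b (ha hp.2.le) S n
        have h10 := h5 hp.2
        rw [abs_of_pos (by linarith)] at h9
        rw [← h9, Int.toNat_natCast]
    refine h2.trans (sum_le_sum fun p _ => ?_)
    have h3 := hε (ps S (zz a b p.1 p.2) (yy a b p.1 n))
    have h4 := mul_le_mul_of_nonneg_left h3 (lv_nonneg S (zz a b p.1 p.2) (yy a b p.1 n))
    linarith
  have hε0 : 0 ≤ ε := by
    have := hε (0, 0)
    simp only [mul_zero, q_zero_right] at this
    rw [qq_lev r rfl] at this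
    linarith
  refine (EE_mono t h1).trans ?_
  rw [EE_sum]
  apply sum_le_sum
  intro p _
  have i0 : S ≤ t := by omega
  rw [EE_add t (fun n => lv S (zz a b p.1 p.2) (yy a b p.1 n) -
          lv S (zz a b p.1 p.2) (yy a b p.1 n) * qq r (ps S (zz a b p.1 p.2) (yy a b p.1 n))),
    EE_sub, EE_mul, EE_yy (Pe_le (lv_per S _) i0), lv_mean S t i0,
    EE_yy (h := fun x => lv S (zz a b p.1 p.2) x * qq r (ps S (zz a b p.1 p.2) x))
      (Pe_mul (Pe_le (lv_per S _) i0) (Pe_le (Pe_ps S _ (qq r)) i0)), qq_markov r S t _ i0, hSt]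
  have := qq_le_one S (zz a b p.1 p.2)
  nlinarith

end Pool.Agent.Q74.KP
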