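import Pool.Agent.Q74.KP.Lim2
import Pool.Agent.Q74.AR.Cnt
import Pool.Agent.Q74.AR.TdYag

/-! # Project KP: counting in intervals, for the maps `3x+d` -/

set_option autoImplicit false

namespace Pool.Agent.Q74.KP

open Finset
open Pool.Agent.Q158.Pair (T nc nc_per nc_nonneg sum_nc Co Co_meet surv)
open Pool.Agent.Q74.AR (oc ps qq count_per_u be surv_main qq_main Td Td_iter Td_eq Td_shift Co_oc Co_of exists_inv
  ocd ocd_eq oc_per)

variable {k : ℕ}

theorem Co_ps (t : ℕ) : ∀ (z : ℕ × ℤ) (x : ℤ), Co t z x ↔ ps t z x = (0, 0) := by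
  induction t with
  | zero => intro z x; rfl
  | succ n ih => intro z x; exact ih _ _

theorem lv_le_nc (t : ℕ) (z : ℕ × ℤ) (x : ℤ) : lv t z x ≤ nc t z x := by
  by_cases h : lv t z x = 0
  · rw [h]; exact nc_nonneg _ _ _
  · unfold nc
    rw [if_neg]
    · exact lv_le_one t z x
    · intro h2
      rw [Co_ps] at h2
      apply h
      unfold lv
      rw [if_neg]
      intro h3
      apply h3 t le_rfl
      rw [h2]

/-- the numbers -/
def Yd (d : ℤ) (a : Fin k → ℕ) (b : Fin k → ℤ) (i : Fin k) (X : ℤ) : ℤ := 3 ^ a i * X + d * b i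

/-- the numbers after `t` steps -/
def Vd (d : ℤ) (a : Fin k → ℕ) (b : Fin k → ℤ) (t : ℕ) (X : ℤ) (i : Fin k) : ℤ := (Td d)^[t] (Yd d a b i X)

open Classical in
/-- `1` if the numbers are distinct after `t` steps -/
noncomputable def Dn (d : ℤ) (a : Fin k → ℕ) (b : Fin k → ℤ) (t : ℕ) (X : ℤ) : ℝ :=
  if Function.Injective (Vd d a b t X) then 1 else 0

open Classical in
/-- an accidental meeting -/
noncomputable def ai (d w : ℤ) (a : Fin k → ℕ) (b : Fin k → ℤ) (t : ℕ) (p : Fin k × Fin k) (X : ℤ) : ℝ :=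
  if ¬ Co t (zz a b p.1 p.2) (yy a b p.1 (w * X)) ∧ Vd d a b t X p.1 = Vd d a b t X p.2 then 1 else 0

theorem ai_nonneg (d w : ℤ) (a : Fin k → ℕ) (b : Fin k → ℤ) (t : ℕ) (p : Fin k × Fin k) (X : ℤ) :
    0 ≤ ai d w a b t p X := by unfold ai; split_ifs <;> norm_num

section
variable {d : ℤ} (hd : d % 2 = 1) {t : ℕ} {w κ : ℤ} (hw : d * w + 2 ^ t * κ = 1)
include hd hw

theorem V_eq (a : Fin k → ℕ) (b : Fin k → ℤ) (i : Fin k) (X : ℤ) : Vd d a b t X i =
    d * T^[t] (yy a b i (w * X)) + 3 ^ oc t (yy a b i (w * X)) * (3 ^ a i * (κ * X)) := by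
  unfold Vd Yd yy
  rw [← Td_iter hd]
  congr 1
  linear_combination (-(3 ^ a i * X)) * hw

theorem V_shift (a : Fin k → ℕ) (b : Fin k → ℤ) (i : Fin k) (X j : ℤ) : Vd d a b t (X + 2 ^ t * j) i =
    Vd d a b t X i + 3 ^ oc t (yy a b i (w * X)) * (3 ^ a i * j) := by
  rw [V_eq hd hw a b i X]
  unfold Vd
  have e : Yd d a b i (X + 2 ^ t * j) = d * (yy a b i (w * X)) + 2 ^ t * (3 ^ a i * (κ * X + j)) := by
    unfold Yd yy
    linear_combination (-(3 ^ a i * X)) * hw
  rw [e, Td_iter hd]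
  ring

theorem V_Co {a : Fin k → ℕ} (b : Fin k → ℤ) {i j : Fin k} (h : a i ≤ a j) {X : ℤ}
    (hC : Co t (zz a b i j) (yy a b i (w * X))) : Vd d a b t X i = Vd d a b t X j := by
  have g1 := Co_oc hC
  have g2 := Co_meet t _ _ hC
  rw [zz_eq b h] at g1 g2
  have g3 : (zz a b i j).1 = a j - a i := rfl
  rw [g3] at g1
  rw [V_eq hd hw a b i, V_eq hd hw a b j, g1, g2, pow_add]
  have e : (3 : ℤ) ^ (a j - a i) * 3 ^ a i = 3 ^ a j := by rw [← pow_add, Nat.sub_add_cancel h]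
  linear_combination (3 ^ oc t (yy a b j (w * X)) * (κ * X)) * e

theorem ai_unique {a : Fin k → ℕ} (b : Fin k → ℤ) {i j : Fin k} (h : a i ≤ a j) {X e : ℤ}
    (h1 : ¬ Co t (zz a b i j) (yy a b i (w * X))) (h2 : Vd d a b t X i = Vd d a b t X j)
    (h3 : Vd d a b t (X + 2 ^ t * e) i = Vd d a b t (X + 2 ^ t * e) j) : e = 0 := by
  rw [V_shift hd hw, V_shift hd hw, h2] at h3
  have hdz : d ≠ 0 := by rintro rfl; omega
  have i4 : ((3 : ℤ) ^ (oc t (yy a b i (w * X)) + a i) - 3 ^ (oc t (yy a b j (w * X)) + a j)) * e = 0 := by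
    rw [pow_add, pow_add]
    linear_combination h3
  rcases mul_eq_zero.1 i4 with i5 | i5
  · exfalso
    have i6 : oc t (yy a b i (w * X)) + a i = oc t (yy a b j (w * X)) + a j := by
      simpa using sub_eq_zero.1 i5
    apply h1
    apply Co_of
    · rw [zz_eq b h]
      show _ = _ + (a j - a i)
      omega
    · rw [zz_eq b h]
      rw [V_eq hd hw, V_eq hd hw] at h2
      have e1 : (3 : ℤ) ^ oc t (yy a b i (w * X)) * 3 ^ a i = 3 ^ oc t (yy a b j (w * X)) * 3 ^ a j := by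
        rw [← pow_add, ← pow_add, i6]
      have i8 : d * (T^[t] (yy a b i (w * X)) - T^[t] (yy a b j (w * X))) = 0 := by
        linear_combination h2 - (κ * X) * e1
      exact sub_eq_zero.1 ((mul_eq_zero.1 i8).resolve_left hdz)
  · exact i5

open Classical in
theorem ai_sum {a : Fin k → ℕ} (b : Fin k → ℤ) {p : Fin k × Fin k} (h : a p.1 ≤ a p.2) (u s : ℤ) (hu : u % 2 = 1)
    (M : ℤ) (L : ℕ) : ∑ x ∈ Ico M (M + L), ai d w a b t p (u * x + s) ≤ 2 ^ t := by
  have h5 : ∑ x ∈ Ico M (M + L), ai d w a b t p (u * x + s) =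
      (((Ico M (M + L)).filter (fun x => ¬ Co t (zz a b p.1 p.2) (yy a b p.1 (w * (u * x + s))) ∧
        Vd d a b t (u * x + s) p.1 = Vd d a b t (u * x + s) p.2)).card : ℝ) := by
    rw [card_filter]
    push_cast
    apply sum_congr rfl
    intro x _
    unfold ai
    split_ifs <;> rfl
  rw [h5]
  have hc : (Finset.Ico (0:ℤ) (2 ^ t)).card = 2 ^ t := by
    rw [Int.card_Ico, sub_zero]
    have : (2:ℤ) ^ t = ((2 ^ t : ℕ) : ℤ) := by push_cast; rfl
    rw [this, Int.toNat_natCast]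
  have h6 : ((Ico M (M + L)).filter (fun x => ¬ Co t (zz a b p.1 p.2) (yy a b p.1 (w * (u * x + s))) ∧
        Vd d a b t (u * x + s) p.1 = Vd d a b t (u * x + s) p.2)).card ≤ 2 ^ t := by
    rw [← hc]
    apply Finset.card_le_card_of_injOn (fun x => x % 2 ^ t)
    · intro x _
      simp only [Finset.coe_Ico, Set.mem_Ico]
      exact ⟨Int.emod_nonneg _ (by positivity), Int.emod_lt_of_pos _ (by positivity)⟩
    · intro x hx y hy hxy
      simp only [Finset.coe_filter, Set.mem_ofPred_eq] at hx hy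
      simp only at hxy
      have i1 : (2:ℤ) ^ t ∣ y - x := Int.ModEq.dvd hxy
      obtain ⟨j, hj⟩ := i1
      have i2 : y = x + 2 ^ t * j := by omega
      have e1 : u * y + s = (u * x + s) + 2 ^ t * (u * j) := by rw [i2]; ring
      have i3 := hy.2.2
      rw [e1] at i3
      have i4 := ai_unique hd hw b h hx.2.1 hx.2.2 i3
      have hu0 : u ≠ 0 := by rintro rfl; omega
      have i5 : j = 0 := (mul_eq_zero.1 i4).resolve_left hu0
      rw [i5] at i2
      omega
  exact_mod_cast h6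

theorem Dn_al {a : Fin k → ℕ} (b : Fin k → ℤ) (ha : Monotone a) (X : ℤ) :
    |Dn d a b t X - al a b t (w * X)| ≤ ∑ p ∈ (univ : Finset (Fin k × Fin k)).filter (fun p => p.1 < p.2),
      ((nc t (zz a b p.1 p.2) (yy a b p.1 (w * X)) - lv t (zz a b p.1 p.2) (yy a b p.1 (w * X))) +
        ai d w a b t p X) := by
  have hnn : ∀ p ∈ (univ : Finset (Fin k × Fin k)).filter (fun p => p.1 < p.2),
      0 ≤ (nc t (zz a b p.1 p.2) (yy a b p.1 (w * X)) - lv t (zz a b p.1 p.2) (yy a b p.1 (w * X))) +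
        ai d w a b t p X := by
    intro p _
    have h1 := lv_le_nc t (zz a b p.1 p.2) (yy a b p.1 (w * X))
    have h2 := ai_nonneg d w a b t p X
    linarith
  by_cases h : ∀ i j : Fin k, i < j → lv t (zz a b i j) (yy a b i (w * X)) ≠ 0
  · rw [al_of_lv b ha t (w * X) h]
    unfold Dn
    by_cases hD : Function.Injective (Vd d a b t X)
    · rw [if_pos hD, sub_self, abs_zero]
      exact sum_nonneg hnn
    · rw [if_neg hD, zero_sub, abs_neg, abs_one]
      rw [Function.not_injective_iff] at hD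
      obtain ⟨i, j, hij, hne⟩ := hD
      obtain ⟨i, j, hij, hlt⟩ : ∃ i j, Vd d a b t X i = Vd d a b t X j ∧ i < j := by
        rcases lt_or_gt_of_ne hne with h | h
        · exact ⟨i, j, hij, h⟩
        · exact ⟨j, i, hij.symm, h⟩
      refine le_trans ?_ (single_le_sum hnn (show (i, j) ∈ _ by simp [hlt]))
      simp only
      have h1 : ai d w a b t (i, j) X = 1 := by
        unfold ai
        rw [if_pos]
        refine ⟨?_, hij⟩
        intro h2
        rw [Co_ps] at h2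
        apply h i j hlt
        unfold lv
        rw [if_neg]
        intro h3
        apply h3 t le_rfl
        rw [h2]
      rw [h1]
      have := lv_le_nc t (zz a b i j) (yy a b i (w * X))
      linarith
  · push Not at h
    obtain ⟨i, j, hij, h0⟩ := h
    have h1 := al_le_lv b hij (ha hij.le) t (w * X)
    have h2 := al_nonneg a b t (w * X)
    have h3 : al a b t (w * X) = 0 := by linarith
    rw [h3, sub_zero]
    unfold Dn
    by_cases hD : Function.Injective (Vd d a b t X)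
    · rw [if_pos hD, abs_one]
      refine le_trans ?_ (single_le_sum hnn (show (i, j) ∈ _ by simp [hij]))
      simp only
      rw [h0, sub_zero]
      have h4 : nc t (zz a b i j) (yy a b i (w * X)) = 1 := by
        unfold nc
        rw [if_neg]
        intro h5
        exact hij.ne (hD (V_Co hd hw b (ha hij.le) h5))
      rw [h4]
      have := ai_nonneg d w a b t (i, j) X
      linarith
    · rw [if_neg hD, abs_zero]
      exact sum_nonneg hnn

end

theorem odd_mul {x y : ℤ} (hx : x % 2 = 1) (hy : y % 2 = 1) : (x * y) % 2 = 1 := by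
  rw [Int.mul_emod, hx, hy]; rfl

/-- the exceptional pairs, in an interval -/
theorem pair_count {d : ℤ} (hd : d % 2 = 1) {t : ℕ} {w κ : ℤ} (hw2 : w % 2 = 1) (hw : d * w + 2 ^ t * κ = 1)
    {a : Fin k → ℕ} (b : Fin k → ℤ) (ha : Monotone a) (u s : ℤ) (hu : u % 2 = 1) (M : ℤ) (L : ℕ) :
    ∑ x ∈ Ico M (M + L), ∑ p ∈ (univ : Finset (Fin k × Fin k)).filter (fun p => p.1 < p.2),
      ((nc t (zz a b p.1 p.2) (yy a b p.1 (w * (u * x + s))) -
        lv t (zz a b p.1 p.2) (yy a b p.1 (w * (u * x + s)))) + ai d w a b t p (u * x + s)) ≤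
      ∑ p ∈ (univ : Finset (Fin k × Fin k)).filter (fun p => p.1 < p.2),
        ((surv t (zz a b p.1 p.2) - qq t (zz a b p.1 p.2)) * L + 3 * 2 ^ t) := by
  rw [sum_comm]
  apply sum_le_sum
  intro p hp
  rw [mem_filter] at hp
  rw [sum_add_distrib, sum_sub_distrib]
  have hu' : (3 ^ a p.1 * (w * u)) % 2 = 1 := odd_mul (three_odd _) (odd_mul hw2 hu)
  have haff : ∀ x : ℤ, yy a b p.1 (w * (u * x + s)) =
      (3 ^ a p.1 * (w * u)) * x + (3 ^ a p.1 * (w * s) + b p.1) := by intro x; unfold yy; ring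
  simp only [haff]
  have h1 := (abs_le.1 (count_per_u t (nc t (zz a b p.1 p.2)) (fun x j => by
      have := nc_per t (zz a b p.1 p.2) x j
      have e : ((2 ^ t : ℕ) : ℤ) = 2 ^ t := by push_cast; rfl
      rwa [e] at this) (nc_nonneg t _) (fun x => by unfold nc; split_ifs <;> norm_num)
      (3 ^ a p.1 * (w * u)) (3 ^ a p.1 * (w * s) + b p.1) hu' M L)).2
  have h2 := (abs_le.1 (count_per_u t (lv t (zz a b p.1 p.2)) (lv_per t _) (lv_nonneg t _) (lv_le_one t _)
      (3 ^ a p.1 * (w * u)) (3 ^ a p.1 * (w * s) + b p.1) hu' M L)).1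
  have e1 : (∑ i ∈ range (2 ^ t), nc t (zz a b p.1 p.2) i) / 2 ^ t = surv t (zz a b p.1 p.2) := by
    rw [sum_nc]; field_simp
  have e2 : (∑ i ∈ range (2 ^ t), lv t (zz a b p.1 p.2) i) / 2 ^ t = qq t (zz a b p.1 p.2) := lv_mean t t le_rfl _
  rw [e1] at h1
  rw [e2] at h2
  have h3 := ai_sum hd hw b (ha hp.2.le) u s hu M L
  linarith

/-- sums of bounded periodic functions -/
theorem count_bd {t : ℕ} {h : ℤ → ℝ} (hh : Pe t h) (h1 : ∀ x, |h x| ≤ 1) (u s : ℤ) (hu : u % 2 = 1) (M : ℤ) (L : ℕ) :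
    |∑ x ∈ Ico M (M + L), h (u * x + s) - EE t h * L| ≤ 2 * 2 ^ t := by
  have h2 := count_per_u t (fun x => (1 + h x) / 2) (fun x j => by simp only [hh x j])
    (fun x => by have := (abs_le.1 (h1 x)).1; linarith) (fun x => by have := (abs_le.1 (h1 x)).2; linarith) u s hu M L
  have e1 : ∑ x ∈ Ico M (M + L), (1 + h (u * x + s)) / 2 = (L + ∑ x ∈ Ico M (M + L), h (u * x + s)) / 2 := by
    rw [← sum_div, sum_add_distrib, sum_const, Int.card_Ico, nsmul_eq_mul, mul_one]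
    congr 2
    have : (M + L - M).toNat = L := by omega
    rw [this]
  have e2 : (∑ i ∈ range (2 ^ t), (1 + h (i : ℤ)) / 2) / 2 ^ t = (1 + EE t h) / 2 := by
    unfold EE
    rw [← sum_div, sum_add_distrib, sum_const, card_range, nsmul_eq_mul, mul_one]
    push_cast
    field_simp
  rw [e1, e2] at h2
  rw [abs_le] at h2 ⊢
  constructor <;> linarith [h2.1, h2.2]

/-- the number of the exceptional elements of an interval -/
theorem exc_small (k : ℕ) {ε : ℝ} (hε : 0 < ε) : ∃ ρ : ℝ, 0 < ρ ∧ ∃ t₀ K : ℕ, ∀ t : ℕ, t₀ ≤ t →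
      ∀ (a : Fin k → ℕ) (b : Fin k → ℤ),
      (∀ i j : Fin k, i < j → |((b j - 3 ^ (a j - a i) * b i : ℤ) : ℝ)| ≤ 3 ^ (a j - a i) * Real.exp (ρ * t)) →
      ∀ L : ℕ, K * 2 ^ t ≤ L →
      ∑ p ∈ (univ : Finset (Fin k × Fin k)).filter (fun p => p.1 < p.2),
        ((surv t (zz a b p.1 p.2) - qq t (zz a b p.1 p.2)) * L + 3 * 2 ^ t) + 2 * 2 ^ t ≤ ε * L := by
  set I : Finset (Fin k × Fin k) := univ.filter (fun p => p.1 < p.2) with hI
  set m : ℝ := (I.card : ℝ) with hm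
  have hm0 : 0 ≤ m := Nat.cast_nonneg _
  set ε' : ℝ := ε / (8 * (m + 1)) with hε'
  have hm8 : 0 < 8 * (m + 1) := by linarith
  have hε'0 : 0 < ε' := div_pos hε hm8
  have hmε : m * ε' ≤ ε / 8 := by
    have i1 : ε' * (8 * (m + 1)) = ε := div_mul_cancel₀ _ hm8.ne'
    linarith
  obtain ⟨t₂, ht₂, hqq⟩ := qq_main hε'0
  obtain ⟨δ, hδ, t₃, ht₃, hsurv⟩ := surv_main hε'0
  obtain ⟨K, hK⟩ := exists_nat_ge ((3 * m + 2) * (4 / ε))
  refine ⟨δ, hδ, t₂ + t₃, K, fun t ht a b hb L hL => ?_⟩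
  have hL' : (K : ℝ) * 2 ^ t ≤ L := by exact_mod_cast hL
  have hKL : (3 * m + 2) * 2 ^ t ≤ ε / 4 * L := by
    have h3 : (3 * m + 2) * (4 / ε) * 2 ^ t ≤ L :=
      (mul_le_mul_of_nonneg_right hK (by positivity)).trans hL'
    have h4 : (3 * m + 2) * 2 ^ t = ε / 4 * ((3 * m + 2) * (4 / ε) * 2 ^ t) := by field_simp
    rw [h4]
    exact mul_le_mul_of_nonneg_left h3 (by positivity)
  have hL0 : (0 : ℝ) ≤ L := Nat.cast_nonneg _
  have h3 : ∑ p ∈ I, ((surv t (zz a b p.1 p.2) - qq t (zz a b p.1 p.2)) * L + 3 * 2 ^ t) ≤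
      m * (2 * ε' * L + 3 * 2 ^ t) := by
    refine (sum_le_card_nsmul _ _ (2 * ε' * L + 3 * 2 ^ t) ?_).trans (by rw [nsmul_eq_mul])
    intro p hp
    rw [mem_filter] at hp
    have hbe : be (zz a b p.1 p.2) ≤ Real.exp (δ * t) := by
      unfold be zz
      simp only
      rw [div_le_iff₀ (by positivity), mul_comm (Real.exp _)]
      exact hb p.1 p.2 hp.2
    have i1 := (abs_le.1 (hsurv t (by omega) (zz a b p.1 p.2) hbe)).2
    have i2 := (abs_le.1 (hqq t (by omega) (zz a b p.1 p.2))).1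
    have i3 : surv t (zz a b p.1 p.2) - qq t (zz a b p.1 p.2) ≤ 2 * ε' := by linarith
    have := mul_le_mul_of_nonneg_right i3 hL0
    linarith
  have h8 : m * (2 * ε' * L + 3 * 2 ^ t) = 2 * (m * ε') * L + 3 * m * 2 ^ t := by ring
  have h9 : 2 * (m * ε') * L ≤ ε / 4 * L := by
    apply mul_le_mul_of_nonneg_right _ hL0
    linarith
  have h10 : 0 ≤ ε * L := mul_nonneg hε.le hL0
  rw [h8] at h3
  linarith

/-- the theorem for increasing levels -/
theorem sorted (k : ℕ) {Λ ε : ℝ} (hΛ : 0 ≤ Λ) (hε : 0 < ε) :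
    ∃ ρ : ℝ, 0 < ρ ∧ ∃ t₀ K : ℕ, ∀ t : ℕ, t₀ ≤ t → ∀ (a : Fin k → ℕ) (b : Fin k → ℤ), Monotone a →
      (∀ i j : Fin k, i < j → ((a j - a i : ℕ) : ℝ) * Real.log t ≤ ρ * t) →
      (∀ i j : Fin k, i < j → |((b j - 3 ^ (a j - a i) * b i : ℤ) : ℝ)| ≤ 3 ^ (a j - a i) * Real.exp (ρ * t)) →
      ∀ d : ℤ, d % 2 = 1 → ∀ (u s : ℤ), u % 2 = 1 → ∀ (M : ℤ) (L : ℕ), K * 2 ^ t ≤ L →
      ∀ g : (Fin k → ℤ) → ℝ, (∀ z, |g z| ≤ 1) →
      (∀ z w : Fin k → ℤ, |g z - g w| ≤ Λ / √t * ∑ i, |(z i : ℝ) - w i|) →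
      |∑ x ∈ Ico M (M + L), Dn d a b t (u * x + s) * g (fun i => (a i : ℤ) + ocd d t (Yd d a b i (u * x + s))) -
        NG g t (fun i => (a i : ℤ)) * L| ≤ ε * L := by
  obtain ⟨ρ₁, hρ₁, t₁, hlev⟩ := lev_lim k hΛ (by positivity : 0 < ε / 2)
  obtain ⟨ρ₂, hρ₂, t₂, K, hexc⟩ := exc_small k (by positivity : 0 < ε / 2)
  refine ⟨min ρ₁ ρ₂, lt_min hρ₁ hρ₂, t₁ + t₂, K, fun t ht a b ha hsp hb d hd u s hu M L hL g hg1 hgL => ?_⟩
  have ht0 : (0 : ℝ) ≤ t := Nat.cast_nonneg _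
  have h1 := hlev t (by omega) a b ha (fun i j hij => (hsp i j hij).trans
    (mul_le_mul_of_nonneg_right (min_le_left _ _) ht0)) g hg1 hgL
  have h2 := hexc t (by omega) a b (fun i j hij => (hb i j hij).trans (by
    apply mul_le_mul_of_nonneg_left _ (by positivity)
    apply Real.exp_le_exp.2
    exact mul_le_mul_of_nonneg_right (min_le_right _ _) ht0)) L hL
  have hL0 : (0 : ℝ) ≤ L := Nat.cast_nonneg _
  obtain ⟨w, κ, hw2, hw⟩ := exists_inv hd t
  have hlevel : ∀ X : ℤ, (fun i => (a i : ℤ) + ocd d t (Yd d a b i X)) = Lv a b t (w * X) := by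
    intro X
    funext i
    unfold Lv
    rw [ocd_eq hd hw]
    have e : w * Yd d a b i X = yy a b i (w * X) + 2 ^ t * (-(κ * b i)) := by
      unfold Yd yy
      linear_combination b i * hw
    rw [e, oc_per]
  simp only [hlevel]
  have h3 : ∑ x ∈ Ico M (M + L), |Dn d a b t (u * x + s) - al a b t (w * (u * x + s))| ≤
      ∑ p ∈ (univ : Finset (Fin k × Fin k)).filter (fun p => p.1 < p.2),
        ((surv t (zz a b p.1 p.2) - qq t (zz a b p.1 p.2)) * L + 3 * 2 ^ t) :=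
    (sum_le_sum fun x _ => Dn_al hd hw b ha (u * x + s)).trans (pair_count hd hw2 hw b ha u s hu M L)
  have h4 : |∑ x ∈ Ico M (M + L), Dn d a b t (u * x + s) * g (Lv a b t (w * (u * x + s))) -
      ∑ x ∈ Ico M (M + L), al a b t (w * (u * x + s)) * g (Lv a b t (w * (u * x + s)))| ≤
      ∑ p ∈ (univ : Finset (Fin k × Fin k)).filter (fun p => p.1 < p.2),
        ((surv t (zz a b p.1 p.2) - qq t (zz a b p.1 p.2)) * L + 3 * 2 ^ t) := by
    rw [← sum_sub_distrib]
    refine (abs_sum_le_sum_abs _ _).trans (le_trans ?_ h3)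
    apply sum_le_sum
    intro x _
    rw [← sub_mul, abs_mul]
    have i1 := hg1 (Lv a b t (w * (u * x + s)))
    have i2 := abs_nonneg (Dn d a b t (u * x + s) - al a b t (w * (u * x + s)))
    nlinarith
  have h5 := count_bd (h := fun n => al a b t n * g (Lv a b t n)) (Pe_mul (al_per a b t) (Pe_Lv a b t g))
    (fun x => by
      rw [abs_mul]
      have i1 := al_abs a b t x
      have i2 := hg1 (Lv a b t x)
      have := mul_le_mul i1 i2 (abs_nonneg _) zero_le_one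
      linarith) (w * u) (w * s) (odd_mul hw2 hu) M L
  have hwe : ∀ x : ℤ, w * u * x + w * s = w * (u * x + s) := fun x => by ring
  simp only [hwe] at h5
  have h6 : |EE t (fun n => al a b t n * g (Lv a b t n)) * L - NG g t (fun i => (a i : ℤ)) * L| ≤ ε / 2 * L := by
    rw [← sub_mul, abs_mul, abs_of_nonneg hL0]
    exact mul_le_mul_of_nonneg_right h1 hL0
  have h7 := abs_add_three
    (∑ x ∈ Ico M (M + L), Dn d a b t (u * x + s) * g (Lv a b t (w * (u * x + s))) -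
      ∑ x ∈ Ico M (M + L), al a b t (w * (u * x + s)) * g (Lv a b t (w * (u * x + s))))
    (∑ x ∈ Ico M (M + L), al a b t (w * (u * x + s)) * g (Lv a b t (w * (u * x + s))) -
      EE t (fun n => al a b t n * g (Lv a b t n)) * L)
    (EE t (fun n => al a b t n * g (Lv a b t n)) * L - NG g t (fun i => (a i : ℤ)) * L)
  have e : (∑ x ∈ Ico M (M + L), Dn d a b t (u * x + s) * g (Lv a b t (w * (u * x + s))) -
      ∑ x ∈ Ico M (M + L), al a b t (w * (u * x + s)) * g (Lv a b t (w * (u * x + s)))) +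
    (∑ x ∈ Ico M (M + L), al a b t (w * (u * x + s)) * g (Lv a b t (w * (u * x + s))) -
      EE t (fun n => al a b t n * g (Lv a b t n)) * L) +
    (EE t (fun n => al a b t n * g (Lv a b t n)) * L - NG g t (fun i => (a i : ℤ)) * L) =
    ∑ x ∈ Ico M (M + L), Dn d a b t (u * x + s) * g (Lv a b t (w * (u * x + s))) -
      NG g t (fun i => (a i : ℤ)) * L := by
    ring
  rw [e] at h7
  refine h7.trans ?_
  clear e h3 hlev hexc hgL
  linarith

end Pool.Agent.Q74.KP
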