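import Pool.Agent.Q74.KP.Lim

/-! # Project KP: the scaling limit of the levels of `k` trajectories, the theorem -/

set_option autoImplicit false

namespace Pool.Agent.Q74.KP

open Finset
open Pool.Agent.Q158.Pair (T av step q)
open Pool.Agent.Q74.AR (oc ps qq lim lim_scale qq_main Phi)

variable {k : ℕ}

theorem act_mono (t : ℕ) {F G : (Fin k → ℤ) → ℝ} (h : ∀ a, F a ≤ G a) (a : Fin k → ℤ) :
    act k (PP k ^ t) F a ≤ act k (PP k ^ t) G a := by
  have h1 := act_nonneg t (F := G - F) (fun a => by simp [h a]) a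
  rw [map_sub] at h1
  simp only [Pi.sub_apply] at h1
  linarith

theorem act_scale (t : ℕ) (c : ℝ) (F : (Fin k → ℤ) → ℝ) (a : Fin k → ℤ) :
    act k (PP k ^ t) (fun z => c * F z) a = c * act k (PP k ^ t) F a := by
  have : (fun z => c * F z) = c • F := rfl
  rw [this, map_smul]
  rfl

theorem lim_double {ε : ℝ} {v₀ : ℕ} (h : ∀ v : ℕ, v₀ ≤ v → ∀ a : ℕ, |q v a - (2 * Phi (a / √(v : ℝ)) - 1)| ≤ ε)
    (r d : ℕ) (hr : v₀ ≤ r) : lim r d - ε ≤ q (2 * r) (2 * d) := by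
  have h1 := h (2 * r) (by omega) (2 * d)
  have e : (((2 * d : ℕ) : ℝ) / √((2 * r : ℕ) : ℝ)) = d / √((r : ℝ) / 2) := by
    have e1 : ((2 * r : ℕ) : ℝ) = 2 ^ 2 * (r / 2) := by push_cast; ring
    rw [e1, Real.sqrt_mul (by norm_num), Real.sqrt_sq (by norm_num)]
    push_cast
    rcases eq_or_ne (√((r : ℝ) / 2)) 0 with h0 | h0
    · rw [h0]; simp
    · field_simp
  rw [e] at h1
  have h2 := (abs_le.1 h1).1
  unfold lim
  linarith

theorem chain5 {x₀ x₁ x₂ x₃ x₄ x₅ e₁ e₂ e₃ e₄ e₅ : ℝ} (h1 : |x₀ - x₁| ≤ e₁) (h2 : |x₁ - x₂| ≤ e₂)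
    (h3 : |x₂ - x₃| ≤ e₃) (h4 : |x₃ - x₄| ≤ e₄) (h5 : |x₄ - x₅| ≤ e₅) :
    |x₀ - x₅| ≤ e₁ + e₂ + e₃ + e₄ + e₅ := by
  rw [abs_le] at *
  constructor <;> linarith [h1.1, h1.2, h2.1, h2.2, h3.1, h3.2, h4.1, h4.2, h5.1, h5.2]

theorem lev_lim (k : ℕ) {Λ ε : ℝ} (hΛ : 0 ≤ Λ) (hε : 0 < ε) :
    ∃ ρ : ℝ, 0 < ρ ∧ ∃ t₀ : ℕ, ∀ t : ℕ, t₀ ≤ t → ∀ (a : Fin k → ℕ) (b : Fin k → ℤ), Monotone a →
      (∀ i j : Fin k, i < j → ((a j - a i : ℕ) : ℝ) * Real.log t ≤ ρ * t) →
      ∀ g : (Fin k → ℤ) → ℝ, (∀ z, |g z| ≤ 1) →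
      (∀ z w : Fin k → ℤ, |g z - g w| ≤ Λ / √t * ∑ i, |(z i : ℝ) - w i|) →
      |EE t (fun n => al a b t n * g (Lv a b t n)) - NG g t (fun i => (a i : ℤ))| ≤ ε := by
  set I : Finset (Fin k × Fin k) := univ.filter (fun p => p.1 < p.2) with hI
  set m : ℝ := (I.card : ℝ) with hm
  have hm0 : 0 ≤ m := Nat.cast_nonneg _
  set ε' : ℝ := ε / (64 * (m + 1)) with hε'
  have hε'0 : 0 < ε' := by positivity
  obtain ⟨κ₁, hκ₁, hκ₁8, hsc⟩ := lim_scale hε'0
  set β : ℝ := ε / (16 * (Λ + 1) * (k + 1)) with hβ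
  have hβ0 : 0 < β := by positivity
  set κ : ℝ := min κ₁ (β ^ 2 / 2) with hκ
  have hκ0 : 0 < κ := by positivity
  have hκ1 : κ ≤ κ₁ := min_le_left _ _
  have hκ2 : κ ≤ β ^ 2 / 2 := min_le_right _ _
  have hfac : (0 : ℝ) < (k.factorial : ℝ) := by exact_mod_cast Nat.factorial_pos k
  obtain ⟨ρ, hρ, t₁, hcore⟩ := core k hfac hκ0 (by positivity : 0 < ε / 4)
  obtain ⟨t₂, ht₂1, hqq⟩ := qq_main hε'0
  obtain ⟨v₀, hv₀⟩ := Pool.Agent.Q296.AR.q_job ε' hε'0
  obtain ⟨n₃, hn₃⟩ := exists_nat_ge (((t₂ : ℝ) + v₀ + 2) / κ)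
  refine ⟨ρ, hρ, t₁ + 2 * t₂ + n₃ + 4, fun t ht a b ha hsp g hg1 hgL => ?_⟩
  have ht0 : (0 : ℝ) < t := by
    have : 0 < t := by omega
    exact_mod_cast this
  have hn3 : ((t₂ : ℝ) + v₀ + 2) / κ ≤ t := hn₃.trans (by exact_mod_cast (by omega : n₃ ≤ t))
  rw [div_le_iff₀ hκ0] at hn3
  have ht2' : (0 : ℝ) ≤ t₂ := Nat.cast_nonneg _
  have hv0' : (0 : ℝ) ≤ v₀ := Nat.cast_nonneg _
  set S := ⌊(1 - κ) * t⌋₊ with hS
  have hκle : κ ≤ 1 / 8 := hκ1.trans hκ₁8
  have hS1 : (S : ℝ) ≤ (1 - κ) * t := Nat.floor_le (mul_nonneg (by linarith) ht0.le)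
  have hS2 : (1 - κ) * t < S + 1 := Nat.lt_floor_add_one _
  have hSt : S ≤ t := by
    have : (S : ℝ) ≤ t := by nlinarith
    exact_mod_cast this
  obtain ⟨r, hr⟩ := Nat.exists_eq_add_of_le hSt
  have hrR : (t : ℝ) = S + r := by exact_mod_cast hr
  have hr1 : κ * t ≤ r := by linarith
  have hr2 : (r : ℝ) ≤ κ * t + 1 := by linarith
  have hSt2 : t₂ ≤ S := by
    have h1 : (2 * t₂ + 4 : ℝ) ≤ t := by exact_mod_cast (by omega : 2 * t₂ + 4 ≤ t)
    have h2 : ((t₂ : ℝ)) ≤ S := by nlinarith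
    exact_mod_cast h2
  have hrt2 : t₂ ≤ r := by
    have h2 : ((t₂ : ℝ)) ≤ r := by linarith
    exact_mod_cast h2
  have hrv : v₀ ≤ r := by
    have h2 : ((v₀ : ℝ)) ≤ r := by linarith
    exact_mod_cast h2
  -- pairs
  have hq1 : ∀ z : ℕ × ℤ, qq S z - qq t z ≤ 3 * ε' := by
    intro z
    have h1 := (abs_le.1 (hqq S hSt2 z)).2
    have h2 := (abs_le.1 (hqq t (by omega) z)).1
    have h3 := (abs_le.1 (hsc t ((S : ℝ) / 2) z.1 ht0 (by
      rw [abs_le]
      constructor <;> nlinarith))).2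
    have h4 : (2 * Phi (z.1 / √((S : ℝ) / 2)) - 1) = lim S z.1 := rfl
    rw [h4] at h3
    linarith
  have hq2 : ∀ z : ℕ × ℤ, qq r z - 2 * ε' ≤ q (2 * r) (2 * z.1) := by
    intro z
    have h1 := (abs_le.1 (hqq r hrt2 z)).2
    have h2 := lim_double hv₀ r z.1 hrv
    linarith
  set r' := r / 2 with hr'
  have hrr : |(r : ℝ) / 2 - r'| ≤ 1 / 2 := by
    have h1 : 2 * r' ≤ r := by omega
    have h2 : r ≤ 2 * r' + 1 := by omega
    have h1' : (2 * r' : ℝ) ≤ r := by exact_mod_cast h1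
    have h2' : (r : ℝ) ≤ 2 * r' + 1 := by exact_mod_cast h2
    rw [abs_le]
    constructor <;> linarith
  set ℓ : ℝ := Λ / √t with hℓ
  have hst : 0 < √(t : ℝ) := Real.sqrt_pos.2 ht0
  have hℓ0 : 0 ≤ ℓ := by positivity
  have hD : ℓ * (k * √((r : ℝ) + 1)) ≤ ε / 16 := by
    have h1 : √((r : ℝ) + 1) ≤ β * √t := by
      rw [← Real.sqrt_sq hβ0.le, ← Real.sqrt_mul (by positivity)]
      apply Real.sqrt_le_sqrt
      nlinarith
    have h2 : ℓ * (k * √((r : ℝ) + 1)) ≤ ℓ * (k * (β * √t)) := by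
      apply mul_le_mul_of_nonneg_left _ hℓ0
      exact mul_le_mul_of_nonneg_left h1 (Nat.cast_nonneg _)
    refine h2.trans ?_
    have h3 : ℓ * (k * (β * √t)) = Λ * k * β := by
      rw [hℓ]; field_simp
    rw [h3, hβ]
    have hk0 : (0 : ℝ) ≤ k := Nat.cast_nonneg _
    rw [mul_div_assoc', div_le_div_iff₀ (by positivity) (by norm_num)]
    have : Λ * k ≤ (Λ + 1) * (k + 1) := by nlinarith
    nlinarith
  set gt : (Fin k → ℤ) → ℝ := fun z => g (fun i => z i + r') with hgt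
  have hgt1 : ∀ z, |gt z| ≤ 1 := fun z => hg1 _
  have hNC0 : ∀ z : Fin k → ℤ, 0 ≤ NG (fun _ => (1 : ℝ)) r z := NG_nonneg (fun _ => zero_le_one) r
  have hNC1 : ∀ z : Fin k → ℤ, NG (fun _ => (1 : ℝ)) r z ≤ 1 := fun z =>
    (le_abs_self _).trans (NG_abs (fun _ => by rw [abs_one]) r z)
  -- step 1
  have s1 : |EE t (fun n => al a b t n * g (Lv a b t n)) - EE t (fun n => al a b t n * gt (Lv a b S n))| ≤ ε / 16 := by
    rw [← EE_sub]
    have h1 : ∀ n, |al a b t n * g (Lv a b t n) - al a b t n * gt (Lv a b S n)| ≤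
        ℓ * ∑ i, |(Lv a b (S + r) n i : ℝ) - (Lv a b S n i + r' : ℤ)| := by
      intro n
      rw [← mul_sub, abs_mul]
      have i1 := al_abs a b t n
      have i2 := hgL (Lv a b t n) (fun i => Lv a b S n i + r')
      have i3 := abs_nonneg (g (Lv a b t n) - gt (Lv a b S n))
      rw [← hr]
      refine le_trans ?_ i2
      show |al a b t n| * |g (Lv a b t n) - gt (Lv a b S n)| ≤ |g (Lv a b t n) - gt (Lv a b S n)|
      nlinarith
    refine (EE_abs_le t h1).trans ?_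
    rw [EE_mul]
    refine le_trans ?_ hD
    apply mul_le_mul_of_nonneg_left _ hℓ0
    rw [hr]
    exact EE_dist a b S r r' hrr
  -- step 2
  have hloss := EE_loss b ha hSt
  have hcard : ∀ (f : Fin k × Fin k → ℝ) (c : ℝ), (∀ p, f p ≤ c) → ∑ p ∈ I, f p ≤ m * c := by
    intro f c h
    refine (sum_le_card_nsmul _ _ c fun p _ => h p).trans (by rw [nsmul_eq_mul])
  have s2 : |EE t (fun n => al a b t n * gt (Lv a b S n)) - EE t (fun n => al a b S n * gt (Lv a b S n))| ≤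
      m * (3 * ε') := by
    rw [← EE_sub]
    have h1 : ∀ n, |al a b t n * gt (Lv a b S n) - al a b S n * gt (Lv a b S n)| ≤ al a b S n - al a b t n := by
      intro n
      rw [← sub_mul, abs_mul]
      have i1 := al_anti a b hSt n
      rw [abs_of_nonpos (by linarith)]
      have i2 := hgt1 (Lv a b S n)
      nlinarith
    refine (EE_abs_le t h1).trans ?_
    rw [EE_sub]
    exact hloss.trans (hcard _ _ fun p => hq1 _)
  -- step 3
  have s3 : |EE t (fun n => al a b S n * gt (Lv a b S n)) -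
      EE t (fun n => al a b S n * (gt (Lv a b S n) * NG (fun _ => 1) r (Lv a b S n)))| ≤ m * (3 * ε' + 2 * ε') := by
    rw [← EE_sub]
    have h1 : ∀ n, |al a b S n * gt (Lv a b S n) - al a b S n * (gt (Lv a b S n) * NG (fun _ => 1) r (Lv a b S n))| ≤
        al a b S n * (1 - NG (fun _ => 1) r (Lv a b S n)) := by
      intro n
      have e : al a b S n * gt (Lv a b S n) - al a b S n * (gt (Lv a b S n) * NG (fun _ => 1) r (Lv a b S n)) =
          al a b S n * (gt (Lv a b S n) * (1 - NG (fun _ => 1) r (Lv a b S n))) := by ring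
      rw [e, abs_mul, abs_mul, abs_of_nonneg (al_nonneg a b S n)]
      apply mul_le_mul_of_nonneg_left _ (al_nonneg a b S n)
      have i1 := hNC1 (Lv a b S n)
      rw [abs_of_nonneg (by linarith : 0 ≤ 1 - NG (fun _ => (1 : ℝ)) r (Lv a b S n))]
      have i2 := hgt1 (Lv a b S n)
      nlinarith
    refine (EE_abs_le t h1).trans ?_
    refine (EE_end b ha hr.symm hq2).trans ?_
    exact hcard _ _ fun p => by linarith [hq1 (zz a b p.1 p.2)]
  -- step 4
  have s4 : |EE t (fun n => al a b S n * (gt (Lv a b S n) * NG (fun _ => 1) r (Lv a b S n))) -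
      EE t (fun n => al a b S n * NG g r (Lv a b S n))| ≤ ε / 16 := by
    rw [← EE_sub]
    apply EE_bd
    intro n
    rw [← mul_sub, abs_mul]
    have i1 := al_abs a b S n
    have i2 : |gt (Lv a b S n) * NG (fun _ => 1) r (Lv a b S n) - NG g r (Lv a b S n)| ≤ ε / 16 := by
      rw [← NG_const, abs_sub_comm]
      refine (NG_close g (fun _ => gt (Lv a b S n)) r (Lv a b S n)).trans ?_
      have h2 : act k (PP k ^ r) (fun z => |g z - gt (Lv a b S n)|) (Lv a b S n) ≤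
          act k (PP k ^ r) (fun z => ℓ * ∑ i, |(z i : ℝ) - (Lv a b S n i + r' : ℤ)|) (Lv a b S n) := by
        apply act_mono
        intro z
        exact hgL z (fun i => Lv a b S n i + r')
      refine h2.trans ?_
      rw [act_scale]
      refine le_trans ?_ hD
      exact mul_le_mul_of_nonneg_left (act_dist r r' hrr _) hℓ0
    have i3 := abs_nonneg (gt (Lv a b S n) * NG (fun _ => 1) r (Lv a b S n) - NG g r (Lv a b S n))
    nlinarith [abs_nonneg (al a b S n)]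
  -- step 5
  have s5 : |EE t (fun n => al a b S n * NG g r (Lv a b S n)) - NG g t (fun i => (a i : ℤ))| ≤ ε / 4 := by
    have h := hcore t S (by omega) hS1 a b ha hsp (Fa g) (Fa_An g) (fun z => by
      have := Fa_abs hg1 z
      rwa [mul_one] at this)
    have e0 : t - S = r := by omega
    have hmono : Monotone (fun i => (a i : ℤ)) := by
      intro i j hij
      have := ha hij
      show (a i : ℤ) ≤ a j
      exact_mod_cast this
    rw [e0, ← NG_eq g t _ hmono] at h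
    have e1 : (fun n => al a b S n * act k (PP k ^ r) (Fa g) (Lv a b S n)) =
        fun n => al a b S n * NG g r (Lv a b S n) := by
      funext n
      by_cases h0 : al a b S n = 0
      · rw [h0, zero_mul, zero_mul]
      · rw [NG_eq g r _ ((al_one h0).2 S le_rfl).monotone]
    rw [e1] at h
    exact h
  have hmε : m * ε' ≤ ε / 64 := by
    have i1 : ε' * (64 * (m + 1)) = ε := div_mul_cancel₀ _ (ne_of_gt (by linarith))
    linarith
  refine (chain5 s1 s2 s3 s4 s5).trans ?_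
  clear s1 s2 s3 s4 s5
  linarith

end Pool.Agent.Q74.KP
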