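import Pool.Agent.Q74.KP.Op

/-! # Project KP: independent walkers which do not meet -/

set_option autoImplicit false

namespace Pool.Agent.Q74.KP

open Finset

variable {k : ℕ}

/-- the walkers of `A` move one step to the right -/
def sh (a : Fin k → ℤ) (A : Finset (Fin k)) : Fin k → ℤ := fun i => a i + if i ∈ A then 1 else 0

open Classical in
/-- the expected value of `g` at the places after `t` steps of `k` independent walkers which start at `a`
and stay or move one to the right with probability `1 / 2` each at every step, on the event that they are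
at pairwise distinct places at the times `0, ..., t` -/
noncomputable def NG (g : (Fin k → ℤ) → ℝ) : ℕ → (Fin k → ℤ) → ℝ
  | 0 => fun a => if Function.Injective a then g a else 0
  | t + 1 => fun a => if Function.Injective a then (∑ A : Finset (Fin k), NG g t (sh a A)) / 2 ^ k else 0

theorem NG_zero {g : (Fin k → ℤ) → ℝ} {a : Fin k → ℤ} (h : Function.Injective a) : NG g 0 a = g a := by
  simp [NG, h]

theorem NG_succ {g : (Fin k → ℤ) → ℝ} {a : Fin k → ℤ} (h : Function.Injective a) (t : ℕ) :
    NG g (t + 1) a = (∑ A : Finset (Fin k), NG g t (sh a A)) / 2 ^ k := by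
  simp [NG, h]

theorem NG_not {g : (Fin k → ℤ) → ℝ} {a : Fin k → ℤ} (h : ¬ Function.Injective a) (t : ℕ) :
    NG g t a = 0 := by
  cases t <;> simp [NG, h]

theorem card_sets (k : ℕ) : ((Finset.univ : Finset (Finset (Fin k))).card : ℝ) = 2 ^ k := by
  rw [Finset.card_univ, Fintype.card_finset, Fintype.card_fin]
  push_cast
  rfl

theorem NG_abs {g : (Fin k → ℤ) → ℝ} {K : ℝ} (hg : ∀ a, |g a| ≤ K) (t : ℕ) : ∀ a, |NG g t a| ≤ K := by
  have hK : 0 ≤ K := (abs_nonneg _).trans (hg 0)
  induction t with
  | zero =>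
    intro a
    by_cases h : Function.Injective a
    · rw [NG_zero h]; exact hg a
    · rw [NG_not h, abs_zero]; exact hK
  | succ n ih =>
    intro a
    by_cases h : Function.Injective a
    · rw [NG_succ h, abs_div, abs_of_pos (by positivity : (0 : ℝ) < 2 ^ k), div_le_iff₀ (by positivity)]
      refine (abs_sum_le_sum_abs _ _).trans ?_
      refine (sum_le_sum fun A _ => ih (sh a A)).trans ?_
      rw [sum_const, nsmul_eq_mul, card_sets, mul_comm]
    · rw [NG_not h, abs_zero]; exact hK

theorem NG_nonneg {g : (Fin k → ℤ) → ℝ} (hg : ∀ a, 0 ≤ g a) (t : ℕ) : ∀ a, 0 ≤ NG g t a := by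
  induction t with
  | zero =>
    intro a
    by_cases h : Function.Injective a
    · rw [NG_zero h]; exact hg a
    · rw [NG_not h]
  | succ n ih =>
    intro a
    by_cases h : Function.Injective a
    · rw [NG_succ h]
      exact div_nonneg (sum_nonneg fun A _ => ih _) (by positivity)
    · rw [NG_not h]

/-! ### the operators -/

theorem act_prodX (A : Finset (Fin k)) : ∀ (F : (Fin k → ℤ) → ℝ) (a : Fin k → ℤ),
    act k (∏ i ∈ A, Xo i) F a = F (sh a A) := by
  classical
  induction A using Finset.induction_on with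
  | empty =>
    intro F a
    rw [prod_empty, act_one]
    congr 1
    funext i
    simp [sh]
  | insert i A hi ih =>
    intro F a
    rw [prod_insert hi, mul_comm, act_mul, ih, act_X]
    congr 1
    funext j
    by_cases hj : j = i
    · subst hj
      simp [sh, hi]
    · simp [sh, hj]

theorem PP_eq (k : ℕ) : PP k = (1 / 2 : ℝ) ^ k • ∑ A : Finset (Fin k), ∏ i ∈ A, Xo i := by
  have e : ∀ i : Fin k, Po i = (1 / 2 : ℝ) • (1 + Xo i) := by
    intro i
    unfold Po Do
    rw [smul_add, smul_sub]
    have : (1 : Rg k) = (1 / 2 : ℝ) • (1 : Rg k) + (1 / 2 : ℝ) • (1 : Rg k) := by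
      rw [← add_smul]; norm_num
    nth_rw 1 [this]
    abel
  unfold PP
  simp only [e]
  have h : ∀ (s : Finset (Fin k)) (f : Fin k → Rg k), ∏ i ∈ s, (1 / 2 : ℝ) • f i =
      (1 / 2 : ℝ) ^ s.card • ∏ i ∈ s, f i := by
    intro s f
    classical
    induction s using Finset.induction_on with
    | empty => simp
    | insert i B hi ih =>
      rw [prod_insert hi, prod_insert hi, ih, card_insert_of_notMem hi, smul_mul_smul_comm, pow_succ']
  rw [h, card_univ, Fintype.card_fin, prod_one_add, powerset_univ]

theorem act_PP (F : (Fin k → ℤ) → ℝ) (a : Fin k → ℤ) :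
    act k (PP k) F a = (∑ A : Finset (Fin k), F (sh a A)) / 2 ^ k := by
  rw [PP_eq, act_smul, act_sum]
  simp only [act_prodX]
  rw [one_div, inv_pow]
  ring

/-- antisymmetric functions -/
def An (F : (Fin k → ℤ) → ℝ) : Prop := ∀ i j : Fin k, i ≠ j → ∀ a, F (a ∘ Equiv.swap i j) = - F a

theorem An_zero {F : (Fin k → ℤ) → ℝ} (h : An F) {a : Fin k → ℤ} (ha : ¬ Function.Injective a) : F a = 0 := by
  rw [Function.not_injective_iff] at ha
  obtain ⟨i, j, hij, hne⟩ := ha
  have h1 := h i j hne a
  have h2 : a ∘ Equiv.swap i j = a := by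
    funext l
    simp only [Function.comp]
    rcases eq_or_ne l i with rfl | hi
    · rw [Equiv.swap_apply_left, hij]
    · rcases eq_or_ne l j with rfl | hj
      · rw [Equiv.swap_apply_right, hij]
      · rw [Equiv.swap_apply_of_ne_of_ne hi hj]
  rw [h2] at h1
  linarith

theorem sh_comp (a : Fin k → ℤ) (π : Equiv.Perm (Fin k)) (A : Finset (Fin k)) :
    sh (a ∘ π) A = sh a (A.map π.toEmbedding) ∘ π := by
  funext i
  simp [sh, Function.comp]

theorem sum_map (π : Equiv.Perm (Fin k)) (f : Finset (Fin k) → ℝ) :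
    ∑ A : Finset (Fin k), f (A.map π.toEmbedding) = ∑ A : Finset (Fin k), f A := by
  exact Equiv.sum_comp (Equiv.finsetCongr π) f

theorem An_act {F : (Fin k → ℤ) → ℝ} (h : An F) : An (act k (PP k) F) := by
  intro i j hij a
  rw [act_PP, act_PP]
  simp only [sh_comp, h i j hij]
  rw [sum_map (Equiv.swap i j) (fun A => -F (sh a A)), sum_neg_distrib]
  ring

theorem An_pow {F : (Fin k → ℤ) → ℝ} (h : An F) (t : ℕ) : An (act k (PP k ^ t) F) := by
  induction t with
  | zero => rw [pow_zero, act_one]; exact h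
  | succ n ih => rw [pow_succ', act_mul]; exact An_act ih

/-- permutations -/
theorem NG_perm (π : Equiv.Perm (Fin k)) (g : (Fin k → ℤ) → ℝ) (t : ℕ) : ∀ a : Fin k → ℤ,
    NG g t (a ∘ π) = NG (fun z => g (z ∘ π)) t a := by
  induction t with
  | zero =>
    intro a
    by_cases h : Function.Injective a
    · rw [NG_zero h, NG_zero (h.comp π.injective)]
    · rw [NG_not h, NG_not]
      intro h2
      exact h ((Equiv.injective_comp π a).1 h2)
  | succ n ih =>
    intro a
    by_cases h : Function.Injective a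
    · rw [NG_succ h, NG_succ (h.comp π.injective)]
      congr 1
      rw [← sum_map π (fun A => NG (fun z => g (z ∘ π)) n (sh a A))]
      apply sum_congr rfl
      intro A _
      rw [sh_comp, ih]
    · rw [NG_not h, NG_not]
      intro h2
      exact h ((Equiv.injective_comp π a).1 h2)

open Classical in
/-- the antisymmetric extension of `g` -/
noncomputable def Fa (g : (Fin k → ℤ) → ℝ) (z : Fin k → ℤ) : ℝ :=
  ∑ π : Equiv.Perm (Fin k), ((Equiv.Perm.sign π : ℤ) : ℝ) * (if StrictMono (z ∘ π) then g (z ∘ π) else 0)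

theorem Fa_An (g : (Fin k → ℤ) → ℝ) : An (Fa g) := by
  intro i j hij a
  unfold Fa
  rw [← sum_neg_distrib]
  rw [← Equiv.sum_comp (Equiv.mulLeft (Equiv.swap i j)) (fun π => -(((Equiv.Perm.sign π : ℤ) : ℝ) *
    (if StrictMono (a ∘ π) then g (a ∘ π) else 0)))]
  apply sum_congr rfl
  intro π _
  have e : a ∘ ⇑(Equiv.mulLeft (Equiv.swap i j) π) = (a ∘ Equiv.swap i j) ∘ π := by
    funext l
    simp [Function.comp, Equiv.Perm.mul_apply]
  rw [e]
  have e2 : Equiv.Perm.sign (Equiv.mulLeft (Equiv.swap i j) π) = - Equiv.Perm.sign π := by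
    simp [Equiv.Perm.sign_mul, Equiv.Perm.sign_swap hij]
  rw [e2]
  push_cast
  ring

theorem Fa_abs {g : (Fin k → ℤ) → ℝ} {K : ℝ} (hg : ∀ a, |g a| ≤ K) (z : Fin k → ℤ) :
    |Fa g z| ≤ (k.factorial : ℝ) * K := by
  have hK : 0 ≤ K := (abs_nonneg _).trans (hg 0)
  unfold Fa
  refine (abs_sum_le_sum_abs _ _).trans ?_
  refine (sum_le_card_nsmul _ _ K ?_).trans ?_
  · intro π _
    rw [abs_mul]
    have h1 : |((Equiv.Perm.sign π : ℤ) : ℝ)| = 1 := by
      rcases Int.units_eq_one_or (Equiv.Perm.sign π) with h | h <;> simp [h]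
    rw [h1, one_mul]
    split_ifs
    · exact hg _
    · rw [abs_zero]; exact hK
  · rw [nsmul_eq_mul, card_univ, Fintype.card_perm, Fintype.card_fin]

theorem Fa_mono {g : (Fin k → ℤ) → ℝ} {z : Fin k → ℤ} (h : StrictMono z) : Fa g z = g z := by
  unfold Fa
  rw [sum_eq_single (1 : Equiv.Perm (Fin k))]
  · have : z ∘ ⇑(1 : Equiv.Perm (Fin k)) = z := by funext l; simp
    rw [this, if_pos h]
    simp
  · intro π _ hπ
    rw [if_neg, mul_zero]
    intro h2
    apply hπ
    have h3 : z ∘ π = z := (StrictMono.range_inj h2 h).1 (by rw [EquivLike.range_comp])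
    ext l
    have h4 := congrFun h3 l
    simp only [Function.comp] at h4
    have h5 := h.injective h4
    simp [h5]
  · intro h1
    exact absurd (mem_univ _) h1

theorem sh_mono {a : Fin k → ℤ} (h : StrictMono a) (A : Finset (Fin k)) : Monotone (sh a A) := by
  intro i j hij
  rcases eq_or_lt_of_le hij with rfl | hlt
  · exact le_rfl
  · have := h hlt
    simp only [sh]
    split_ifs <;> omega

/-- the formula of Karlin and McGregor -/
theorem NG_eq (g : (Fin k → ℤ) → ℝ) (t : ℕ) : ∀ a : Fin k → ℤ, Monotone a →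
    NG g t a = act k (PP k ^ t) (Fa g) a := by
  induction t with
  | zero =>
    intro a ha
    rw [pow_zero, act_one]
    by_cases h : Function.Injective a
    · rw [NG_zero h, Fa_mono (ha.strictMono_of_injective h)]
    · rw [NG_not h, An_zero (Fa_An g) h]
  | succ n ih =>
    intro a ha
    by_cases h : Function.Injective a
    · rw [NG_succ h, pow_succ', act_mul, act_PP]
      congr 1
      apply sum_congr rfl
      intro A _
      exact ih _ (sh_mono (ha.strictMono_of_injective h) A)
    · rw [NG_not h, An_zero (An_pow (Fa_An g) _) h]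

end Pool.Agent.Q74.KP
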