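import Pool.Agent.Q74.AR.Bin

/-! # Project KP (helper74): difference operators on the lattice and the averages of `k` independent walkers -/

set_option autoImplicit false

namespace Pool.Agent.Q74.KP

open Finset
open Pool.Agent.Q74.AR (bE bE_zero bE_succ bE_mono bE_add bE_mul bE_const bE_sq)

/-! ### the derivative of the binomial average -/

theorem bE_der (t : ℕ) : ∀ f : ℕ → ℝ, ((t : ℝ) + 1) * (bE t (fun m => f (m + 1)) - bE t f) =
    2 * bE (t + 1) (fun m => (2 * (m : ℝ) - (t + 1)) * f m) := by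
  induction t with
  | zero =>
    intro f
    simp only [bE_zero, bE_succ]
    push_cast
    ring
  | succ n ih =>
    intro f
    have h1 := ih f
    have h2 := ih (fun m => f (m + 1))
    have e1 : bE (n + 1 + 1) (fun m => (2 * (m : ℝ) - (((n + 1 : ℕ) : ℝ) + 1)) * f m) =
        (bE (n + 1) (fun m => (2 * (m : ℝ) - (n + 1)) * f m + (-1) * f m) +
          bE (n + 1) (fun m => (2 * (m : ℝ) - (n + 1)) * f (m + 1) + f (m + 1))) / 2 := by
      rw [bE_succ (n + 1)]
      congr 3
      · funext m; push_cast; ring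
      · funext m; push_cast; ring
    rw [e1, bE_add (n + 1) (fun m => (2 * (m : ℝ) - (n + 1)) * f m), bE_mul,
      bE_add (n + 1) (fun m => (2 * (m : ℝ) - (n + 1)) * f (m + 1))]
    have e2 : bE (n + 1) f = (bE n f + bE n (fun m => f (m + 1))) / 2 := bE_succ n f
    have e3 : bE (n + 1) (fun m => f (m + 1)) = (bE n (fun m => f (m + 1)) + bE n (fun m => f (m + 1 + 1))) / 2 :=
      bE_succ n _
    rw [e2, e3]
    push_cast
    linear_combination (1 / 2) * h1 + (1 / 2) * h2

theorem bE_abs (t : ℕ) (f : ℕ → ℝ) : |bE t f| ≤ bE t (fun m => |f m|) := by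
  rw [abs_le]
  constructor
  · have h := bE_mono t (fun m => (-1) * |f m|) f (fun m => by
      have := neg_abs_le (f m); linarith)
    rw [bE_mul] at h
    linarith
  · exact bE_mono t _ _ fun m => le_abs_self _

theorem bE_bd (t : ℕ) {f : ℕ → ℝ} {K : ℝ} (hf : ∀ m, |f m| ≤ K) : |bE t f| ≤ K := by
  refine (bE_abs t f).trans ?_
  have := bE_mono t _ (fun _ => K) hf
  rwa [bE_const] at this

theorem bE_der_bd (t : ℕ) {f : ℕ → ℝ} {K : ℝ} (hf : ∀ m, |f m| ≤ K) :
    |bE t (fun m => f (m + 1)) - bE t f| ≤ 2 / √(t + 1) * K := by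
  have hK : 0 ≤ K := (abs_nonneg _).trans (hf 0)
  have ht : (0 : ℝ) < (t : ℝ) + 1 := by positivity
  have hs : 0 < √((t : ℝ) + 1) := Real.sqrt_pos.2 ht
  have hs2 : √((t : ℝ) + 1) ^ 2 = t + 1 := Real.sq_sqrt ht.le
  have h1 := bE_der t f
  have h2 : |bE (t + 1) (fun m => (2 * (m : ℝ) - (t + 1)) * f m)| ≤ K * √((t : ℝ) + 1) := by
    refine (bE_abs _ _).trans ?_
    have h3 : bE (t + 1) (fun m => |(2 * (m : ℝ) - (t + 1)) * f m|) ≤
        bE (t + 1) (fun m => K * (√((t : ℝ) + 1) / 2 + 2 / √((t : ℝ) + 1) * ((m : ℝ) - (t + 1) / 2) ^ 2)) := by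
      apply bE_mono
      intro m
      rw [abs_mul, mul_comm]
      apply mul_le_mul (hf m) _ (abs_nonneg _) hK
      have e : (2 * (m : ℝ) - (t + 1)) = 2 * ((m : ℝ) - (t + 1) / 2) := by ring
      rw [e, abs_mul, abs_two]
      set x := (m : ℝ) - (t + 1) / 2
      have h5 : √((t : ℝ) + 1) / 2 + 2 / √((t : ℝ) + 1) * x ^ 2 - 2 * |x| =
          (√((t : ℝ) + 1) - 2 * |x|) ^ 2 / (2 * √((t : ℝ) + 1)) := by
        have hx : |x| ^ 2 = x ^ 2 := sq_abs x
        field_simp
        rw [← hx]
        ring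
      have h6 : 0 ≤ (√((t : ℝ) + 1) - 2 * |x|) ^ 2 / (2 * √((t : ℝ) + 1)) := by positivity
      linarith
    refine h3.trans (le_of_eq ?_)
    rw [bE_mul, bE_add (t + 1) (fun _ => √((t : ℝ) + 1) / 2), bE_const, bE_mul, bE_sq]
    push_cast
    rw [sub_self]
    have : 2 / √((t : ℝ) + 1) * (((t : ℝ) + 1) / 4 + 0 ^ 2) = √((t : ℝ) + 1) / 2 := by
      rw [div_mul_eq_mul_div, div_eq_iff hs.ne']
      nlinarith
    rw [this]
    ring
  have h3 : |((t : ℝ) + 1) * (bE t (fun m => f (m + 1)) - bE t f)| ≤ 2 * (K * √((t : ℝ) + 1)) := by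
    rw [h1, abs_mul, abs_two]
    linarith
  rw [abs_mul, abs_of_pos ht] at h3
  have h4 : 2 * (K * √((t : ℝ) + 1)) = ((t : ℝ) + 1) * (2 / √((t : ℝ) + 1) * K) := by
    rw [← hs2]
    field_simp
    rw [Real.sqrt_sq hs.le]
  rw [h4] at h3
  exact le_of_mul_le_mul_left h3 ht

/-! ### the operators -/

variable {k : ℕ}

/-- the translations -/
def tr (k : ℕ) : Multiplicative (Fin k → ℤ) →* Module.End ℝ ((Fin k → ℤ) → ℝ) where
  toFun g :=
    { toFun := fun F a => F (a + g.toAdd)
      map_add' := fun F G => rfl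
      map_smul' := fun c F => rfl }
  map_one' := by
    apply LinearMap.ext
    intro F
    funext a
    simp
  map_mul' g h := by
    apply LinearMap.ext
    intro F
    funext a
    show F (a + (g.toAdd + h.toAdd)) = F (a + g.toAdd + h.toAdd)
    rw [add_assoc]

/-- the ring of the difference operators -/
abbrev Rg (k : ℕ) := AddMonoidAlgebra ℝ (Fin k → ℤ)

/-- the action on functions -/
noncomputable def act (k : ℕ) : Rg k →ₐ[ℝ] Module.End ℝ ((Fin k → ℤ) → ℝ) :=
  AddMonoidAlgebra.lift ℝ (Module.End ℝ ((Fin k → ℤ) → ℝ)) (Fin k → ℤ) (tr k)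

theorem act_single (g : Fin k → ℤ) (F : (Fin k → ℤ) → ℝ) (a : Fin k → ℤ) :
    act k (AddMonoidAlgebra.single g 1) F a = F (a + g) := by
  unfold act
  rw [AddMonoidAlgebra.lift_single, one_smul]
  rfl

theorem act_mul (p r : Rg k) (F : (Fin k → ℤ) → ℝ) : act k (p * r) F = act k p (act k r F) := by
  rw [map_mul]
  rfl

theorem act_add (p r : Rg k) (F : (Fin k → ℤ) → ℝ) (a : Fin k → ℤ) :
    act k (p + r) F a = act k p F a + act k r F a := by
  rw [map_add]
  rfl

theorem act_sub (p r : Rg k) (F : (Fin k → ℤ) → ℝ) (a : Fin k → ℤ) :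
    act k (p - r) F a = act k p F a - act k r F a := by
  rw [map_sub]
  rfl

theorem act_smul (c : ℝ) (p : Rg k) (F : (Fin k → ℤ) → ℝ) (a : Fin k → ℤ) :
    act k (c • p) F a = c * act k p F a := by
  rw [map_smul]
  rfl

theorem act_one (F : (Fin k → ℤ) → ℝ) : act k 1 F = F := by
  rw [map_one]
  rfl

theorem act_sum {ι : Type*} (s : Finset ι) (p : ι → Rg k) (F : (Fin k → ℤ) → ℝ) (a : Fin k → ℤ) :
    act k (∑ i ∈ s, p i) F a = ∑ i ∈ s, act k (p i) F a := by
  rw [map_sum]
  simp [LinearMap.sum_apply, Finset.sum_apply]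

/-- the operator has norm at most `C` -/
def Bd (p : Rg k) (C : ℝ) : Prop :=
  ∀ (F : (Fin k → ℤ) → ℝ) (K : ℝ), (∀ a, |F a| ≤ K) → ∀ a, |act k p F a| ≤ C * K

theorem Bd_one : Bd (1 : Rg k) 1 := by
  intro F K h a
  rw [act_one, one_mul]
  exact h a

theorem Bd_mul {p r : Rg k} {C D : ℝ} (h1 : Bd p C) (h2 : Bd r D) : Bd (p * r) (C * D) := by
  intro F K h a
  rw [act_mul, mul_assoc]
  exact h1 _ _ (h2 F K h) a

theorem Bd_add {p r : Rg k} {C D : ℝ} (h1 : Bd p C) (h2 : Bd r D) : Bd (p + r) (C + D) := by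
  intro F K h a
  rw [act_add, add_mul]
  exact (abs_add_le _ _).trans (add_le_add (h1 F K h a) (h2 F K h a))

theorem Bd_sub {p r : Rg k} {C D : ℝ} (h1 : Bd p C) (h2 : Bd r D) : Bd (p - r) (C + D) := by
  intro F K h a
  rw [act_sub, add_mul]
  exact (abs_sub _ _).trans (add_le_add (h1 F K h a) (h2 F K h a))

theorem Bd_smul (c : ℝ) {p : Rg k} {C : ℝ} (h1 : Bd p C) : Bd (c • p) (|c| * C) := by
  intro F K h a
  rw [act_smul, abs_mul, mul_assoc]
  exact mul_le_mul_of_nonneg_left (h1 F K h a) (abs_nonneg _)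

theorem Bd_mono {p : Rg k} {C D : ℝ} (h1 : Bd p C) (h : C ≤ D) : Bd p D := by
  intro F K hF a
  have hK : 0 ≤ K := (abs_nonneg _).trans (hF 0)
  exact (h1 F K hF a).trans (mul_le_mul_of_nonneg_right h hK)

theorem Bd_sum {ι : Type*} (s : Finset ι) (p : ι → Rg k) (C : ι → ℝ) (h : ∀ i ∈ s, Bd (p i) (C i)) :
    Bd (∑ i ∈ s, p i) (∑ i ∈ s, C i) := by
  intro F K hF a
  rw [act_sum, sum_mul]
  exact (abs_sum_le_sum_abs _ _).trans (sum_le_sum fun i hi => h i hi F K hF a)

theorem Bd_pow {p : Rg k} (h : Bd p 1) (n : ℕ) : Bd (p ^ n) 1 := by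
  induction n with
  | zero => rw [pow_zero]; exact Bd_one
  | succ n ih =>
    rw [pow_succ]
    have := Bd_mul ih h
    rwa [one_mul] at this

theorem Bd_prod {ι : Type*} (s : Finset ι) (p : ι → Rg k) (h : ∀ i ∈ s, Bd (p i) 1) :
    Bd (∏ i ∈ s, p i) 1 := by
  classical
  induction s using Finset.induction_on with
  | empty => rw [prod_empty]; exact Bd_one
  | insert i s hi ih =>
    rw [prod_insert hi]
    have := Bd_mul (h i (mem_insert_self i s)) (ih fun j hj => h j (mem_insert_of_mem hj))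
    rwa [one_mul] at this

/-- the translation of the coordinate `i` -/
noncomputable def Xo (i : Fin k) : Rg k := AddMonoidAlgebra.single (Pi.single i 1) 1

/-- the difference operator -/
noncomputable def Do (i : Fin k) : Rg k := Xo i - 1

/-- the average over one step of the walker `i` -/
noncomputable def Po (i : Fin k) : Rg k := 1 + (1 / 2 : ℝ) • Do i

/-- the average over one step of all walkers -/
noncomputable def PP (k : ℕ) : Rg k := ∏ i, Po i

theorem act_X (i : Fin k) (F : (Fin k → ℤ) → ℝ) (a : Fin k → ℤ) :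
    act k (Xo i) F a = F (a + Pi.single i 1) := act_single _ _ _

theorem act_D (i : Fin k) (F : (Fin k → ℤ) → ℝ) (a : Fin k → ℤ) :
    act k (Do i) F a = F (a + Pi.single i 1) - F a := by
  unfold Do
  rw [act_sub, act_X, act_one]

theorem act_P (i : Fin k) (F : (Fin k → ℤ) → ℝ) (a : Fin k → ℤ) :
    act k (Po i) F a = (F a + F (a + Pi.single i 1)) / 2 := by
  unfold Po
  rw [act_add, act_one, act_smul, act_D]
  ring

theorem act_Ppow (i : Fin k) (t : ℕ) : ∀ (F : (Fin k → ℤ) → ℝ) (a : Fin k → ℤ),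
    act k (Po i ^ t) F a = bE t (fun m => F (a + Pi.single i (m : ℤ))) := by
  induction t with
  | zero =>
    intro F a
    rw [pow_zero, act_one, bE_zero]
    simp
  | succ n ih =>
    intro F a
    rw [pow_succ', act_mul, act_P, ih, ih, bE_succ]
    congr 3
    funext m
    rw [add_assoc, ← Pi.single_add]
    congr 3
    push_cast
    ring

theorem Bd_P (i : Fin k) : Bd (Po i) 1 := by
  intro F K h a
  rw [act_P, one_mul]
  have h1 := abs_le.1 (h a)
  have h2 := abs_le.1 (h (a + Pi.single i 1))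
  rw [abs_le]
  constructor <;> linarith [h1.1, h1.2, h2.1, h2.2]

theorem Bd_X (i : Fin k) : Bd (Xo i) 1 := by
  intro F K h a
  rw [act_X, one_mul]
  exact h _

theorem Bd_D (i : Fin k) : Bd (Do i) 2 := by
  have := Bd_sub (Bd_X i) (Bd_one (k := k))
  unfold Do
  norm_num at this
  exact this

/-- the smoothing of one coordinate -/
theorem Bd_DPi (i : Fin k) (t : ℕ) : Bd (Do i * Po i ^ t) (2 / √(t + 1)) := by
  intro F K h a
  rw [act_mul, act_D, act_Ppow, act_Ppow]
  have e : ∀ m : ℕ, F (a + Pi.single i 1 + Pi.single i (m : ℤ)) = F (a + Pi.single i ((m + 1 : ℕ) : ℤ)) := by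
    intro m
    rw [add_assoc, ← Pi.single_add]
    congr 3
    push_cast
    ring
  simp only [e]
  exact bE_der_bd t (f := fun m => F (a + Pi.single i (m : ℤ))) fun m => h _

theorem Bd_PP (t : ℕ) : Bd (PP k ^ t) 1 := Bd_pow (Bd_prod _ _ fun i _ => Bd_P i) t

theorem Bd_DP (i : Fin k) (t : ℕ) : Bd (Do i * PP k ^ t) (2 / √(t + 1)) := by
  have e : Do i * PP k ^ t = (Do i * Po i ^ t) * ∏ j ∈ univ.erase i, Po j ^ t := by
    unfold PP
    rw [← prod_pow, ← mul_prod_erase univ (fun j => Po j ^ t) (mem_univ i)]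
    ring
  rw [e]
  have := Bd_mul (Bd_DPi i t) (Bd_prod (univ.erase i) (fun j => Po j ^ t) fun j _ => Bd_pow (Bd_P j) t)
  rwa [mul_one] at this

/-- the product of the difference operators of a set of coordinates -/
noncomputable def DD (B : Finset (Fin k)) : Rg k := ∏ i ∈ B, Do i

/-- the smoothing of several coordinates -/
theorem Bd_DD (q : ℕ) (B : Finset (Fin k)) : ∀ m ≤ B.card,
    Bd (DD B * PP k ^ (m * q)) (2 ^ (B.card - m) * (2 / √(q + 1)) ^ m) := by
  classical
  induction B using Finset.induction_on with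
  | empty =>
    intro m hm
    rw [card_empty, Nat.le_zero] at hm
    subst hm
    simp only [DD, prod_empty, card_empty, zero_mul, pow_zero, mul_one, Nat.sub_zero]
    exact Bd_one
  | insert i B hi ih =>
    intro m hm
    rw [card_insert_of_notMem hi] at hm ⊢
    rcases Nat.eq_zero_or_pos m with rfl | hm0
    · have h := Bd_mul (Bd_D i) (ih 0 (Nat.zero_le _))
      have e : DD (insert i B) * PP k ^ (0 * q) = Do i * (DD B * PP k ^ (0 * q)) := by
        unfold DD
        rw [prod_insert hi]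
        ring
      rw [e]
      refine Bd_mono h (le_of_eq ?_)
      simp only [Nat.sub_zero, pow_zero, mul_one, pow_succ]
      ring
    · obtain ⟨n, rfl⟩ : ∃ n, m = n + 1 := ⟨m - 1, by omega⟩
      have h := Bd_mul (Bd_DP i q) (ih n (by omega))
      have e : DD (insert i B) * PP k ^ ((n + 1) * q) = Do i * PP k ^ q * (DD B * PP k ^ (n * q)) := by
        unfold DD
        rw [prod_insert hi]
        ring
      rw [e]
      refine Bd_mono h (le_of_eq ?_)
      have : B.card + 1 - (n + 1) = B.card - n := by omega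
      rw [this, pow_succ]
      ring

theorem Bd_DD' (q : ℕ) (B : Finset (Fin k)) (m t : ℕ) (hm : m ≤ B.card) (ht : m * q ≤ t) :
    Bd (DD B * PP k ^ t) (2 ^ k * (2 / √(q + 1)) ^ m) := by
  have h := Bd_mul (Bd_DD q B m hm) (Bd_PP (k := k) (t - m * q))
  have e : DD B * PP k ^ (m * q) * PP k ^ (t - m * q) = DD B * PP k ^ t := by
    rw [mul_assoc, ← pow_add, Nat.add_sub_cancel' ht]
  rw [e, mul_one] at h
  refine Bd_mono h ?_
  apply mul_le_mul_of_nonneg_right _ (by positivity)
  apply pow_le_pow_right₀ (by norm_num)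
  have := card_le_univ B
  rw [Fintype.card_fin] at this
  omega

/-- the translation by the indicator of a set minus the average -/
theorem expand (A : Finset (Fin k)) : ∏ i ∈ A, Xo i - PP k =
    ∑ B : Finset (Fin k), ((if B ⊆ A then 1 else 0) - (1 / 2 : ℝ) ^ B.card) • DD B := by
  classical
  have h1 : ∏ i ∈ A, Xo i = ∑ B : Finset (Fin k), (if B ⊆ A then (1 : ℝ) else 0) • DD B := by
    have e : ∀ i : Fin k, Xo i = 1 + Do i := fun i => by unfold Do; ring
    simp only [e]
    rw [prod_one_add]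
    simp only [ite_smul, one_smul, zero_smul]
    rw [← sum_filter]
    apply sum_congr _ (fun _ _ => rfl)
    ext B
    simp
  have h2 : PP k = ∑ B : Finset (Fin k), ((1 / 2 : ℝ) ^ B.card) • DD B := by
    unfold PP Po
    rw [prod_one_add, powerset_univ]
    apply sum_congr rfl
    intro B _
    unfold DD
    induction B using Finset.induction_on with
    | empty => simp
    | insert i B hi ih => 
      rw [prod_insert hi, prod_insert hi, ih (mem_univ _), card_insert_of_notMem hi, smul_mul_smul_comm, pow_succ']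
  rw [h1, h2, ← sum_sub_distrib]
  apply sum_congr rfl
  intro B _
  rw [sub_smul]

end Pool.Agent.Q74.KP
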