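import Pool.Agent.Q74.KP.Pr

/-! # Project KP: the contribution of two walkers -/

set_option autoImplicit false

namespace Pool.Agent.Q74.KP

open Finset
open Pool.Agent.Q158.Pair (T av)
open Pool.Agent.Q74.AR (oc ps ps_pair sr sg sr_abs ac ac_mono)

variable {k : ℕ}

/-- the state of the pair `i`, `j` -/
def zz (a : Fin k → ℕ) (b : Fin k → ℤ) (i j : Fin k) : ℕ × ℤ := (a j - a i, b j - 3 ^ (a j - a i) * b i)

theorem zz_eq {a : Fin k → ℕ} (b : Fin k → ℤ) {i j : Fin k} (h : a i ≤ a j) (n : ℤ) :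
    3 ^ (zz a b i j).1 * yy a b i n + (zz a b i j).2 = yy a b j n := by
  unfold zz yy
  have : (3 : ℤ) ^ a j = 3 ^ (a j - a i) * 3 ^ a i := by rw [← pow_add, Nat.sub_add_cancel h]
  simp only
  rw [this]
  ring

theorem ps_lev {a : Fin k → ℕ} (b : Fin k → ℤ) {i j : Fin k} (h : a i ≤ a j) (r : ℕ) (n : ℤ) :
    ((ps r (zz a b i j) (yy a b i n)).1 : ℤ) = |Lv a b r n j - Lv a b r n i| := by
  have h1 := ps_pair r (zz a b i j) (yy a b i n)
  rw [zz_eq b h] at h1
  have h2 : (((zz a b i j).1 : ℕ) : ℤ) = a j - a i := by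
    show ((a j - a i : ℕ) : ℤ) = _
    omega
  have h3 := Int.natCast_nonneg (ps r (zz a b i j) (yy a b i n)).1
  unfold Lv
  rcases h1 with ⟨_, _, h1⟩ | ⟨_, _, h1⟩
  · rw [h2] at h1
    rw [h1] at h3 ⊢
    rw [abs_of_nonneg (by linarith)]
    ring
  · rw [h2] at h1
    rw [h1] at h3 ⊢
    rw [abs_of_nonpos (by linarith)]
    ring

theorem al_le_lv {a : Fin k → ℕ} (b : Fin k → ℤ) {i j : Fin k} (hij : i < j) (h : a i ≤ a j) (s : ℕ) (n : ℤ) :
    al a b s n ≤ lv s (zz a b i j) (yy a b i n) := by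
  by_cases h0 : al a b s n = 0
  · rw [h0]; exact lv_nonneg _ _ _
  · obtain ⟨h1, h2⟩ := al_one h0
    rw [h1]
    unfold lv
    rw [if_pos]
    intro r hr h3
    have h4 := ps_lev b h r n
    rw [h3] at h4
    have h5 := h2 r hr hij
    have h6 : |Lv a b r n j - Lv a b r n i| = 0 := by rw [← h4]; rfl
    rw [abs_eq_zero] at h6
    omega

theorem sr_ps {a : Fin k → ℕ} (b : Fin k → ℤ) {i j : Fin k} (h : a i ≤ a j) (s : ℕ) (n : ℤ) :
    sr (ps s (zz a b i j) (yy a b i n)) =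
      if (T^[s] (yy a b i n) + T^[s] (yy a b j n)) % 2 = 0 then 1 else -1 := by
  unfold sr
  rw [sg_ps, zz_eq b h]
  split_ifs <;> norm_num

theorem EE_sr {a : Fin k → ℕ} (b : Fin k → ℤ) {i j : Fin k} {t s w : ℕ} (hw : s + w ≤ t)
    {g : ℤ → ℝ} (hg : Pe s g) :
    EE t (fun n => g n * ∑ m ∈ range w, sr (ps (s + m) (zz a b i j) (yy a b i n))) =
      EE t (fun n => g n * ∑ m ∈ range w, av^[m] sr (ps s (zz a b i j) (yy a b i n))) := by
  have hp : Pe t (fun n => ∑ m ∈ range w, sr (ps (s + m) (zz a b i j) (yy a b i n))) := by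
    apply Pe_sum
    intro m hm
    intro n l
    have hm' := mem_range.1 hm
    show sr (ps (s + m) (zz a b i j) (yy a b i (n + 2 ^ t * l))) = _
    rw [yy_shift]
    have h2 := Pe_le (Pe_ps (s + m) (zz a b i j) sr) (by omega : s + m ≤ t) (yy a b i n) (3 ^ a i * l)
    have e : 3 ^ a i * (2 ^ t * l) = 2 ^ t * (3 ^ a i * l) := by ring
    rw [e]
    exact h2
  rw [EE_cond (by omega : s ≤ t) hg hp]
  congr 1
  funext n
  congr 1
  rw [sum_comm, sum_div]
  apply sum_congr rfl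
  intro m hm
  have hm' := mem_range.1 hm
  rw [← ps_cond sr s m (t - s) (by omega) (zz a b i j) (yy a b i n) (3 ^ a i) (three_odd _)]
  congr 1
  apply sum_congr rfl
  intro l _
  rw [yy_shift]
  congr 2
  ring

theorem pair_sum {a : Fin k → ℕ} (b : Fin k → ℤ) {F : (Fin k → ℤ) → ℝ} {K₀ : ℝ}
    (hK : ∀ z, |F z| ≤ K₀) {i j : Fin k} (hij : i < j) (ha : a i ≤ a j) (t S q w : ℕ)
    (hq : 3 * q + S + 1 ≤ t) (hw : S + w ≤ t) :
    w * |∑ s ∈ range S, EE t (fun n => al a b s n * act k (DD {i, j} * PP k ^ (t - s - 1)) F (Lv a b s n) *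
        sr (ps s (zz a b i j) (yy a b i n)))| ≤
      (2 ^ k * (2 / √(q + 1)) ^ 2 * K₀) * ac (fun z => |∑ m ∈ range w, av^[m] sr z|) S (zz a b i j) +
        w * (w * (3 * (2 ^ k * (2 / √(q + 1)) ^ 2 * K₀) + S * (8 ^ k * (2 / √(q + 1)) ^ 3 * K₀))) := by
  have hK0 : 0 ≤ K₀ := (abs_nonneg _).trans (hK 0)
  set c : ℝ := 2 / √((q : ℝ) + 1) with hc
  have hc0 : 0 ≤ c := by positivity
  set φ : ℝ := 2 ^ k * c ^ 2 * K₀ with hφ
  have hφ0 : 0 ≤ φ := by positivity
  set B : Finset (Fin k) := {i, j} with hB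
  have hB2 : B.card = 2 := card_pair hij.ne
  set W : ℕ → (Fin k → ℤ) → ℝ := fun s z => act k (DD B * PP k ^ (t - s - 1)) F z with hW
  have hWb : ∀ s ≤ S, ∀ z, |W s z| ≤ φ := by
    intro s hs z
    exact Bd_DD' q B 2 (t - s - 1) hB2.ge (by omega) F K₀ hK z
  have hWd : ∀ s < S, ∀ (z : Fin k → ℤ) (A : Finset (Fin k)), |W (s + 1) (sh z A) - W s z| ≤ 8 ^ k * c ^ 3 * K₀ := by
    intro s hs z A
    have h1 := Bd_mul (Bd_step q A) (Bd_DD' q B 2 (t - s - 2 - q) hB2.ge (by omega))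
    have e : (∏ i ∈ A, Xo i - PP k) * PP k ^ q * (DD B * PP k ^ (t - s - 2 - q)) =
        (∏ i ∈ A, Xo i) * (DD B * PP k ^ (t - s - 2)) - DD B * PP k ^ (t - s - 1) := by
      have e1 : PP k ^ (t - s - 2) = PP k ^ q * PP k ^ (t - s - 2 - q) := by
        rw [← pow_add]; congr 1; omega
      have e2 : PP k ^ (t - s - 1) = PP k * PP k ^ (t - s - 2) := by
        rw [← pow_succ']; congr 1; omega
      rw [e2, e1]
      ring
    rw [e] at h1
    have h2 := h1 F K₀ hK z
    rw [act_sub, act_mul (∏ i ∈ A, Xo i), act_prodX] at h2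
    have e3 : t - (s + 1) - 1 = t - s - 2 := by omega
    have e4 : (8 : ℝ) ^ k = 4 ^ k * 2 ^ k := by rw [← mul_pow]; norm_num
    simp only [hW]
    rw [e3]
    refine h2.trans (le_of_eq ?_)
    rw [e4]
    ring
  set f : ℕ → ℤ → ℝ := fun s n => al a b s n * W s (Lv a b s n) with hf
  have hfb : ∀ s ≤ S, ∀ n, |f s n| ≤ al a b s n * φ := by
    intro s hs n
    simp only [hf]
    rw [abs_mul, abs_of_nonneg (al_nonneg a b s n)]
    exact mul_le_mul_of_nonneg_left (hWb s hs _) (al_nonneg a b s n)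
  have hfb' : ∀ n, ∀ s ≤ S, |f s n| ≤ φ := by
    intro n s hs
    have h1 := hfb s hs n
    have h2 := al_le_one a b s n
    nlinarith
  have hV : ∀ n, ∑ s ∈ range S, |f (s + 1) n - f s n| ≤ S * (8 ^ k * c ^ 3 * K₀) + φ := by
    intro n
    have h1 : ∀ s ∈ range S, |f (s + 1) n - f s n| ≤ 8 ^ k * c ^ 3 * K₀ + φ * (al a b s n - al a b (s + 1) n) := by
      intro s hs
      have hs' := mem_range.1 hs
      have e : f (s + 1) n - f s n = al a b s n * (W (s + 1) (sh (Lv a b s n) (Od a b s n)) - W s (Lv a b s n)) -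
          (al a b s n - al a b (s + 1) n) * W (s + 1) (Lv a b (s + 1) n) := by
        simp only [hf]
        rw [Lv_succ]
        ring
      rw [e]
      have i1 := hWd s hs' (Lv a b s n) (Od a b s n)
      have i2 := hWb (s + 1) hs' (Lv a b (s + 1) n)
      have i3 := al_anti a b (Nat.le_succ s) n
      rw [Nat.succ_eq_add_one] at i3
      have i4 := al_nonneg a b s n
      have i5 := al_le_one a b s n
      refine (abs_sub _ _).trans ?_
      rw [abs_mul, abs_mul, abs_of_nonneg i4, abs_of_nonneg (by linarith : 0 ≤ al a b s n - al a b (s + 1) n)]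
      have j1 : al a b s n * |W (s + 1) (sh (Lv a b s n) (Od a b s n)) - W s (Lv a b s n)| ≤ 8 ^ k * c ^ 3 * K₀ := by
        have := abs_nonneg (W (s + 1) (sh (Lv a b s n) (Od a b s n)) - W s (Lv a b s n))
        nlinarith
      have j2 : (al a b s n - al a b (s + 1) n) * |W (s + 1) (Lv a b (s + 1) n)| ≤
          (al a b s n - al a b (s + 1) n) * φ := mul_le_mul_of_nonneg_left i2 (by linarith)
      linarith
    refine (sum_le_sum h1).trans ?_
    rw [sum_add_distrib, sum_const, card_range, nsmul_eq_mul, ← mul_sum, sum_range_sub' (fun s => al a b s n)]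
    have i1 := al_le_one a b 0 n
    have i2 := al_nonneg a b S n
    nlinarith
  set σ : ℕ → ℤ → ℝ := fun s n => sr (ps s (zz a b i j) (yy a b i n)) with hσ
  have hσ1 : ∀ n s, |σ s n| ≤ 1 := fun n s => sr_abs _
  have h1 : ∀ n, |w * ∑ s ∈ range S, f s n * σ s n - ∑ s ∈ range S, f s n * ∑ m ∈ range w, σ (s + m) n| ≤
      w * (w * (2 * φ + (S * (8 ^ k * c ^ 3 * K₀) + φ))) := by
    intro n
    exact slide_win (fun s => f s n) S w (hfb' n) (hV n) (fun s => σ s n) (hσ1 n)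
  have h2 := EE_bd t h1
  rw [EE_sub, EE_mul, EE_sum, EE_sum] at h2
  have h3 : ∀ s ∈ range S, |EE t (fun n => f s n * ∑ m ∈ range w, σ (s + m) n)| ≤
      φ * EE t (fun n => lv s (zz a b i j) (yy a b i n) *
        |∑ m ∈ range w, av^[m] sr (ps s (zz a b i j) (yy a b i n))|) := by
    intro s hs
    have hs' := mem_range.1 hs
    have hg : Pe s (f s) := Pe_mul (al_per a b s) (Pe_Lv a b s (W s))
    rw [EE_sr b (by omega) hg, ← EE_mul]
    apply EE_abs_le
    intro n
    rw [abs_mul, ← mul_assoc]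
    apply mul_le_mul_of_nonneg_right _ (abs_nonneg _)
    refine (hfb s hs'.le n).trans ?_
    rw [mul_comm]
    exact mul_le_mul_of_nonneg_left (al_le_lv b hij ha s n) hφ0
  have h4 : |∑ s ∈ range S, EE t (fun n => f s n * ∑ m ∈ range w, σ (s + m) n)| ≤
      φ * ac (fun z => |∑ m ∈ range w, av^[m] sr z|) S (zz a b i j) := by
    refine (abs_sum_le_sum_abs _ _).trans ((sum_le_sum h3).trans (le_of_eq ?_))
    rw [← mul_sum, ← EE_sum, ← ac_path _ S t _ (by omega)]
    congr 1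
    exact EE_aff (F := fun x => ∑ s ∈ range S, lv s (zz a b i j) x *
      |∑ m ∈ range w, av^[m] sr (ps s (zz a b i j) x)|) (Pe_sum _ fun s hs => by
        have hs' := mem_range.1 hs
        exact Pe_le (Pe_mul (lv_per s _) (Pe_ps s _ (fun z => |∑ m ∈ range w, av^[m] sr z|))) (by omega))
      (3 ^ a i) (three_odd _) (b i)
  have h5 : (w : ℝ) * |∑ s ∈ range S, EE t (fun n => f s n * σ s n)| ≤
      |w * ∑ s ∈ range S, EE t (fun n => f s n * σ s n) -
        ∑ s ∈ range S, EE t (fun n => f s n * ∑ m ∈ range w, σ (s + m) n)| +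
      |∑ s ∈ range S, EE t (fun n => f s n * ∑ m ∈ range w, σ (s + m) n)| := by
    have h6 := abs_add_le (w * ∑ s ∈ range S, EE t (fun n => f s n * σ s n) -
        ∑ s ∈ range S, EE t (fun n => f s n * ∑ m ∈ range w, σ (s + m) n))
      (∑ s ∈ range S, EE t (fun n => f s n * ∑ m ∈ range w, σ (s + m) n))
    rw [sub_add_cancel, abs_mul, Nat.abs_cast] at h6
    exact h6
  refine h5.trans ?_
  have e : (w : ℝ) * (w * (2 * φ + (S * (8 ^ k * c ^ 3 * K₀) + φ))) =
      w * (w * (3 * φ + S * (8 ^ k * c ^ 3 * K₀))) := by ring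
  rw [e] at h2
  linarith

end Pool.Agent.Q74.KP
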