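import Pool.Agent.Q74.AR.Main

/-! # Project KP: windows -/

set_option autoImplicit false

namespace Pool.Agent.Q74.KP

open Finset Filter Topology
open Pool.Agent.Q158.Pair (av)
open Pool.Agent.Q74.AR

theorem mean_window {δ : ℝ} (hδ : 0 < δ) : ∃ (n : ℕ) (C : ℝ), 1 ≤ n ∧ 0 < C ∧
    ∀ (s K : ℕ) (z : ℕ × ℤ), z.1 + s ≤ 2 ^ K →
      ac (fun z => |∑ j ∈ range n, av^[j] sr z|) s z ≤ n * (δ * s + C * (1 + K * (z.1 + 2))) := by
  have hc := hCS
  have hb := _root_.Q37.AR.big_job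
  have hr := _root_.Q37.AR.rep
  obtain ⟨n, hn1, hn2, hn3⟩ := exists_n (half_pos hδ)
  set η := δ / 2 with hη
  have hη0 : 0 < η := half_pos hδ
  set A : ℝ := 2 ^ (n + 1) * ((n + 2) * 2 ^ n + 7) with hA
  have hA0 : 0 < A := by positivity
  have hn0 : (0 : ℝ) < n := by exact_mod_cast hn1
  refine ⟨n, A + 2 ^ n, hn1, by positivity, fun s K z hs => ?_⟩
  have hK0 : (0 : ℝ) ≤ K * (z.1 + 2) := by positivity
  rcases Nat.lt_or_ge K n with hK | hK
  · have h1 : ac (fun z => |∑ j ∈ range n, av^[j] sr z|) s z ≤ n * s := by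
      refine (ac_mono (h := fun _ => (n : ℝ)) (fun z => ?_) s z).trans (ac_const_le hn0.le s z)
      refine (abs_sum_le_sum_abs _ _).trans ?_
      refine (sum_le_card_nsmul _ _ 1 fun j _ => av_iter_abs sr_abs j z).trans ?_
      rw [card_range, nsmul_eq_mul, mul_one]
    have h2 : (s : ℝ) ≤ 2 ^ n := by
      have : s ≤ 2 ^ n := by
        have := Nat.pow_le_pow_right (n := 2) (by norm_num) hK.le
        omega
      exact_mod_cast this
    have h3 : 0 ≤ δ * s := by positivity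
    have h4 : (2 : ℝ) ^ n ≤ (A + 2 ^ n) * (1 + K * (z.1 + 2)) := by
      have : (A + 2 ^ n) * 1 ≤ (A + 2 ^ n) * (1 + K * (z.1 + 2)) :=
        mul_le_mul_of_nonneg_left (by linarith) (by positivity)
      linarith
    refine h1.trans (mul_le_mul_of_nonneg_left ?_ hn0.le)
    linarith
  · set P : ℕ × ℤ → ℝ := fun z => (∑ r ∈ range (2 ^ n), big η n r (3 ^ z.1 * (r : ℤ) + z.2)) / 2 ^ n with hP
    have hbn : ∀ x y, 0 ≤ big η n x y := fun x y => by unfold big; split_ifs <;> norm_num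
    have hbs : ∀ x y, big η n x y ^ 2 = big η n x y := fun x y => by unfold big; split_ifs <;> norm_num
    have hf : ∀ z, |∑ j ∈ range n, av^[j] sr z| ≤ η * n + n * P z := by
      intro z
      have h1 := hr n z
      have e1 : (fun z => (sg z : ℝ)) = sr := rfl
      rw [e1] at h1
      rw [h1, abs_div, abs_of_pos (by positivity : (0 : ℝ) < 2 ^ n), div_le_iff₀ (by positivity)]
      refine (abs_sum_le_sum_abs _ _).trans ?_
      have h2 : ∑ r ∈ range (2 ^ n), |(Sg n r (3 ^ z.1 * (r : ℤ) + z.2) : ℝ)|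
          ≤ ∑ r ∈ range (2 ^ n), (η * n + n * big η n r (3 ^ z.1 * (r : ℤ) + z.2)) :=
        sum_le_sum fun r _ => Sg_big hη0.le n r (3 ^ z.1 * (r : ℤ) + z.2)
      refine h2.trans ?_
      rw [sum_add_distrib, sum_const, card_range, nsmul_eq_mul, ← mul_sum, hP]
      push_cast
      apply le_of_eq
      field_simp
    have h2 : ac (fun z => |∑ j ∈ range n, av^[j] sr z|) s z ≤ η * n * s + n * ac P s z := by
      refine (ac_mono hf s z).trans ?_
      rw [ac_add (fun _ => η * n) (fun z => n * P z), ac_mul (n : ℝ) P]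
      have := ac_const_le (c := η * n) (by positivity) s z
      linarith
    have h3 := hc n K s (big η n) z hn1 hK hs hbn (hb n η hη0.le).1
    have h4 := (hb n η hη0.le).2
    simp only [hbs] at h3
    set B : ℝ := 2 ^ (n + 1) * ((n + 2) * 2 ^ n + K * (z.1 + 2) + 6) with hB
    have hB0 : 0 ≤ B := by positivity
    have h5 : ac P s z ^ 2 ≤ (2 * Real.exp (-(η ^ 2 * n / 2))) * (s * (20 * n ^ 2 * s + B)) := by
      refine h3.trans ?_
      apply mul_le_mul_of_nonneg_right _ (by positivity)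
      rw [div_le_iff₀ (by positivity)]
      linarith
    have h6 : ac P s z ≤ η * s + B := by
      apply le_of_sq_le_sq _ (by positivity)
      refine h5.trans ?_
      have e1 : (2 * Real.exp (-(η ^ 2 * n / 2))) * (s * (20 * n ^ 2 * s + B))
          = (2 * Real.exp (-(η ^ 2 * n / 2)) * (20 * n ^ 2)) * (s : ℝ) ^ 2
            + 2 * Real.exp (-(η ^ 2 * n / 2)) * (s * B) := by ring
      rw [e1]
      have i1 : (2 * Real.exp (-(η ^ 2 * n / 2)) * (20 * n ^ 2)) * (s : ℝ) ^ 2 ≤ η ^ 2 * (s : ℝ) ^ 2 :=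
        mul_le_mul_of_nonneg_right hn2 (by positivity)
      have i2 : 2 * Real.exp (-(η ^ 2 * n / 2)) * (s * B) ≤ 2 * η * (s * B) :=
        mul_le_mul_of_nonneg_right hn3 (by positivity)
      nlinarith [sq_nonneg B]
    have h9 : B ≤ A * (1 + K * (z.1 + 2)) := by
      rw [hA, hB, mul_assoc]
      apply mul_le_mul_of_nonneg_left _ (by positivity)
      have : (0 : ℝ) ≤ (n + 2) * 2 ^ n := by positivity
      nlinarith
    have h11 : (0 : ℝ) ≤ 2 ^ n * (1 + K * (z.1 + 2)) := by positivity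
    have h12 : η * s + η * s = δ * s := by rw [hη]; ring
    have h13 : η * n * s + n * ac P s z = n * (η * s + ac P s z) := by ring
    rw [h13] at h2
    refine h2.trans (mul_le_mul_of_nonneg_left ?_ hn0.le)
    nlinarith

/-- a sum against slowly varying weights -/
theorem slide_one (f : ℕ → ℝ) (S : ℕ) {φ V : ℝ} (hφ : ∀ s ≤ S, |f s| ≤ φ)
    (hV : ∑ s ∈ range S, |f (s + 1) - f s| ≤ V) (σ : ℕ → ℝ) (hσ : ∀ s, |σ s| ≤ 1) :
    |∑ s ∈ range S, f s * σ s - ∑ s ∈ range S, f s * σ (s + 1)| ≤ 2 * φ + V := by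
  have h1 : ∑ s ∈ range S, f s * σ s - ∑ s ∈ range S, f s * σ (s + 1) =
      (f 0 * σ 0 - f S * σ S) + ∑ s ∈ range S, (f (s + 1) - f s) * σ (s + 1) := by
    have h2 := sum_range_succ' (fun s => f s * σ s) S
    have h3 := sum_range_succ (fun s => f s * σ s) S
    have h4 : ∑ s ∈ range S, (f (s + 1) - f s) * σ (s + 1) =
        ∑ s ∈ range S, f (s + 1) * σ (s + 1) - ∑ s ∈ range S, f s * σ (s + 1) := by
      rw [← sum_sub_distrib]
      apply sum_congr rfl
      intro s _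
      ring
    rw [h4]
    linarith
  have h5 : |f 0 * σ 0| ≤ φ := by
    rw [abs_mul]
    have := hφ 0 (Nat.zero_le _)
    have h6 := hσ 0
    have := abs_nonneg (f 0)
    nlinarith [abs_nonneg (σ 0)]
  have h6 : |f S * σ S| ≤ φ := by
    rw [abs_mul]
    have := hφ S le_rfl
    have h6 := hσ S
    have := abs_nonneg (f S)
    nlinarith [abs_nonneg (σ S)]
  have h7 : |∑ s ∈ range S, (f (s + 1) - f s) * σ (s + 1)| ≤ V := by
    refine (abs_sum_le_sum_abs _ _).trans (le_trans ?_ hV)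
    apply sum_le_sum
    intro s _
    rw [abs_mul]
    have h8 := hσ (s + 1)
    have := abs_nonneg (f (s + 1) - f s)
    nlinarith [abs_nonneg (σ (s + 1))]
  rw [h1]
  refine (abs_add_le _ _).trans ?_
  have := abs_sub (f 0 * σ 0) (f S * σ S)
  linarith

theorem slide (f : ℕ → ℝ) (S : ℕ) {φ V : ℝ} (hφ : ∀ s ≤ S, |f s| ≤ φ)
    (hV : ∑ s ∈ range S, |f (s + 1) - f s| ≤ V) (m : ℕ) : ∀ (σ : ℕ → ℝ), (∀ s, |σ s| ≤ 1) →
    |∑ s ∈ range S, f s * σ s - ∑ s ∈ range S, f s * σ (s + m)| ≤ m * (2 * φ + V) := by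
  induction m with
  | zero => intro σ _; simp
  | succ n ih =>
    intro σ hσ
    have h1 := ih σ hσ
    have h2 := slide_one f S hφ hV (fun s => σ (s + n)) (fun s => hσ _)
    have e : ∑ s ∈ range S, f s * σ s - ∑ s ∈ range S, f s * σ (s + (n + 1)) =
        (∑ s ∈ range S, f s * σ s - ∑ s ∈ range S, f s * σ (s + n)) +
        (∑ s ∈ range S, f s * σ (s + n) - ∑ s ∈ range S, f s * σ (s + 1 + n)) := by
      have : ∀ s, s + (n + 1) = s + 1 + n := fun s => by ring
      simp only [this]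
      ring
    rw [e]
    refine (abs_add_le _ _).trans ?_
    push_cast
    linarith

theorem slide_win (f : ℕ → ℝ) (S w : ℕ) {φ V : ℝ} (hφ : ∀ s ≤ S, |f s| ≤ φ)
    (hV : ∑ s ∈ range S, |f (s + 1) - f s| ≤ V) (σ : ℕ → ℝ) (hσ : ∀ s, |σ s| ≤ 1) :
    |w * ∑ s ∈ range S, f s * σ s - ∑ s ∈ range S, f s * ∑ m ∈ range w, σ (s + m)| ≤ w * (w * (2 * φ + V)) := by
  have h0 : 0 ≤ 2 * φ + V := by
    have h1 := (abs_nonneg _).trans (hφ 0 (Nat.zero_le _))
    have h2 : 0 ≤ V := (sum_nonneg fun s _ => abs_nonneg _).trans hV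
    linarith
  have e : w * ∑ s ∈ range S, f s * σ s - ∑ s ∈ range S, f s * ∑ m ∈ range w, σ (s + m) =
      ∑ m ∈ range w, (∑ s ∈ range S, f s * σ s - ∑ s ∈ range S, f s * σ (s + m)) := by
    rw [sum_sub_distrib, sum_const, card_range, nsmul_eq_mul]
    congr 1
    rw [sum_comm]
    apply sum_congr rfl
    intro s _
    rw [mul_sum]
  rw [e]
  refine (abs_sum_le_sum_abs _ _).trans ?_
  refine (sum_le_card_nsmul _ _ (w * (2 * φ + V)) ?_).trans ?_
  · intro m hm
    refine (slide f S hφ hV m σ hσ).trans ?_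
    apply mul_le_mul_of_nonneg_right _ h0
    exact_mod_cast (mem_range.1 hm).le
  · rw [card_range, nsmul_eq_mul]

end Pool.Agent.Q74.KP
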