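import Pool.Agent.Q74.KP.NC
import Pool.Agent.Q74.KP.Avg
import Pool.Agent.Q74.KP.Win

/-! # Project KP: the levels of `k` trajectories -/

set_option autoImplicit false

namespace Pool.Agent.Q74.KP

open Finset
open Pool.Agent.Q158.Pair (T T_iter_affine)
open Pool.Agent.Q74.AR (oc oc_eq oc_per ps)

variable {k : ℕ}

/-- the numbers -/
def yy (a : Fin k → ℕ) (b : Fin k → ℤ) (i : Fin k) (n : ℤ) : ℤ := 3 ^ a i * n + b i

/-- the levels after `s` steps -/
def Lv (a : Fin k → ℕ) (b : Fin k → ℤ) (s : ℕ) (n : ℤ) : Fin k → ℤ := fun i => (a i : ℤ) + oc s (yy a b i n)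

/-- the indices of the odd numbers after `s` steps -/
def Od (a : Fin k → ℕ) (b : Fin k → ℤ) (s : ℕ) (n : ℤ) : Finset (Fin k) :=
  univ.filter (fun i => T^[s] (yy a b i n) % 2 = 1)

theorem oc_last (s : ℕ) (x : ℤ) : (oc (s + 1) x : ℤ) = oc s x + if T^[s] x % 2 = 1 then 1 else 0 := by
  rw [oc_eq, oc_eq, range_add_one, filter_insert]
  split_ifs with h
  · rw [card_insert_of_notMem (by simp)]
    push_cast
    rfl
  · simp

theorem Lv_succ (a : Fin k → ℕ) (b : Fin k → ℤ) (s : ℕ) (n : ℤ) :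
    Lv a b (s + 1) n = sh (Lv a b s n) (Od a b s n) := by
  funext i
  unfold Lv sh Od
  rw [oc_last]
  simp only [mem_filter, mem_univ, true_and]
  ring

theorem yy_shift (a : Fin k → ℕ) (b : Fin k → ℤ) (i : Fin k) (n c : ℤ) :
    yy a b i (n + c) = yy a b i n + 3 ^ a i * c := by unfold yy; ring

theorem Lv_per (a : Fin k → ℕ) (b : Fin k → ℤ) (s : ℕ) (n j : ℤ) : Lv a b s (n + 2 ^ s * j) = Lv a b s n := by
  funext i
  unfold Lv
  rw [yy_shift]
  have : 3 ^ a i * (2 ^ s * j) = 2 ^ s * (3 ^ a i * j) := by ring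
  rw [this, oc_per]

theorem Lv_per' (a : Fin k → ℕ) (b : Fin k → ℤ) {r s : ℕ} (h : r ≤ s) (n j : ℤ) :
    Lv a b r (n + 2 ^ s * j) = Lv a b r n := by
  obtain ⟨d, rfl⟩ := Nat.exists_eq_add_of_le h
  have : n + 2 ^ (r + d) * j = n + 2 ^ r * (2 ^ d * j) := by ring
  rw [this, Lv_per]

theorem T_shift (s : ℕ) (x : ℤ) : ∃ c : ℕ, ∀ j : ℤ, T^[s] (x + 2 ^ s * j) = T^[s] x + 3 ^ c * j := by
  obtain ⟨o, _, h⟩ := T_iter_affine s x
  refine ⟨o, fun j => ?_⟩
  rw [add_comm x, h, add_comm]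

theorem Od_flip (a : Fin k → ℕ) (b : Fin k → ℤ) (s : ℕ) (n : ℤ) : Od a b s (n + 2 ^ s) = (Od a b s n)ᶜ := by
  ext i
  unfold Od
  rw [mem_compl, mem_filter, mem_filter, yy_shift]
  obtain ⟨c, hc⟩ := T_shift s (yy a b i n)
  have : yy a b i n + 3 ^ a i * 2 ^ s = yy a b i n + 2 ^ s * 3 ^ a i := by ring
  rw [this, hc, ← pow_add]
  have := three_odd (c + a i)
  simp only [mem_univ, true_and]
  omega

theorem Od_per (a : Fin k → ℕ) (b : Fin k → ℤ) (s : ℕ) (n j : ℤ) :
    Od a b s (n + 2 ^ (s + 1) * j) = Od a b s n := by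
  ext i
  unfold Od
  rw [mem_filter, mem_filter, yy_shift]
  obtain ⟨c, hc⟩ := T_shift s (yy a b i n)
  have : yy a b i n + 3 ^ a i * (2 ^ (s + 1) * j) = yy a b i n + 2 ^ s * (2 * (3 ^ a i * j)) := by ring
  rw [this, hc]
  have : (3 : ℤ) ^ c * (2 * (3 ^ a i * j)) = 2 * (3 ^ c * (3 ^ a i * j)) := by ring
  rw [this]
  simp only [mem_univ, true_and]
  omega

theorem Od_per' (a : Fin k → ℕ) (b : Fin k → ℤ) {s N : ℕ} (h : s + 1 ≤ N) (n j : ℤ) :
    Od a b s (n + 2 ^ N * j) = Od a b s n := by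
  obtain ⟨d, rfl⟩ := Nat.exists_eq_add_of_le h
  have : n + 2 ^ (s + 1 + d) * j = n + 2 ^ (s + 1) * (2 ^ d * j) := by ring
  rw [this, Od_per]

open Classical in
/-- `1` if the levels are strictly increasing up to the time `s` -/
noncomputable def al (a : Fin k → ℕ) (b : Fin k → ℤ) (s : ℕ) (n : ℤ) : ℝ :=
  if ∀ r ≤ s, StrictMono (Lv a b r n) then 1 else 0

theorem al_nonneg (a : Fin k → ℕ) (b : Fin k → ℤ) (s : ℕ) (n : ℤ) : 0 ≤ al a b s n := by
  unfold al; split_ifs <;> norm_num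

theorem al_le_one (a : Fin k → ℕ) (b : Fin k → ℤ) (s : ℕ) (n : ℤ) : al a b s n ≤ 1 := by
  unfold al; split_ifs <;> norm_num

theorem al_abs (a : Fin k → ℕ) (b : Fin k → ℤ) (s : ℕ) (n : ℤ) : |al a b s n| ≤ 1 := by
  rw [abs_of_nonneg (al_nonneg a b s n)]
  exact al_le_one a b s n

theorem al_per (a : Fin k → ℕ) (b : Fin k → ℤ) (s : ℕ) : Pe s (al a b s) := by
  intro n j
  unfold al
  congr 1
  apply propext
  constructor
  · intro h r hr; rw [← Lv_per' a b hr n j]; exact h r hr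
  · intro h r hr; rw [Lv_per' a b hr n j]; exact h r hr

theorem al_anti (a : Fin k → ℕ) (b : Fin k → ℤ) {r s : ℕ} (hrs : r ≤ s) (n : ℤ) : al a b s n ≤ al a b r n := by
  unfold al
  by_cases h : ∀ r ≤ s, StrictMono (Lv a b r n)
  · rw [if_pos h, if_pos (fun u hu => h u (hu.trans hrs))]
  · rw [if_neg h]
    split_ifs <;> norm_num

theorem al_one {a : Fin k → ℕ} {b : Fin k → ℤ} {s : ℕ} {n : ℤ} (h : al a b s n ≠ 0) :
    al a b s n = 1 ∧ ∀ r ≤ s, StrictMono (Lv a b r n) := by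
  unfold al at h ⊢
  split_ifs at h ⊢ with h1
  · exact ⟨rfl, h1⟩
  · exact absurd rfl h

theorem al_pos {a : Fin k → ℕ} {b : Fin k → ℤ} {s : ℕ} {n : ℤ} (h : ∀ r ≤ s, StrictMono (Lv a b r n)) :
    al a b s n = 1 := by
  unfold al
  rw [if_pos h]

/-- an antisymmetric function of the killed levels -/
theorem al_step (a : Fin k → ℕ) (b : Fin k → ℤ) {U : (Fin k → ℤ) → ℝ} (hU : An U) (s : ℕ) (n : ℤ) :
    al a b (s + 1) n * U (Lv a b (s + 1) n) = al a b s n * U (sh (Lv a b s n) (Od a b s n)) := by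
  rw [← Lv_succ]
  by_cases h : al a b s n = 0
  · have h1 := al_anti a b (Nat.le_succ s) n
    have h2 := al_nonneg a b (s + 1) n
    have h3 : al a b (s + 1) n = 0 := by
      rw [Nat.succ_eq_add_one] at h1
      linarith
    rw [h, h3]
  · obtain ⟨h1, h2⟩ := al_one h
    by_cases h3 : StrictMono (Lv a b (s + 1) n)
    · rw [h1, al_pos]
      intro r hr
      rcases Nat.lt_or_ge r (s + 1) with h4 | h4
      · exact h2 r (by omega)
      · have : r = s + 1 := le_antisymm hr h4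
        rw [this]
        exact h3
    · have h4 : Monotone (Lv a b (s + 1) n) := by
        rw [Lv_succ]
        exact sh_mono (h2 s le_rfl) _
      have h5 : ¬ Function.Injective (Lv a b (s + 1) n) := fun h5 => h3 (h4.strictMono_of_injective h5)
      rw [An_zero hU h5, mul_zero, mul_zero]

/-- the coefficient -/
noncomputable def cf (B O : Finset (Fin k)) : ℝ :=
  ((if B ⊆ O then 1 else 0) + (if B ⊆ Oᶜ then 1 else 0)) / 2 - (1 / 2 : ℝ) ^ B.card

theorem cf_abs (B O : Finset (Fin k)) : |cf B O| ≤ 1 := by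
  unfold cf
  have h1 : (0 : ℝ) ≤ (1 / 2 : ℝ) ^ B.card := by positivity
  have h2 : (1 / 2 : ℝ) ^ B.card ≤ 1 := pow_le_one₀ (by norm_num) (by norm_num)
  rw [abs_le]
  constructor <;> split_ifs <;> linarith

theorem cf_small {B : Finset (Fin k)} (h : B.card ≤ 1) (O : Finset (Fin k)) : cf B O = 0 := by
  unfold cf
  rcases Nat.lt_or_ge B.card 1 with h1 | h1
  · have : B = ∅ := by rw [← card_eq_zero]; omega
    subst this
    simp
  · have : B.card = 1 := le_antisymm h h1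
    obtain ⟨i, rfl⟩ := card_eq_one.1 this
    simp only [singleton_subset_iff, mem_compl, card_singleton, pow_one]
    by_cases hi : i ∈ O
    · rw [if_pos hi, if_neg (not_not.2 hi)]; norm_num
    · rw [if_neg hi, if_pos hi]; norm_num

theorem cf_two {i j : Fin k} (hij : i ≠ j) (a : Fin k → ℕ) (b : Fin k → ℤ) (s : ℕ) (n : ℤ) :
    cf {i, j} (Od a b s n) =
      (1 / 4) * (if (T^[s] (yy a b i n) + T^[s] (yy a b j n)) % 2 = 0 then 1 else -1) := by
  unfold cf
  rw [card_pair hij]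
  have e1 : ({i, j} ⊆ Od a b s n) ↔ (T^[s] (yy a b i n) % 2 = 1 ∧ T^[s] (yy a b j n) % 2 = 1) := by
    rw [insert_subset_iff, singleton_subset_iff]
    simp [Od]
  have e2 : ({i, j} ⊆ (Od a b s n)ᶜ) ↔ (¬ T^[s] (yy a b i n) % 2 = 1 ∧ ¬ T^[s] (yy a b j n) % 2 = 1) := by
    rw [insert_subset_iff, singleton_subset_iff]
    simp [Od]
  simp only [e1, e2]
  rcases Int.emod_two_eq_zero_or_one (T^[s] (yy a b i n)) with h1 | h1 <;>
  rcases Int.emod_two_eq_zero_or_one (T^[s] (yy a b j n)) with h2 | h2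
  · rw [if_neg (by omega), if_pos (by omega), if_pos (by omega)]; norm_num
  · rw [if_neg (by omega), if_neg (by omega), if_neg (by omega)]; norm_num
  · rw [if_neg (by omega), if_neg (by omega), if_neg (by omega)]; norm_num
  · rw [if_pos (by omega), if_neg (by omega), if_pos (by omega)]; norm_num

/-- the increment of the averages -/
theorem inc (F : (Fin k → ℤ) → ℝ) (r : ℕ) (z : Fin k → ℤ) (A : Finset (Fin k)) :
    act k (PP k ^ r) F (sh z A) - act k (PP k ^ (r + 1)) F z =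
      ∑ B : Finset (Fin k), ((if B ⊆ A then 1 else 0) - (1 / 2 : ℝ) ^ B.card) * act k (DD B * PP k ^ r) F z := by
  rw [← act_prodX A (act k (PP k ^ r) F) z, pow_succ', act_mul (PP k), ← act_sub, expand, act_sum]
  apply sum_congr rfl
  intro B _
  rw [act_smul, act_mul]

theorem Pe_Lv (a : Fin k → ℕ) (b : Fin k → ℤ) (s : ℕ) (U : (Fin k → ℤ) → ℝ) : Pe s (fun n => U (Lv a b s n)) := by
  intro n j
  simp only [Lv_per]

theorem Pe_Od (a : Fin k → ℕ) (b : Fin k → ℤ) (s : ℕ) (U : Finset (Fin k) → ℝ) :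
    Pe (s + 1) (fun n => U (Od a b s n)) := by
  intro n j
  simp only [Od_per]

theorem step_E (a : Fin k → ℕ) (b : Fin k → ℤ) {F : (Fin k → ℤ) → ℝ} (hF : An F) (N s r : ℕ) (hs : s + 1 ≤ N) :
    EE N (fun n => al a b (s + 1) n * act k (PP k ^ r) F (Lv a b (s + 1) n)) -
      EE N (fun n => al a b s n * act k (PP k ^ (r + 1)) F (Lv a b s n)) =
    ∑ B : Finset (Fin k), EE N (fun n => al a b s n * act k (DD B * PP k ^ r) F (Lv a b s n) *
      cf B (Od a b s n)) := by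
  rw [← EE_sub]
  have e1 : (fun n => al a b (s + 1) n * act k (PP k ^ r) F (Lv a b (s + 1) n) -
      al a b s n * act k (PP k ^ (r + 1)) F (Lv a b s n)) =
      fun n => ∑ B : Finset (Fin k), al a b s n * act k (DD B * PP k ^ r) F (Lv a b s n) *
        ((if B ⊆ Od a b s n then 1 else 0) - (1 / 2 : ℝ) ^ B.card) := by
    funext n
    rw [al_step a b (An_pow hF r), ← mul_sub, inc, mul_sum]
    apply sum_congr rfl
    intro B _
    ring
  rw [e1, EE_sum]
  apply sum_congr rfl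
  intro B _
  rw [EE_flip (s := s) (by omega) (Pe_mul (al_per a b s) (Pe_Lv a b s _))
    (Pe_le (Pe_Od a b s (fun O => (if B ⊆ O then 1 else 0) - (1 / 2 : ℝ) ^ B.card)) hs)]
  congr 1
  funext n
  rw [Od_flip]
  unfold cf
  ring

/-- one step of all walkers -/
theorem Bd_step (q : ℕ) (A : Finset (Fin k)) :
    Bd ((∏ i ∈ A, Xo i - PP k) * PP k ^ q) (4 ^ k * (2 / √(q + 1))) := by
  rw [expand, sum_mul]
  have h : ∀ B ∈ (univ : Finset (Finset (Fin k))),
      Bd ((((if B ⊆ A then 1 else 0) - (1 / 2 : ℝ) ^ B.card) • DD B) * PP k ^ q) (2 ^ k * (2 / √((q : ℝ) + 1))) := by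
    intro B _
    rw [smul_mul_assoc]
    rcases Nat.eq_zero_or_pos B.card with h0 | h0
    · have : B = ∅ := card_eq_zero.1 h0
      subst this
      rw [if_pos (empty_subset _), card_empty, pow_zero, sub_self, zero_smul]
      intro F K hF a
      have hK : 0 ≤ K := (abs_nonneg _).trans (hF 0)
      rw [map_zero]
      show |(0 : ℝ)| ≤ _
      rw [abs_zero]
      positivity
    · have h1 := Bd_smul ((if B ⊆ A then 1 else 0) - (1 / 2 : ℝ) ^ B.card) (Bd_DD' q B 1 q h0 (by omega))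
      refine Bd_mono h1 ?_
      have h2 : |(if B ⊆ A then 1 else 0) - (1 / 2 : ℝ) ^ B.card| ≤ 1 := by
        have h1 : (0 : ℝ) ≤ (1 / 2 : ℝ) ^ B.card := by positivity
        have h2 : (1 / 2 : ℝ) ^ B.card ≤ 1 := pow_le_one₀ (by norm_num) (by norm_num)
        rw [abs_le]
        constructor <;> split_ifs <;> linarith
      have h3 : (0 : ℝ) ≤ 2 ^ k * (2 / √((q : ℝ) + 1)) := by positivity
      rw [pow_one]
      nlinarith
  refine Bd_mono (Bd_sum _ _ _ h) (le_of_eq ?_)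
  rw [sum_const, nsmul_eq_mul, card_sets]
  have : (4 : ℝ) ^ k = 2 ^ k * 2 ^ k := by rw [← mul_pow]; norm_num
  rw [this]
  ring

end Pool.Agent.Q74.KP
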